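import Pool.Agent.H74.Koebe.Arc

/-! The total angle of a closed flower is `2π`; the cones of a flower cover the plane. -/

namespace Pool.Agent.H74.Koebe

variable {n : ℕ} {z : ℂ} {r : ℝ} {p : ℕ → ℂ} {ρ : ℕ → ℝ}

/-- A point of a cone is in the triangle or the segment to it crosses the opposite side. -/
lemma cone_or {a b c q : ℂ} (hpos : 0 < cr (b - a) (c - a)) (h1 : 0 ≤ cr (b - a) (q - a))
    (h2 : 0 ≤ cr (q - a) (c - a)) :
    q ∈ convexHull ℝ ({a, b, c} : Set ℂ) ∨ ∃ x, x ∈ segment ℝ a q ∧ x ∈ segment ℝ b c := by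
  rw [mem_tri_iff hpos]
  have e3 : cr (a - c) (q - c) = cr (q - a) (c - a) := by
    simp only [cr, Complex.sub_re, Complex.sub_im]; ring
  by_cases hmid : 0 ≤ cr (c - b) (q - b)
  · left
    exact ⟨h1, hmid, by rw [e3]; exact h2⟩
  · right
    push Not at hmid
    set D := cr (b - a) (c - a) with hD
    have hs := cr_sum a b c q
    rw [e3, ← hD] at hs
    set α := cr (q - a) (c - a) with hα
    set β := cr (b - a) (q - a) with hβ
    have hαβ : D < α + β := by linarith
    have hαβ0 : 0 < α + β := by linarith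
    -- D (q - a) = α (b - a) + β (c - a)
    have hre : D * (q.re - a.re) = α * (b.re - a.re) + β * (c.re - a.re) := by
      simp only [hD, hα, hβ, cr, Complex.sub_re, Complex.sub_im]; ring
    have him : D * (q.im - a.im) = α * (b.im - a.im) + β * (c.im - a.im) := by
      simp only [hD, hα, hβ, cr, Complex.sub_re, Complex.sub_im]; ring
    refine ⟨(α / (α + β)) • b + (β / (α + β)) • c, ?_, ?_⟩
    · refine ⟨1 - D / (α + β), D / (α + β), ?_, by positivity, by ring, ?_⟩
      · rw [sub_nonneg, div_le_one hαβ0]; exact hαβ.le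
      · apply Complex.ext
        · simp only [Complex.add_re, Complex.real_smul, Complex.mul_re, Complex.ofReal_re,
            Complex.ofReal_im, zero_mul, sub_zero]
          field_simp
          linarith
        · simp only [Complex.add_im, Complex.real_smul, Complex.mul_im, Complex.ofReal_re,
            Complex.ofReal_im, zero_mul, add_zero]
          field_simp
          linarith
    · refine ⟨α / (α + β), β / (α + β), by positivity, by positivity, ?_, rfl⟩
      rw [← add_div, div_self hαβ0.ne']

namespace Flower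

variable (h : Flower n z r p ρ)
include h

lemma disj' {i j : ℕ} (hi : i < n) (hj : j < n) (hij : i ≠ j) : ρ i + ρ j ≤ dist (p i) (p j) :=
  h.disj i hi j hj hij

lemma cross' {i j k l : ℕ} (hi : i < n) (hj : j < n) (hk : k < n) (hl : l < n) (hik : i ≠ k)
    (hil : i ≠ l) (hjk : j ≠ k) (hjl : j ≠ l) (hij : dist (p i) (p j) = ρ i + ρ j)
    (hkl : dist (p k) (p l) = ρ k + ρ l) {q : ℂ} (hq : q ∈ segment ℝ (p i) (p j))
    (hq' : q ∈ segment ℝ (p k) (p l)) : False :=
  edge_cross (h.ρpos i) (h.ρpos j) (h.ρpos k) (h.ρpos l) hij hkl (h.disj' hk hi hik.symm)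
    (h.disj' hk hj hjk.symm) (h.disj' hl hi hil.symm) (h.disj' hl hj hjl.symm) hq hq'

/-- A spoke to `k` does not meet the rim segment `i, j` when `k ≠ i, j`. -/
lemma cross_spoke {i j k : ℕ} (hi : i < n) (hj : j < n) (hk : k < n) (hik : i ≠ k)
    (hjk : j ≠ k) (hij : dist (p i) (p j) = ρ i + ρ j) {q : ℂ} (hq : q ∈ segment ℝ (p i) (p j))
    (hq' : q ∈ segment ℝ z (p k)) : False := by
  have hs : ∀ i, r + ρ i ≤ dist z (p i) := fun i => (h.spoke i).ge
  exact edge_cross (h.ρpos i) (h.ρpos j) h.rpos (h.ρpos k) hij (h.spoke k) (hs i) (hs j)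
    (h.disj' hk hi hik.symm) (h.disj' hk hj hjk.symm) hq hq'

/-- The total angle is `2π`. -/
theorem angle_sum : th z p n = 2 * Real.pi := by
  have hA := h.arc n
  have hn := h.three
  have hpi := Real.pi_pos
  -- the total angle is a multiple of `2π`
  have hexp : Complex.exp ((th z p n : ℝ) * Complex.I) = 1 := by
    have h1 := hA.polar (le_refl n)
    have h2 := hA.polar (Nat.zero_le n)
    have hper : p n = p 0 := by have := h.per 0; rwa [zero_add] at this
    have hperρ : ρ n = ρ 0 := by have := h.perρ 0; rwa [zero_add] at this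
    rw [hper, hperρ] at h1
    rw [th_zero, Complex.ofReal_zero, zero_mul, Complex.exp_zero, mul_one] at h2
    have h3 := hA.ne_zero (Nat.zero_le n)
    rw [← h2] at h1
    have h4 : (p 0 - z) * Complex.exp ((th z p n : ℝ) * Complex.I) = (p 0 - z) * 1 := by
      rw [mul_one]; exact h1.symm
    exact mul_left_cancel₀ h3 h4
  rw [Complex.exp_eq_one_iff] at hexp
  obtain ⟨k, hk⟩ := hexp
  have hk' : th z p n = k * (2 * Real.pi) := by
    have h1 : ((th z p n : ℝ) : ℂ) * Complex.I = ((k * (2 * Real.pi) : ℝ) : ℂ) * Complex.I := by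
      rw [hk]; push_cast; ring
    have h2 := mul_right_cancel₀ Complex.I_ne_zero h1
    exact_mod_cast h2
  have hpos : 0 < th z p n := by
    have h1 := hA.th_mono (show 1 ≤ n by omega) (le_refl n)
    have h2 := (hA.ang_mem (show 0 < n by omega)).1
    rw [th_succ, th_zero, zero_add] at h1
    linarith
  have hk1 : 1 ≤ k := by
    by_contra hcon
    push Not at hcon
    have h1 : k ≤ 0 := by omega
    have h2 : (k : ℝ) ≤ 0 := by exact_mod_cast h1
    rw [hk'] at hpos
    nlinarith
  rcases eq_or_lt_of_le hk1 with h1 | h1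
  · rw [hk', ← h1]; simp
  exfalso
  have hk2 : (2 : ℝ) ≤ k := by exact_mod_cast h1
  have h4 : 4 * Real.pi ≤ th z p n := by rw [hk']; nlinarith
  -- the last index with partial sum at most `2π`
  classical
  set j := Nat.findGreatest (fun j => th z p j ≤ 2 * Real.pi) n with hj
  have hj2 : th z p j ≤ 2 * Real.pi := by
    apply Nat.findGreatest_spec (P := fun j => th z p j ≤ 2 * Real.pi) (Nat.zero_le n)
    rw [th_zero]; positivity
  have hjn : j ≤ n := Nat.findGreatest_le n
  have hjn' : j < n := by
    apply lt_of_le_of_ne hjn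
    intro h0
    rw [h0] at hj2
    linarith
  have hj3 : 2 * Real.pi < th z p (j + 1) := by
    by_contra hcon
    push Not at hcon
    have := Nat.le_findGreatest (P := fun j => th z p j ≤ 2 * Real.pi) (show j + 1 ≤ n by omega)
      hcon
    omega
  have haj := hA.ang_mem hjn'
  have hj1 : 1 ≤ j := by
    by_contra hcon
    have h0 : j = 0 := by omega
    rw [h0] at hj3 haj
    rw [th_succ, th_zero] at hj3
    linarith
  have hjn1 : j + 1 < n := by
    apply lt_of_le_of_ne hjn'
    intro h0
    have h5 := th_succ z p j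
    rw [h0] at h5
    linarith
  -- the spoke to `p 0` lies in the cone of `p j, p (j + 1)`
  obtain ⟨E, hE1, hpol⟩ := hA.exists_polar
  have hp0 := hpol 0 (Nat.zero_le n)
  have hexp2 : Complex.exp (((2 * Real.pi : ℝ) : ℂ) * Complex.I) = 1 := by
    push_cast; exact Complex.exp_two_pi_mul_I
  have hp0' : p 0 - z = ((r + ρ 0 : ℝ) : ℂ) * E *
      Complex.exp (((2 * Real.pi : ℝ) : ℂ) * Complex.I) := by
    rw [hexp2]
    rw [th_zero, Complex.ofReal_zero, zero_mul, Complex.exp_zero] at hp0
    exact hp0
  have hr0 := hA.rad_pos (Nat.zero_le n)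
  have hrj := hA.rad_pos hjn
  have hrj1 := hA.rad_pos (show j + 1 ≤ n by omega)
  have hc1 : 0 ≤ cr (p j - z) (p 0 - z) := by
    rw [hpol j hjn, hp0', cr_polar hE1]
    apply mul_nonneg (by positivity)
    apply Real.sin_nonneg_of_nonneg_of_le_pi
    · linarith
    · rw [th_succ] at hj3; linarith
  have hc2 : 0 ≤ cr (p 0 - z) (p (j + 1) - z) := by
    rw [hpol (j + 1) (by omega), hp0', cr_polar hE1]
    apply mul_nonneg (by positivity)
    apply Real.sin_nonneg_of_nonneg_of_le_pi
    · linarith
    · rw [th_succ]; linarith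
  -- `p 0` is in the triangle
  have hT0 : p 0 ∈ convexHull ℝ ({z, p j, p (j + 1)} : Set ℂ) := by
    rcases cone_or (h.pos j) hc1 hc2 with h5 | ⟨x, hx, hx'⟩
    · exact h5
    · exact (h.cross_spoke hjn' hjn1 (by omega) (by omega) (by omega) (h.rim j) hx' hx).elim
  have hTi : ∀ i, i < j → p i ∈ convexHull ℝ ({z, p j, p (j + 1)} : Set ℂ) := by
    intro i
    induction i with
    | zero => exact fun _ => hT0
    | succ i ih =>
      intro hi
      have hTi := ih (by omega)
      by_contra hcon
      obtain ⟨x, hx, -, hx'⟩ := tri_enter (h.pos j) hTi hcon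
      rcases hx' with hx' | hx' | hx'
      · exact h.cross_spoke (show i < n by omega) (show i + 1 < n by omega) hjn' (by omega)
          (by omega) (h.rim i) hx hx'
      · exact h.cross' (show i < n by omega) (show i + 1 < n by omega) hjn' hjn1 (by omega)
          (by omega) (by omega) (by omega) (h.rim i) (h.rim j) hx hx'
      · exact h.cross_spoke (show i < n by omega) (show i + 1 < n by omega) hjn1 (by omega)
          (by omega) (h.rim i) hx (by rw [segment_symm]; exact hx')
  have hlast := hTi (j - 1) (by omega)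
  rw [mem_tri_iff (h.pos j)] at hlast
  have h6 := h.pos (j - 1)
  rw [show j - 1 + 1 = j by omega, cr_swap] at h6
  linarith [hlast.1]

/-- The cones of a flower cover the plane. -/
theorem cone (q : ℂ) :
    ∃ i < n, 0 ≤ cr (p i - z) (q - z) ∧ 0 ≤ cr (q - z) (p (i + 1) - z) := by
  have hA := h.arc n
  have hn := h.three
  have hpi := Real.pi_pos
  have hsum := h.angle_sum
  by_cases hq : q - z = 0
  · refine ⟨0, by omega, ?_⟩
    rw [hq]
    simp [cr]
  obtain ⟨E, hE1, hpol⟩ := hA.exists_polar
  have hE0 : E ≠ 0 := by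
    intro h0; rw [h0, norm_zero] at hE1; norm_num at hE1
  -- the angle of `q - z` relative to `E`, in `[0, 2π)`
  obtain ⟨γ, hγ0, hγ1, hγ⟩ : ∃ γ : ℝ, 0 ≤ γ ∧ γ < 2 * Real.pi ∧
      q - z = ((‖q - z‖ : ℝ) : ℂ) * E * Complex.exp (γ * Complex.I) := by
    have h1 := Complex.norm_mul_exp_arg_mul_I ((q - z) / E)
    have h2 : q - z = ((‖q - z‖ : ℝ) : ℂ) * E *
        Complex.exp ((Complex.arg ((q - z) / E) : ℝ) * Complex.I) := by
      rw [norm_div, hE1, div_one] at h1
      have h3 : (q - z) = E * ((q - z) / E) := by rw [mul_div_cancel₀ _ hE0]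
      nth_rewrite 1 [h3]
      nth_rewrite 1 [← h1]
      ring
    rcases le_or_gt 0 (Complex.arg ((q - z) / E)) with h3 | h3
    · exact ⟨_, h3, by linarith [Complex.arg_le_pi ((q - z) / E)], h2⟩
    · refine ⟨Complex.arg ((q - z) / E) + 2 * Real.pi, ?_, by linarith, ?_⟩
      · linarith [Complex.neg_pi_lt_arg ((q - z) / E)]
      · have : Complex.exp (((Complex.arg ((q - z) / E) + 2 * Real.pi : ℝ) : ℂ) * Complex.I) =
            Complex.exp ((Complex.arg ((q - z) / E) : ℝ) * Complex.I) := by
          push_cast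
          rw [add_mul, Complex.exp_add, Complex.exp_two_pi_mul_I, mul_one]
        rw [this]
        exact h2
  classical
  set j := Nat.findGreatest (fun j => th z p j ≤ γ) n with hj
  have hj2 : th z p j ≤ γ := by
    apply Nat.findGreatest_spec (P := fun j => th z p j ≤ γ) (Nat.zero_le n)
    rw [th_zero]; exact hγ0
  have hjn : j ≤ n := Nat.findGreatest_le n
  have hjn' : j < n := by
    apply lt_of_le_of_ne hjn
    intro h0
    rw [h0] at hj2
    linarith
  have hj3 : γ < th z p (j + 1) := by
    by_contra hcon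
    push Not at hcon
    have := Nat.le_findGreatest (P := fun j => th z p j ≤ γ) (show j + 1 ≤ n by omega)
      hcon
    omega
  have haj := hA.ang_mem hjn'
  have hrj := hA.rad_pos hjn
  have hrj1 := hA.rad_pos (show j + 1 ≤ n by omega)
  rw [th_succ] at hj3
  refine ⟨j, hjn', ?_, ?_⟩
  · rw [hpol j hjn, hγ, cr_polar hE1]
    apply mul_nonneg (by positivity)
    apply Real.sin_nonneg_of_nonneg_of_le_pi <;> linarith
  · rw [hpol (j + 1) (by omega), hγ, cr_polar hE1]
    apply mul_nonneg (by positivity)
    rw [th_succ]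
    apply Real.sin_nonneg_of_nonneg_of_le_pi <;> linarith

end Flower

end Pool.Agent.H74.Koebe
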