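import Pool.Agent.H74.Koebe.Defs

/-! Triangles: barycentric formula, entering a triangle. -/

namespace Pool.Agent.H74.Koebe

lemma bary {a b c : ℂ} (h : 0 < cr (b - a) (c - a)) (q : ℂ) :
    (cr (c - b) (q - b) / cr (b - a) (c - a)) • a + (cr (a - c) (q - c) / cr (b - a) (c - a)) • b
        + (cr (b - a) (q - a) / cr (b - a) (c - a)) • c = q := by
  set D := cr (b - a) (c - a) with hDdef
  have hDne : D ≠ 0 := ne_of_gt h
  have e1 : (D : ℝ) * q.re = cr (c - b) (q - b) * a.re + cr (a - c) (q - c) * b.re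
      + cr (b - a) (q - a) * c.re := by
    simp only [hDdef, cr, Complex.sub_re, Complex.sub_im]; ring
  have e2 : (D : ℝ) * q.im = cr (c - b) (q - b) * a.im + cr (a - c) (q - c) * b.im
      + cr (b - a) (q - a) * c.im := by
    simp only [hDdef, cr, Complex.sub_re, Complex.sub_im]; ring
  apply Complex.ext
  · simp only [Complex.add_re, Complex.real_smul, Complex.mul_re, Complex.ofReal_re,
      Complex.ofReal_im, zero_mul, sub_zero]
    field_simp
    linarith
  · simp only [Complex.add_im, Complex.real_smul, Complex.mul_im, Complex.ofReal_re,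
      Complex.ofReal_im, zero_mul, add_zero]
    field_simp
    linarith

lemma cr_sum (a b c q : ℂ) :
    cr (b - a) (q - a) + cr (c - b) (q - b) + cr (a - c) (q - c) = cr (b - a) (c - a) := by
  simp only [cr, Complex.sub_re, Complex.sub_im]; ring

lemma cr_rot (a b c : ℂ) : cr (c - b) (a - b) = cr (b - a) (c - a) := by
  simp only [cr, Complex.sub_re, Complex.sub_im]; ring

lemma mem_edge {a b c q : ℂ} (h : 0 < cr (b - a) (c - a)) (h1 : cr (b - a) (q - a) = 0)
    (h2 : 0 ≤ cr (c - b) (q - b)) (h3 : 0 ≤ cr (a - c) (q - c)) : q ∈ segment ℝ a b := by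
  have hb := bary h q
  have hs := cr_sum a b c q
  rw [h1, zero_add] at hs
  rw [h1, zero_div, zero_smul, add_zero] at hb
  refine ⟨_, _, div_nonneg h2 h.le, div_nonneg h3 h.le, ?_, hb⟩
  rw [← add_div, hs, div_self (ne_of_gt h)]

lemma cr_cont (u a : ℂ) : Continuous fun x : ℂ => cr u (x - a) := by
  unfold cr
  fun_prop

lemma tri_enter {a b c p q : ℂ} (h : 0 < cr (b - a) (c - a))
    (hq : q ∈ convexHull ℝ ({a, b, c} : Set ℂ)) (hp : p ∉ convexHull ℝ ({a, b, c} : Set ℂ)) :
    ∃ x ∈ segment ℝ q p, x ∈ convexHull ℝ ({a, b, c} : Set ℂ) ∧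
      (x ∈ segment ℝ a b ∨ x ∈ segment ℝ b c ∨ x ∈ segment ℝ c a) := by
  rw [mem_tri_iff h] at hq hp
  let g : ℝ → ℝ := fun t => min (min (cr (b - a) (AffineMap.lineMap q p t - a))
    (cr (c - b) (AffineMap.lineMap q p t - b))) (cr (a - c) (AffineMap.lineMap q p t - c))
  have hl : Continuous fun t : ℝ => AffineMap.lineMap q p t := AffineMap.lineMap_continuous
  have hg : Continuous g := by
    refine Continuous.min (Continuous.min ?_ ?_) ?_
    · exact (cr_cont _ _).comp hl
    · exact (cr_cont _ _).comp hl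
    · exact (cr_cont _ _).comp hl
  have g0 : 0 ≤ g 0 := by
    simp only [g, AffineMap.lineMap_apply_zero]
    exact le_min (le_min hq.1 hq.2.1) hq.2.2
  have g1 : g 1 < 0 := by
    simp only [g, AffineMap.lineMap_apply_one]
    by_contra hcon
    push Not at hcon
    apply hp
    rw [le_min_iff, le_min_iff] at hcon
    exact ⟨hcon.1.1, hcon.1.2, hcon.2⟩
  obtain ⟨t, ht, hgt⟩ := intermediate_value_Icc' (zero_le_one) hg.continuousOn
    (show (0 : ℝ) ∈ Set.Icc (g 1) (g 0) from ⟨g1.le, g0⟩)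
  set x := AffineMap.lineMap q p t with hx
  have h1 : 0 ≤ cr (b - a) (x - a) ∧ 0 ≤ cr (c - b) (x - b) ∧ 0 ≤ cr (a - c) (x - c) := by
    have : 0 ≤ g t := hgt.ge
    simp only [g, le_min_iff] at this
    exact ⟨this.1.1, this.1.2, this.2⟩
  have hseg : x ∈ segment ℝ q p := by
    rw [segment_eq_image_lineMap]
    exact ⟨t, ht, rfl⟩
  refine ⟨x, hseg, (mem_tri_iff h x).2 h1, ?_⟩
  have h2 : min (min (cr (b - a) (x - a)) (cr (c - b) (x - b))) (cr (a - c) (x - c)) = 0 := hgt
  rcases min_choice (min (cr (b - a) (x - a)) (cr (c - b) (x - b))) (cr (a - c) (x - c)) with h3 | h3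
  · rw [h3] at h2
    rcases min_choice (cr (b - a) (x - a)) (cr (c - b) (x - b)) with h4 | h4
    · rw [h4] at h2
      exact Or.inl (mem_edge h h2 h1.2.1 h1.2.2)
    · rw [h4] at h2
      refine Or.inr (Or.inl (mem_edge (c := a) ?_ h2 h1.2.2 h1.1))
      rw [cr_rot]; exact h
  · rw [h3] at h2
    refine Or.inr (Or.inr (mem_edge (c := b) ?_ h2 h1.1 h1.2.1))
    rw [← cr_rot, ← cr_rot]
    rw [cr_rot, cr_rot, cr_rot]
    rw [cr_rot a b c] 
    exact h

end Pool.Agent.H74.Koebe
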