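import Pool.Agent.H74.Koebe.Flower
import Pool.Agent.H74.Koebe.Tri

/-! Angles around a disc. -/

namespace Pool.Agent.H74.Koebe

/-- A chain of discs around the disc `(z, r)`. -/
structure Arc (m : ℕ) (z : ℂ) (r : ℝ) (p : ℕ → ℂ) (ρ : ℕ → ℝ) : Prop where
  rpos : 0 < r
  ρpos : ∀ i ≤ m, 0 < ρ i
  spoke : ∀ i ≤ m, dist z (p i) = r + ρ i
  rim : ∀ i < m, dist (p i) (p (i + 1)) = ρ i + ρ (i + 1)
  pos : ∀ i < m, 0 < cr (p i - z) (p (i + 1) - z)

lemma Flower.arc {n : ℕ} {z : ℂ} {r : ℝ} {p : ℕ → ℂ} {ρ : ℕ → ℝ} (h : Flower n z r p ρ) (m : ℕ) :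
    Arc m z r p ρ := ⟨h.rpos, fun i _ => h.ρpos i, fun i _ => h.spoke i, fun i _ => h.rim i,
      fun i _ => h.pos i⟩

lemma Fan.arc {m : ℕ} {z : ℂ} {r : ℝ} {p : ℕ → ℂ} {ρ : ℕ → ℝ} (h : Fan m z r p ρ) :
    Arc m z r p ρ := ⟨h.rpos, h.ρpos, h.spoke, h.rim, h.pos⟩

/-- The angle at `z` between consecutive spokes. -/
noncomputable def ang (z : ℂ) (p : ℕ → ℂ) (i : ℕ) : ℝ := Complex.arg ((p (i + 1) - z) / (p i - z))

/-- The partial sums of the angles. -/
noncomputable def th (z : ℂ) (p : ℕ → ℂ) (j : ℕ) : ℝ := ∑ i ∈ Finset.range j, ang z p i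

lemma th_zero (z : ℂ) (p : ℕ → ℂ) : th z p 0 = 0 := by simp [th]

lemma th_succ (z : ℂ) (p : ℕ → ℂ) (j : ℕ) : th z p (j + 1) = th z p j + ang z p j := by
  unfold th; rw [Finset.sum_range_succ]

variable {m : ℕ} {z : ℂ} {r : ℝ} {p : ℕ → ℂ} {ρ : ℕ → ℝ}

lemma cr_eq_im (u v : ℂ) : cr u v = ((starRingEnd ℂ) u * v).im := by
  simp only [cr, Complex.mul_im, Complex.conj_re, Complex.conj_im]; ring

namespace Arc

variable (h : Arc m z r p ρ)
include h

lemma norm_eq {i : ℕ} (hi : i ≤ m) : ‖p i - z‖ = r + ρ i := by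
  rw [← dist_eq_norm, dist_comm]; exact h.spoke i hi

lemma rad_pos {i : ℕ} (hi : i ≤ m) : 0 < r + ρ i := by
  have := h.rpos; have := h.ρpos i hi; linarith

lemma ne_zero {i : ℕ} (hi : i ≤ m) : p i - z ≠ 0 := by
  have h1 := h.norm_eq hi
  have h2 := h.rad_pos hi
  intro h0
  rw [h0, norm_zero] at h1
  linarith

lemma ang_mem {i : ℕ} (hi : i < m) : 0 < ang z p i ∧ ang z p i < Real.pi := by
  have h1 := h.pos i hi
  have h2 := h.ne_zero hi.le
  have h3 : 0 < ((p (i + 1) - z) / (p i - z)).im := by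
    have h4 : (p (i + 1) - z) / (p i - z) =
        (((Complex.normSq (p i - z))⁻¹ : ℝ) : ℂ) *
          ((starRingEnd ℂ) (p i - z) * (p (i + 1) - z)) := by
      rw [div_eq_mul_inv, Complex.inv_def]
      push_cast
      ring
    rw [h4, Complex.im_ofReal_mul, ← cr_eq_im]
    have h5 : 0 < Complex.normSq (p i - z) := Complex.normSq_pos.2 h2
    positivity
  unfold ang
  constructor
  · apply lt_of_le_of_ne (Complex.arg_nonneg_iff.2 h3.le)
    intro h0
    rw [eq_comm, Complex.arg_eq_zero_iff] at h0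
    linarith [h0.2]
  · rw [Complex.arg_lt_pi_iff]
    exact Or.inr (ne_of_gt h3)

lemma polar {j : ℕ} (hj : j ≤ m) : p j - z =
    ((r + ρ j : ℝ) : ℂ) * ((p 0 - z) / ((r + ρ 0 : ℝ) : ℂ)) *
      Complex.exp ((th z p j : ℝ) * Complex.I) := by
  have h0 := h.rad_pos (Nat.zero_le m)
  have h0' : ((r + ρ 0 : ℝ) : ℂ) ≠ 0 := by exact_mod_cast h0.ne'
  induction j with
  | zero =>
    rw [th_zero, Complex.ofReal_zero, zero_mul, Complex.exp_zero, mul_one, mul_div_cancel₀ _ h0']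
  | succ j ih =>
    have ih' := ih (by omega)
    have h1 := h.rad_pos (show j ≤ m by omega)
    have h1' : ((r + ρ j : ℝ) : ℂ) ≠ 0 := by exact_mod_cast h1.ne'
    have h2 := h.ne_zero (show j ≤ m by omega)
    have h3 : (p (j + 1) - z) / (p j - z) = (((r + ρ (j + 1)) / (r + ρ j) : ℝ) : ℂ) *
        Complex.exp ((ang z p j : ℝ) * Complex.I) := by
      have h4 := Complex.norm_mul_exp_arg_mul_I ((p (j + 1) - z) / (p j - z))
      rw [norm_div, h.norm_eq hj, h.norm_eq (show j ≤ m by omega)] at h4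
      rw [← h4]
      rfl
    have h5 : p (j + 1) - z = (p j - z) * ((p (j + 1) - z) / (p j - z)) := by
      rw [mul_div_cancel₀ _ h2]
    rw [h5, h3, th_succ]
    nth_rewrite 1 [ih']
    rw [Complex.ofReal_add (th z p j), add_mul, Complex.exp_add]
    push_cast at h1' ⊢
    field_simp

lemma norm_base : ‖(p 0 - z) / ((r + ρ 0 : ℝ) : ℂ)‖ = 1 := by
  have h0 := h.rad_pos (Nat.zero_le m)
  rw [norm_div, h.norm_eq (Nat.zero_le m), Complex.norm_real, Real.norm_eq_abs, abs_of_pos h0,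
    div_self h0.ne']

lemma exists_polar : ∃ E : ℂ, ‖E‖ = 1 ∧ ∀ j ≤ m, p j - z =
    ((r + ρ j : ℝ) : ℂ) * E * Complex.exp ((th z p j : ℝ) * Complex.I) :=
  ⟨_, h.norm_base, fun _ hj => h.polar hj⟩

end Arc

lemma conj_mul_polar {E : ℂ} (hE : ‖E‖ = 1) (x y a b : ℝ) :
    (starRingEnd ℂ) ((x : ℂ) * E * Complex.exp (a * Complex.I)) *
      ((y : ℂ) * E * Complex.exp (b * Complex.I)) =
      ((x * y : ℝ) : ℂ) * Complex.exp (((b - a : ℝ) : ℂ) * Complex.I) := by
  have h1 : (starRingEnd ℂ) E * E = 1 := by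
    rw [mul_comm, Complex.mul_conj, Complex.normSq_eq_norm_sq, hE]; simp
  have h2 : (starRingEnd ℂ) (Complex.exp (a * Complex.I)) = Complex.exp (-(a * Complex.I)) := by
    rw [← Complex.exp_conj]
    congr 1
    simp
  rw [map_mul, map_mul, Complex.conj_ofReal, h2]
  have h3 : Complex.exp (((b - a : ℝ) : ℂ) * Complex.I) =
      Complex.exp (-(a * Complex.I)) * Complex.exp (b * Complex.I) := by
    rw [← Complex.exp_add]; congr 1; push_cast; ring
  rw [h3]
  push_cast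
  calc (x : ℂ) * (starRingEnd ℂ) E * Complex.exp (-(a * Complex.I)) *
        ((y : ℂ) * E * Complex.exp (b * Complex.I))
      = (x : ℂ) * y * ((starRingEnd ℂ) E * E) *
        (Complex.exp (-(a * Complex.I)) * Complex.exp (b * Complex.I)) := by ring
    _ = _ := by rw [h1]; ring

lemma cr_polar {E : ℂ} (hE : ‖E‖ = 1) (x y a b : ℝ) :
    cr ((x : ℂ) * E * Complex.exp (a * Complex.I)) ((y : ℂ) * E * Complex.exp (b * Complex.I)) =
      x * y * Real.sin (b - a) := by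
  rw [cr_eq_im, conj_mul_polar hE, Complex.im_ofReal_mul, Complex.exp_ofReal_mul_I_im]

lemma normsq_polar {E : ℂ} (hE : ‖E‖ = 1) (x y a b : ℝ) :
    ‖(x : ℂ) * E * Complex.exp (a * Complex.I) - (y : ℂ) * E * Complex.exp (b * Complex.I)‖ ^ 2 =
      (x - y) ^ 2 + 4 * (x * y) * Real.sin ((b - a) / 2) ^ 2 := by
  have h1 : ∀ u v : ℂ, ‖u - v‖ ^ 2 = ‖u‖ ^ 2 + ‖v‖ ^ 2 - 2 * ((starRingEnd ℂ) u * v).re := by
    intro u v
    rw [normsq_eq, normsq_eq, normsq_eq]
    simp only [Complex.sub_re, Complex.sub_im, Complex.mul_re, Complex.conj_re, Complex.conj_im]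
    ring
  have h2 : ∀ x a : ℝ, ‖(x : ℂ) * E * Complex.exp (a * Complex.I)‖ ^ 2 = x ^ 2 := by
    intro x a
    rw [norm_mul, norm_mul, hE, Complex.norm_exp_ofReal_mul_I, Complex.norm_real, mul_one, mul_one,
      Real.norm_eq_abs, sq_abs]
  rw [h1, h2, h2, conj_mul_polar hE, Complex.re_ofReal_mul, Complex.exp_ofReal_mul_I_re]
  have h3 : Real.cos (b - a) = 1 - 2 * Real.sin ((b - a) / 2) ^ 2 := by
    have := Real.cos_sq' ((b - a) / 2)
    have h4 := Real.cos_two_mul ((b - a) / 2)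
    rw [show 2 * ((b - a) / 2) = b - a by ring] at h4
    rw [h4, this]; ring
  rw [h3]
  ring

namespace Arc

variable (h : Arc m z r p ρ)
include h

lemma law {i j : ℕ} (hi : i ≤ m) (hj : j ≤ m) : (dist (p i) (p j)) ^ 2 =
    (ρ i - ρ j) ^ 2 + 4 * ((r + ρ i) * (r + ρ j)) * Real.sin ((th z p j - th z p i) / 2) ^ 2 := by
  have h1 : dist (p i) (p j) = ‖(p i - z) - (p j - z)‖ := by
    rw [dist_eq_norm]; congr 1; ring
  rw [h1, h.polar hi, h.polar hj, normsq_polar h.norm_base]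
  ring

lemma th_mono {i j : ℕ} (hij : i ≤ j) (hj : j ≤ m) : th z p i ≤ th z p j := by
  induction j with
  | zero =>
    have : i = 0 := by omega
    rw [this]
  | succ j ih =>
    rcases Nat.lt_or_ge i (j + 1) with h1 | h1
    · have := ih (by omega) (by omega)
      rw [th_succ]
      have := (h.ang_mem (show j < m by omega)).1
      linarith
    · have : i = j + 1 := by omega
      rw [this]

/-- Non-overlapping discs are separated in angle. -/
lemma sep_sq {i j : ℕ} (hi : i ≤ m) (hj : j ≤ m) (hd : ρ i + ρ j ≤ dist (p i) (p j)) :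
    (ρ i / (r + ρ i)) * (ρ j / (r + ρ j)) ≤ Real.sin ((th z p j - th z p i) / 2) ^ 2 := by
  have h1 := h.law hi hj
  have h2 := h.rad_pos hi
  have h3 := h.rad_pos hj
  have h4 := h.ρpos i hi
  have h5 := h.ρpos j hj
  have h6 : (ρ i + ρ j) ^ 2 ≤ (dist (p i) (p j)) ^ 2 := by gcongr
  rw [h1] at h6
  rw [div_mul_div_comm, div_le_iff₀ (by positivity)]
  nlinarith

lemma ang_sq {i : ℕ} (hi : i < m) : Real.sin (ang z p i / 2) ^ 2 =
    (ρ i / (r + ρ i)) * (ρ (i + 1) / (r + ρ (i + 1))) := by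
  have h1 := h.law hi.le (show i + 1 ≤ m by omega)
  rw [th_succ, h.rim i hi] at h1
  have h2 := h.rad_pos hi.le
  have h3 := h.rad_pos (show i + 1 ≤ m by omega)
  rw [div_mul_div_comm, eq_div_iff (by positivity)]
  have h4 : th z p i + ang z p i - th z p i = ang z p i := by ring
  rw [h4] at h1
  nlinarith

end Arc

end Pool.Agent.H74.Koebe
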