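import Pool.Agent.H74.Koebe.Schwarz

/-! Vertices next to the boundary are large in the maximal packing. -/

namespace Pool.Agent.H74.Koebe

universe u

variable {V : Type u} {K : OComplex V} {P Q : Circles V} {κ : ℝ}

open OComplex

/-- The data of an open link. -/
structure Pth (K : OComplex V) (v : V) (m : ℕ) (w : ℕ → V) : Prop where
  one : 1 ≤ m
  inj : ∀ i ≤ m, ∀ j ≤ m, w i = w j → i = j
  face : ∀ i < m, K.face v (w i) (w (i + 1))
  nbr : ∀ x, K.adj v x → ∃ i ≤ m, w i = x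
  last : ∀ x, ¬ K.face v (w m) x
  first : ∀ x, ¬ K.face v x (w 0)

lemma pth_of_boundary {v : V} (h : K.Boundary v) : ∃ m w, Pth K v m w := by
  obtain ⟨m, w, h1, h2, h3, h4, h5, h6⟩ := h
  exact ⟨m, w, h1, h2, h3, h4, h5, h6⟩

lemma Pth.adj {v : V} {m : ℕ} {w : ℕ → V} (h : Pth K v m w) {i : ℕ} (hi : i ≤ m) :
    K.adj v (w i) := by
  rcases Nat.lt_or_ge i m with h1 | h1
  · exact adj_of_face (h.face i h1)
  · have h2 : i = m := le_antisymm hi h1
    have h3 := h.one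
    have h4 := h.face (m - 1) (by omega)
    rw [show m - 1 + 1 = m by omega] at h4
    rw [h2]
    exact adj_of_face' h4

/-- In a closed link every neighbour has a successor and a predecessor. -/
lemma Cyc.succ {v x : V} {n : ℕ} {w : ℕ → V} (h : Cyc K v n w) (hx : K.adj v x) :
    (∃ y, K.face v x y) ∧ ∃ y, K.face v y x := by
  obtain ⟨i, hi, rfl⟩ := h.nbr x hx
  refine ⟨⟨_, h.face i⟩, ⟨w (i + n - 1), ?_⟩⟩
  have h3 := h.three
  have h1 := h.face (i + n - 1)
  rwa [show i + n - 1 + 1 = i + n by omega, h.per] at h1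

lemma Pth.first_not {v : V} {m : ℕ} {w : ℕ → V} (h : Pth K v m w) : ¬ K.Interior (w 0) := by
  intro hI
  obtain ⟨n, u, hu⟩ := cyc_of_interior hI
  obtain ⟨⟨y, hy⟩, -⟩ := hu.succ (adj_symm (h.adj (Nat.zero_le m)))
  exact h.first y (K.rot hy)

lemma Pth.last_not {v : V} {m : ℕ} {w : ℕ → V} (h : Pth K v m w) : ¬ K.Interior (w m) := by
  intro hI
  obtain ⟨n, u, hu⟩ := cyc_of_interior hI
  obtain ⟨-, ⟨y, hy⟩⟩ := hu.succ (adj_symm (h.adj (le_refl m)))
  exact h.last y (K.rot (K.rot hy))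

lemma norm_add_le_one {z : ℂ} {r : ℝ} (hr : 0 < r)
    (h : Metric.ball z r ⊆ Metric.ball (0 : ℂ) 1) : ‖z‖ + r ≤ 1 := by
  by_contra hcon
  push Not at hcon
  by_cases hz : z = 0
  · subst hz
    rw [norm_zero, zero_add] at hcon
    have h1 : (1 : ℂ) ∈ Metric.ball (0 : ℂ) r := by simp [hcon]
    have h2 := h h1
    simp at h2
  · have hz0 : 0 < ‖z‖ := norm_pos_iff.2 hz
    have hz1 : ‖z‖ < 1 := by
      have h2 := h (Metric.mem_ball_self hr)
      simpa using h2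
    -- the point `z / ‖z‖`
    have h1 : ((‖z‖⁻¹ : ℝ) : ℂ) * z ∈ Metric.ball z r := by
      rw [Metric.mem_ball, dist_eq_norm]
      have : ((‖z‖⁻¹ : ℝ) : ℂ) * z - z = ((‖z‖⁻¹ - 1 : ℝ) : ℂ) * z := by push_cast; ring
      rw [this, norm_mul, Complex.norm_real, Real.norm_eq_abs, abs_of_nonneg]
      · rw [sub_mul, inv_mul_cancel₀ hz0.ne']
        linarith
      · rw [sub_nonneg]
        exact (one_le_inv₀ hz0).2 hz1.le
    have h2 := h h1
    rw [Metric.mem_ball, dist_zero_right, norm_mul, Complex.norm_real, Real.norm_eq_abs,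
      abs_of_nonneg (by positivity), inv_mul_cancel₀ hz0.ne'] at h2
    exact lt_irrefl _ h2

lemma Pth.fan {v : V} {m : ℕ} {w : ℕ → V} (h : Pth K v m w) (hG : Good K Q)
    (hsub : ∀ v, Metric.ball (Q.z v) (Q.r v) ⊆ Metric.ball 0 1)
    (hb : ∀ x, ¬ K.Interior x → ‖Q.z x‖ + Q.r x = 1) (hv : ¬ K.Interior v) :
    Fan m (Q.z v) (Q.r v) (fun i => Q.z (w i)) (fun i => Q.r (w i)) where
  one := h.one
  rpos := hG.pos v
  ρpos := fun i _ => hG.pos _
  spoke := fun i hi => hG.tan (h.adj hi)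
  rim := fun i hi => hG.tan (adj_of_face (K.rot (h.face i hi)))
  pos := fun i hi => hG.ori (h.face i hi)
  disj := fun i hi j hj hij => hG.dis (fun he => hij (h.inj i hi j hj he))
  horo := hb v hv
  horo0 := hb _ h.first_not
  horom := hb _ h.last_not
  ins := fun i _ => norm_add_le_one (hG.pos _) (hsub _)

lemma Pth.le {v : V} {m d : ℕ} {w : ℕ → V} (h : Pth K v m w) (hd : K.DegLE d) : m ≤ d := by
  have := encard_range (n := m + 1) (w := w) (fun i hi j hj => h.inj i (by omega) j (by omega))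
    (S := {x | K.adj v x}) (fun i hi => h.adj (by omega)) (hd v)
  omega

/-- A vertex adjacent to the boundary with closed disc inside the half disc is large. -/
theorem near_boundary (d : ℕ) : ∃ c : ℝ, 0 < c ∧ c ≤ 1 / 2 ∧
    ∀ {V : Type u} {K : OComplex V} {Q : Circles V}, Good K Q → K.DegLE d →
    (∀ v, Metric.ball (Q.z v) (Q.r v) ⊆ Metric.ball 0 1) →
    (∀ x, ¬ K.Interior x → ‖Q.z x‖ + Q.r x = 1) →
    ∀ v0, K.Interior v0 → Q.z v0 = 0 → ∀ x b, far Q x < 1 / 2 → K.adj x b → ¬ K.Interior b →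
    c ≤ Q.r x := by
  obtain ⟨c, hc0, hc1, hc⟩ := fan_lemma d
  refine ⟨c, hc0, hc1, ?_⟩
  intro V K Q hG hd hsub hb v0 hv0 hz0 x b hx hxb hbI
  obtain ⟨m, w, hw⟩ := pth_of_boundary ((hG.link b).resolve_left hbI)
  have hbv0 : b ≠ v0 := fun h => hbI (h ▸ hv0)
  have hb1 := hb b hbI
  have hr0 := hG.pos v0
  have h1 : Q.r b ≤ 1 / 2 := by
    have h2 := hG.dis hbv0
    rw [hz0, dist_zero_right] at h2
    linarith
  have h2 : 1 / 4 ≤ Q.r b := by
    have h3 := hG.tan hxb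
    have h4 : ‖Q.z b‖ ≤ ‖Q.z x‖ + dist (Q.z x) (Q.z b) := by
      rw [dist_eq_norm]
      have := norm_sub_norm_le (Q.z b) (Q.z x)
      rw [norm_sub_rev] at this
      linarith
    unfold far at hx
    linarith
  obtain ⟨i, hi, rfl⟩ := hw.nbr x (adj_symm hxb)
  exact hc (hw.le hd) (hw.fan hG hsub hb hbI) h2 h1 i hi hx

end Pool.Agent.H74.Koebe
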