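import Pool.Agent.H74.Koebe.Geo

/-! Length-area counting over dyadic blocks of circles. -/

namespace Pool.Agent.H74.Koebe

open MeasureTheory ENNReal

/-- Area comparison: disjoint discs inside a disc. -/
lemma area_le {V : Type*} [Countable V] (B : Set V) (z : V → ℂ) (r : V → ℝ) (hr : ∀ v, 0 < r v)
    (hdis : ∀ u v, u ≠ v → Disjoint (Metric.ball (z u) (r u)) (Metric.ball (z v) (r v)))
    {c : ℂ} {ρ : ℝ} (hρ : 0 ≤ ρ) (hsub : ∀ v ∈ B, Metric.ball (z v) (r v) ⊆ Metric.ball c ρ) :
    ∑' v, B.indicator (fun v => ENNReal.ofReal ((r v) ^ 2)) v ≤ ENNReal.ofReal (ρ ^ 2) := by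
  rw [← tsum_subtype B (fun v => ENNReal.ofReal ((r v) ^ 2))]
  have h1 : volume (⋃ v : B, Metric.ball (z v) (r v)) =
      ∑' v : B, volume (Metric.ball (z v) (r v)) := by
    apply measure_iUnion
    · intro u v huv
      exact hdis _ _ (fun h => huv (Subtype.ext h))
    · intro v
      exact measurableSet_ball
  have h2 : volume (⋃ v : B, Metric.ball (z v) (r v)) ≤ volume (Metric.ball c ρ) := by
    apply measure_mono
    apply Set.iUnion_subset
    intro v
    exact hsub v v.2
  rw [h1, Complex.volume_ball] at h2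
  simp_rw [Complex.volume_ball] at h2
  rw [ENNReal.tsum_mul_right] at h2
  have hpi0 : (NNReal.pi : ℝ≥0∞) ≠ 0 := by
    simpa using NNReal.pi_ne_zero
  have h3 := (ENNReal.mul_le_mul_iff_left hpi0 ENNReal.coe_ne_top).1 h2
  rw [ENNReal.ofReal_pow hρ]
  refine le_trans (le_of_eq ?_) h3
  congr 1
  ext v
  rw [ENNReal.ofReal_pow (hr _).le]

/-- The vertices relevant for the block `[T, 2T]`. -/
def block {V : Type*} (z : V → ℂ) (r : V → ℝ) (w : ℂ) (M C T : ℝ) : Set V :=
  {v | T ≤ (1 + M) * dist (z v) w ∧ dist (z v) w + r v ≤ C * T}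

theorem block_bound {V : Type*} [Countable V] {z : V → ℂ} {r R : V → ℝ} (hr : ∀ v, 0 < r v)
    (hR : ∀ v, 0 < R v)
    (hdis : ∀ u v, u ≠ v → Disjoint (Metric.ball (z u) (r u)) (Metric.ball (z v) (r v)))
    {w : ℂ} {M c C T η : ℝ} (hM : 1 ≤ M) (hc : 0 < c) (hC : C = 2 + 2 * M / c + 2 / c)
    (hT : 0 < T) (hη : 0 < η)
    (h : ∀ t ∈ Set.Icc T (2 * T), ENNReal.ofReal η ≤ ∑' v,
      {v | |dist (z v) w - t| ≤ M * r v ∧ c * r v ≤ t ∧ r v ≤ dist (z v) w}.indicator
        (fun v => ENNReal.ofReal (2 * R v)) v) :
    ENNReal.ofReal (η ^ 2 / (16 * M ^ 2 * C ^ 2)) ≤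
      ∑' v, (block z r w M C T).indicator (fun v => ENNReal.ofReal ((R v) ^ 2)) v := by
  have hM0 : 0 < M := by linarith
  have hC0 : 0 < C := by rw [hC]; positivity
  set B := block z r w M C T with hB
  set H : V → ℝ → ℝ≥0∞ := fun v t => B.indicator (fun v =>
    (Set.Icc (dist (z v) w - M * r v) (dist (z v) w + M * r v)).indicator
      (fun _ => ENNReal.ofReal (2 * R v)) t) v with hH
  have hint : ∀ v, ∫⁻ t, H v t = B.indicator (fun v => ENNReal.ofReal (4 * M * (R v * r v))) v := by
    intro v
    by_cases hv : v ∈ B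
    · simp only [hH, Set.indicator_of_mem hv]
      rw [lintegral_indicator measurableSet_Icc, setLIntegral_const, Real.volume_Icc,
        ← ENNReal.ofReal_mul (by have := hR v; positivity)]
      congr 1
      ring
    · simp only [hH, Set.indicator_of_notMem hv]
      simp
  have hstep1 : ENNReal.ofReal (η * T) ≤
      ∑' v, B.indicator (fun v => ENNReal.ofReal (4 * M * (R v * r v))) v := by
    calc ENNReal.ofReal (η * T) = ∫⁻ t in Set.Icc T (2 * T), ENNReal.ofReal η := by
          rw [setLIntegral_const, Real.volume_Icc, ← ENNReal.ofReal_mul hη.le]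
          congr 1; ring
      _ ≤ ∫⁻ t in Set.Icc T (2 * T), ∑' v, H v t := by
          apply setLIntegral_mono' measurableSet_Icc
          intro t ht
          refine (h t ht).trans ?_
          apply ENNReal.tsum_le_tsum
          intro v
          by_cases hv : |dist (z v) w - t| ≤ M * r v ∧ c * r v ≤ t ∧ r v ≤ dist (z v) w
          · rw [Set.indicator_of_mem (by exact hv)]
            obtain ⟨h1, h2, h3⟩ := hv
            rw [abs_le] at h1
            have hrv := hr v
            have hvB : v ∈ B := by
              rw [hB]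
              constructor
              · have : M * r v ≤ M * dist (z v) w := by gcongr
                linarith [ht.1]
              · have h4 : r v ≤ 2 * T / c := by
                  rw [le_div_iff₀ hc]; linarith [ht.2]
                have h5 : M * r v ≤ M * (2 * T / c) := by gcongr
                rw [hC]
                have h6 : (2 + 2 * M / c + 2 / c) * T = 2 * T + M * (2 * T / c) + 2 * T / c := by
                  ring
                linarith [ht.2]
            simp only [hH]
            rw [Set.indicator_of_mem hvB, Set.indicator_of_mem]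
            constructor <;> linarith
          · rw [Set.indicator_of_notMem (by exact hv)]
            exact zero_le
      _ ≤ ∫⁻ t, ∑' v, H v t := setLIntegral_le_lintegral _ _
      _ = ∑' v, ∫⁻ t, H v t := by
          apply lintegral_tsum
          intro v
          by_cases hv : v ∈ B
          · simp only [hH, Set.indicator_of_mem hv]
            exact (measurable_const.indicator measurableSet_Icc).aemeasurable
          · simp only [hH, Set.indicator_of_notMem hv]
            exact measurable_const.aemeasurable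
      _ = _ := by
          congr 1
          ext v
          exact hint v
  set lam : ℝ := 4 * M * C ^ 2 * T / η with hlam
  have hlam0 : 0 < lam := by positivity
  set S := ∑' v, B.indicator (fun v => ENNReal.ofReal ((R v) ^ 2)) v with hS
  have harea : ∑' v, B.indicator (fun v => ENNReal.ofReal ((r v) ^ 2)) v ≤
      ENNReal.ofReal ((C * T) ^ 2) := by
    apply area_le B z r hr hdis (c := w) (by positivity)
    intro v hv
    apply Metric.ball_subset_ball'
    have := hv.2
    linarith
  have hstep2 : ∑' v, B.indicator (fun v => ENNReal.ofReal (4 * M * (R v * r v))) v ≤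
      ENNReal.ofReal (2 * M * lam) * S + ENNReal.ofReal (2 * M / lam) *
        ∑' v, B.indicator (fun v => ENNReal.ofReal ((r v) ^ 2)) v := by
    rw [hS, ← ENNReal.tsum_mul_left, ← ENNReal.tsum_mul_left, ← ENNReal.tsum_add]
    apply ENNReal.tsum_le_tsum
    intro v
    by_cases hv : v ∈ B
    · simp only [Set.indicator_of_mem hv]
      rw [← ENNReal.ofReal_mul (by positivity), ← ENNReal.ofReal_mul (by positivity),
        ← ENNReal.ofReal_add (by positivity) (by positivity)]
      apply ENNReal.ofReal_le_ofReal
      have h1 : 0 ≤ (lam * R v - r v) ^ 2 / lam := by positivity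
      have h2 : (lam * R v - r v) ^ 2 / lam = lam * R v ^ 2 + r v ^ 2 / lam - 2 * (R v * r v) := by
        field_simp
        ring
      have h3 : 2 * M * lam * R v ^ 2 + 2 * M / lam * r v ^ 2 - 4 * M * (R v * r v)
          = 2 * M * (lam * R v ^ 2 + r v ^ 2 / lam - 2 * (R v * r v)) := by ring
      have h4 : 0 ≤ 2 * M * (lam * R v ^ 2 + r v ^ 2 / lam - 2 * (R v * r v)) := by
        rw [← h2]; positivity
      linarith
    · simp only [Set.indicator_of_notMem hv]
      exact zero_le
  have hstep3 : ENNReal.ofReal (2 * M / lam) *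
        ∑' v, B.indicator (fun v => ENNReal.ofReal ((r v) ^ 2)) v ≤ ENNReal.ofReal (η * T / 2) := by
    calc _ ≤ ENNReal.ofReal (2 * M / lam) * ENNReal.ofReal ((C * T) ^ 2) := by gcongr
      _ = ENNReal.ofReal (η * T / 2) := by
          rw [← ENNReal.ofReal_mul (by positivity)]
          congr 1
          rw [hlam]
          field_simp
          ring
  have hstep4 : ENNReal.ofReal (η * T / 2) ≤ ENNReal.ofReal (2 * M * lam) * S := by
    have h1 : ENNReal.ofReal (η * T / 2) + ENNReal.ofReal (η * T / 2) ≤
        ENNReal.ofReal (2 * M * lam) * S + ENNReal.ofReal (η * T / 2) := by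
      rw [← ENNReal.ofReal_add (by positivity) (by positivity), add_halves]
      exact (hstep1.trans hstep2).trans (add_le_add le_rfl hstep3)
    exact (ENNReal.add_le_add_iff_right ENNReal.ofReal_ne_top).1 h1
  have hfin : ENNReal.ofReal (η ^ 2 / (16 * M ^ 2 * C ^ 2)) =
      ENNReal.ofReal (η * T / 2) / ENNReal.ofReal (2 * M * lam) := by
    rw [← ENNReal.ofReal_div_of_pos (by positivity)]
    congr 1
    rw [hlam]
    field_simp
    ring
  rw [hfin]
  apply ENNReal.div_le_of_le_mul
  rw [mul_comm S]
  exact hstep4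

/-- The number of blocks is bounded. -/
theorem block_count {V : Type*} [Countable V] {z Z : V → ℂ} {r R : V → ℝ}
    (hr : ∀ v, 0 < r v) (hR : ∀ v, 0 < R v)
    (hdis : ∀ u v, u ≠ v → Disjoint (Metric.ball (z u) (r u)) (Metric.ball (z v) (r v)))
    (hDis : ∀ u v, u ≠ v → Disjoint (Metric.ball (Z u) (R u)) (Metric.ball (Z v) (R v)))
    (hsub : ∀ v, Metric.ball (Z v) (R v) ⊆ Metric.ball 0 1)
    {w : ℂ} {M c C T0 A η : ℝ} (hM : 1 ≤ M) (hc : 0 < c) (hC : C = 2 + 2 * M / c + 2 / c)
    (hT0 : 0 < T0) (hη : 0 < η) (hA1 : 1 ≤ A) (hA : (1 + M) * C < A) {N : ℕ}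
    (h : ∀ t, T0 ≤ t → t ≤ 2 * (A ^ N * T0) → ENNReal.ofReal η ≤ ∑' v,
      {v | |dist (z v) w - t| ≤ M * r v ∧ c * r v ≤ t ∧ r v ≤ dist (z v) w}.indicator
        (fun v => ENNReal.ofReal (2 * R v)) v) :
    N * (η ^ 2 / (16 * M ^ 2 * C ^ 2)) ≤ 1 := by
  have hM0 : 0 < M := by linarith
  have hC0 : 0 < C := by rw [hC]; positivity
  have hA0 : 0 < A := by linarith
  set ε := η ^ 2 / (16 * M ^ 2 * C ^ 2) with hε
  have hε0 : 0 ≤ ε := by positivity
  have hblock : ∀ k < N, ENNReal.ofReal ε ≤
      ∑' v, (block z r w M C (A ^ k * T0)).indicator (fun v => ENNReal.ofReal ((R v) ^ 2)) v := by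
    intro k hk
    apply block_bound hr hR hdis hM hc hC (by positivity) hη
    intro t ht
    apply h t
    · calc T0 = 1 * T0 := (one_mul _).symm
        _ ≤ A ^ k * T0 := by gcongr; exact one_le_pow₀ hA1
        _ ≤ t := ht.1
    · calc t ≤ 2 * (A ^ k * T0) := ht.2
        _ ≤ 2 * (A ^ N * T0) := by gcongr
  have hdisj : ∀ v, ∀ k < N, ∀ l < N, k < l → v ∈ block z r w M C (A ^ k * T0) →
      v ∉ block z r w M C (A ^ l * T0) := by
    intro v k hk l hl hkl h1 h2
    have h3 : A ^ (k + 1) * T0 ≤ A ^ l * T0 := by gcongr; exact hkl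
    have h4 := h2.1
    have h5 := h1.2
    have h6 : dist (z v) w ≤ C * (A ^ k * T0) := by linarith [hr v]
    have h7 : (1 + M) * dist (z v) w ≤ (1 + M) * (C * (A ^ k * T0)) := by gcongr
    have h8 : 0 < A ^ k * T0 := by positivity
    have h9 : A ^ (k + 1) * T0 = A * (A ^ k * T0) := by ring
    have h10 : (1 + M) * C * (A ^ k * T0) < A * (A ^ k * T0) := by gcongr
    linarith
  have hsum : ∑ k ∈ Finset.range N, ENNReal.ofReal ε ≤ ENNReal.ofReal ((1 : ℝ) ^ 2) := by
    calc ∑ k ∈ Finset.range N, ENNReal.ofReal ε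
        ≤ ∑ k ∈ Finset.range N, ∑' v, (block z r w M C (A ^ k * T0)).indicator
            (fun v => ENNReal.ofReal ((R v) ^ 2)) v := by
          apply Finset.sum_le_sum
          intro k hk
          exact hblock k (Finset.mem_range.1 hk)
      _ = ∑' v, ∑ k ∈ Finset.range N, (block z r w M C (A ^ k * T0)).indicator
            (fun v => ENNReal.ofReal ((R v) ^ 2)) v := by
          rw [Summable.tsum_finsetSum]
          intro i _
          exact ENNReal.summable
      _ ≤ ∑' v, (Set.univ : Set V).indicator (fun v => ENNReal.ofReal ((R v) ^ 2)) v := by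
          apply ENNReal.tsum_le_tsum
          intro v
          simp only [Set.indicator_univ]
          by_cases hex : ∃ k < N, v ∈ block z r w M C (A ^ k * T0)
          · obtain ⟨k, hk, hkv⟩ := hex
            rw [Finset.sum_eq_single_of_mem k (Finset.mem_range.2 hk)]
            · rw [Set.indicator_of_mem hkv]
            · intro l hl hlk
              apply Set.indicator_of_notMem
              intro hlv
              rcases lt_or_gt_of_ne hlk with h1 | h1
              · exact hdisj v l (Finset.mem_range.1 hl) k hk h1 hlv hkv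
              · exact hdisj v k hk l (Finset.mem_range.1 hl) h1 hkv hlv
          · push Not at hex
            rw [Finset.sum_eq_zero]
            · exact zero_le
            · intro k hk
              exact Set.indicator_of_notMem (hex k (Finset.mem_range.1 hk)) _
      _ ≤ ENNReal.ofReal ((1 : ℝ) ^ 2) := by
          apply area_le Set.univ Z R hR hDis (c := 0) zero_le_one
          intro v _
          exact hsub v
  rw [Finset.sum_const, Finset.card_range, nsmul_eq_mul, one_pow, ENNReal.ofReal_one] at hsum
  rw [← ENNReal.ofReal_natCast, ← ENNReal.ofReal_mul (by positivity)] at hsum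
  exact (ENNReal.ofReal_le_one).1 hsum

end Pool.Agent.H74.Koebe
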