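import Pool.Agent.H74.Koebe.Star

/-! A circle around a point outside the carrier cannot be covered by interior faces. -/

namespace Pool.Agent.H74.Koebe

universe u

variable {V : Type u} {K : OComplex V} {P : Circles V} {κ : ℝ}

open OComplex

lemma arg_div_of_re_pos {A B : ℂ} (hA : 0 < A.re) (hB : 0 < B.re) :
    Complex.arg (A / B) = Complex.arg A - Complex.arg B ∧
      |Complex.arg A - Complex.arg B| < Real.pi := by
  have hA0 : A ≠ 0 := fun h => by rw [h] at hA; simp at hA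
  have hB0 : B ≠ 0 := fun h => by rw [h] at hB; simp at hB
  have h1 : |Complex.arg A| < Real.pi / 2 := Complex.abs_arg_lt_pi_div_two_iff.2 (Or.inl hA)
  have h2 : |Complex.arg B| < Real.pi / 2 := Complex.abs_arg_lt_pi_div_two_iff.2 (Or.inl hB)
  rw [abs_lt] at h1 h2
  have h3 : Complex.arg B⁻¹ = - Complex.arg B := by
    rw [Complex.arg_inv, if_neg]
    intro h
    have := Real.pi_pos
    linarith [h2.2]
  constructor
  · rw [div_eq_mul_inv, (Complex.arg_mul_eq_add_arg_iff hA0 (inv_ne_zero hB0)).2, h3]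
    · ring
    · rw [h3]
      constructor <;> linarith [h1.1, h1.2, h2.1, h2.2]
  · rw [abs_lt]
    constructor <;> linarith [h1.1, h1.2, h2.1, h2.2]

/-- Arguments as seen from a point outside a closed convex set. -/
lemma arg_pot {C : Set ℂ} (hC : Convex ℝ C) (hcl : IsClosed C) {w : ℂ} (hw : w ∉ C) :
    ∃ φ : ℂ → ℝ, ∀ x ∈ C, ∀ y ∈ C, Complex.arg ((y - w) / (x - w)) = φ y - φ x ∧
      |φ y - φ x| < Real.pi := by
  obtain ⟨f, u, hfu, hf⟩ := geometric_hahn_banach_point_closed hC hcl hw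
  set m : ℂ := ⟨f 1, - f Complex.I⟩ with hm
  have hre : ∀ x : ℂ, (m * x).re = f x := by
    intro x
    have h1 : x = (x.re : ℝ) • (1 : ℂ) + (x.im : ℝ) • Complex.I := by
      simp [Complex.re_add_im]
    conv_rhs => rw [h1, map_add, map_smul, map_smul]
    simp only [Complex.mul_re, hm, smul_eq_mul]
    ring
  have hpos : ∀ x ∈ C, 0 < (m * (x - w)).re := by
    intro x hx
    rw [hre, map_sub]
    have := hf x hx
    linarith
  refine ⟨fun x => Complex.arg (m * (x - w)), fun x hx y hy => ?_⟩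
  have h := arg_div_of_re_pos (hpos y hy) (hpos x hx)
  refine ⟨?_, h.2⟩
  rw [← h.1]
  congr 1
  have hm0 : m ≠ 0 := by
    intro h0
    have := hpos x hx
    rw [h0] at this
    simp at this
  rw [mul_div_mul_left _ _ hm0]

lemma tri_closed (a b c : V) : IsClosed (tri P a b c) :=
  (Set.Finite.isCompact_convexHull ℝ (Set.toFinite _)).isClosed

lemma tri_not_mem {w : ℂ} (hw : w ∉ carr K P) {a b c : V} (hf : K.face a b c) :
    w ∉ tri P a b c := fun h => hw (mem_carr hf h)

/-- The angle of an edge as seen from `w`. -/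
noncomputable def om (P : Circles V) (w : ℂ) (x y : V) : ℝ :=
  Complex.arg ((P.z y - w) / (P.z x - w))

lemma corner_mem {a b c x : V} (hx : isCorner a b c x) : P.z x ∈ tri P a b c := by
  rcases hx with rfl | rfl | rfl
  · exact mem_tri_a _ _ _
  · exact mem_tri_b _ _ _
  · exact mem_tri_c _ _ _

lemma om_symm {w : ℂ} (hw : w ∉ carr K P) {x y : V} (h : K.adj x y) :
    om P w x y + om P w y x = 0 := by
  obtain ⟨u, hu | hu⟩ := h
  · obtain ⟨φ, hφ⟩ := arg_pot (tri_convex x y u) (tri_closed x y u) (tri_not_mem hw hu)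
    have h1 := (hφ _ (mem_tri_a x y u) _ (mem_tri_b x y u)).1
    have h2 := (hφ _ (mem_tri_b x y u) _ (mem_tri_a x y u)).1
    unfold om
    rw [h1, h2]; ring
  · obtain ⟨φ, hφ⟩ := arg_pot (tri_convex y x u) (tri_closed y x u) (tri_not_mem hw hu)
    have h1 := (hφ _ (mem_tri_a y x u) _ (mem_tri_b y x u)).1
    have h2 := (hφ _ (mem_tri_b y x u) _ (mem_tri_a y x u)).1
    unfold om
    rw [h1, h2]; ring

lemma om_face {w : ℂ} (hw : w ∉ carr K P) {x y z : V} (h : K.face x y z ∨ K.face z y x) :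
    om P w x y + om P w y z = om P w x z := by
  rcases h with hu | hu
  · obtain ⟨φ, hφ⟩ := arg_pot (tri_convex x y z) (tri_closed x y z) (tri_not_mem hw hu)
    have h1 := (hφ _ (mem_tri_a x y z) _ (mem_tri_b x y z)).1
    have h2 := (hφ _ (mem_tri_b x y z) _ (mem_tri_c x y z)).1
    have h3 := (hφ _ (mem_tri_a x y z) _ (mem_tri_c x y z)).1
    unfold om
    rw [h1, h2, h3]; ring
  · obtain ⟨φ, hφ⟩ := arg_pot (tri_convex z y x) (tri_closed z y x) (tri_not_mem hw hu)
    have h1 := (hφ _ (mem_tri_c z y x) _ (mem_tri_b z y x)).1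
    have h2 := (hφ _ (mem_tri_b z y x) _ (mem_tri_a z y x)).1
    have h3 := (hφ _ (mem_tri_c z y x) _ (mem_tri_a z y x)).1
    unfold om
    rw [h1, h2, h3]; ring

/-- The point of the circle of radius `t` about `w` at angle `φ`. -/
noncomputable def cpt (w : ℂ) (t φ : ℝ) : ℂ := w + t * Complex.exp (φ * Complex.I)

lemma cpt_sub (w : ℂ) (t φ : ℝ) : cpt w t φ - w = t * Complex.exp (φ * Complex.I) := by
  unfold cpt; ring

lemma cpt_continuous (w : ℂ) (t : ℝ) : Continuous (cpt w t) := by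
  unfold cpt
  fun_prop

lemma cpt_two_pi (w : ℂ) (t : ℝ) : cpt w t (2 * Real.pi) = cpt w t 0 := by
  unfold cpt
  push_cast
  rw [Complex.exp_two_pi_mul_I]
  simp

lemma arg_mul_exp {A : ℂ} (hA : A ≠ 0) {ε : ℝ} (h : |Complex.arg A| + |ε| < Real.pi) :
    Complex.arg (A * Complex.exp (ε * Complex.I)) = Complex.arg A + ε := by
  have h1 := abs_le.1 (le_refl |Complex.arg A|)
  have h2 := abs_le.1 (le_refl |ε|)
  have h3 := abs_nonneg (Complex.arg A)
  have he : Complex.arg (Complex.exp (ε * Complex.I)) = ε := by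
    rw [Complex.exp_mul_I]
    apply Complex.arg_cos_add_sin_mul_I
    constructor <;> linarith [h2.1, h2.2]
  rw [(Complex.arg_mul_eq_add_arg_iff hA (Complex.exp_ne_zero _)).2, he]
  rw [he]
  constructor <;> linarith [h1.1, h1.2, h2.1, h2.2]

/-- A circle around a point outside the carrier is not covered by faces with interior corners. -/
theorem no_circle (hG : Good K P) (hS : Star κ K P) (hsc : K.SimplyConnected) {w : ℂ}
    (hw : w ∉ carr K P) {t : ℝ} (ht : 0 < t)
    (h : ∀ φ : ℝ, ∃ a b c, K.face a b c ∧ K.Interior a ∧ K.Interior b ∧ K.Interior c ∧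
      cpt w t φ ∈ tri P a b c) : False := by
  classical
  obtain ⟨v0, -, -, -, -⟩ := h 0
  obtain ⟨θ, hθ⟩ := exists_potential hG.conn hsc v0 (om P w) (fun x y => om_symm hw)
    (fun x y z => om_face hw)
  -- independence of the corner within a face
  have hcorner : ∀ {a b c : V}, K.face a b c → ∀ {q : ℂ}, q ∈ tri P a b c → ∀ {x y : V},
      isCorner a b c x → isCorner a b c y →
      θ x + Complex.arg ((q - w) / (P.z x - w)) = θ y + Complex.arg ((q - w) / (P.z y - w)) := by
    intro a b c hf q hq x y hx hy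
    rcases isCorner_adj hf hx hy with rfl | hadj
    · rfl
    · obtain ⟨φ, hφ⟩ := arg_pot (tri_convex a b c) (tri_closed a b c) (tri_not_mem hw hf)
      have h1 := hθ x y hadj
      unfold om at h1
      rw [(hφ _ (corner_mem hx) _ (corner_mem hy)).1] at h1
      rw [(hφ _ (corner_mem hx) _ hq).1, (hφ _ (corner_mem hy) _ hq).1]
      linarith
  -- independence of the face
  have hface : ∀ {a b c a' b' c' : V}, K.face a b c → K.face a' b' c' → ∀ {q : ℂ},
      q ∈ tri P a b c → q ∈ tri P a' b' c' → ∀ {x y : V},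
      isCorner a b c x → isCorner a' b' c' y →
      θ x + Complex.arg ((q - w) / (P.z x - w)) = θ y + Complex.arg ((q - w) / (P.z y - w)) := by
    intro a b c a' b' c' hf hf' q hq hq' x y hx hy
    obtain ⟨u, hu, hu'⟩ := hG.share hf hf' hq hq'
    exact (hcorner hf hq hx hu).trans (hcorner hf' hq' hu' hy)
  choose a b c hf ha hb hc hm using h
  set F : ℝ → ℝ := fun φ => θ (a φ) + Complex.arg ((cpt w t φ - w) / (P.z (a φ) - w)) - φ with hF
  have hloc : IsLocallyConstant F := by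
    rw [IsLocallyConstant.iff_eventually_eq]
    intro φ
    have hne : ∀ x, isCorner (a φ) (b φ) (c φ) x →
        (cpt w t φ - w) / (P.z x - w) ≠ 0 ∧
        |Complex.arg ((cpt w t φ - w) / (P.z x - w))| < Real.pi := by
      intro x hx
      obtain ⟨ψ, hψ⟩ := arg_pot (tri_convex (a φ) (b φ) (c φ)) (tri_closed _ _ _)
        (tri_not_mem hw (hf φ))
      have h1 := hψ _ (corner_mem hx) _ (hm φ)
      rw [h1.1]
      refine ⟨?_, h1.2⟩
      apply div_ne_zero
      · rw [sub_ne_zero]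
        intro h0
        exact tri_not_mem hw (hf φ) (h0 ▸ hm φ)
      · rw [sub_ne_zero]
        intro h0
        exact tri_not_mem hw (hf φ) (h0 ▸ corner_mem hx)
    set g : V → ℝ := fun x => Real.pi - |Complex.arg ((cpt w t φ - w) / (P.z x - w))| with hg
    have e1 : ∀ᶠ φ' in nhds φ, |φ' - φ| < g (a φ) := by
      have h0 : 0 < g (a φ) := sub_pos.2 (hne _ (Or.inl rfl)).2
      exact (Metric.eventually_nhds_iff.2 ⟨_, h0, fun y hy => by rwa [Real.dist_eq] at hy⟩)
    have e2 : ∀ᶠ φ' in nhds φ, |φ' - φ| < g (b φ) := by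
      have h0 : 0 < g (b φ) := sub_pos.2 (hne _ (Or.inr (Or.inl rfl))).2
      exact (Metric.eventually_nhds_iff.2 ⟨_, h0, fun y hy => by rwa [Real.dist_eq] at hy⟩)
    have e3 : ∀ᶠ φ' in nhds φ, |φ' - φ| < g (c φ) := by
      have h0 : 0 < g (c φ) := sub_pos.2 (hne _ (Or.inr (Or.inr rfl))).2
      exact (Metric.eventually_nhds_iff.2 ⟨_, h0, fun y hy => by rwa [Real.dist_eq] at hy⟩)
    have e4 : ∀ᶠ φ' in nhds φ, dist (cpt w t φ') (cpt w t φ) < eta κ * κ ^ 2 * P.r (a φ) := by
      have h0 : 0 < eta κ * κ ^ 2 * P.r (a φ) := by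
        have := eta_pos hS.pos
        have := hS.pos
        have := hG.pos (a φ)
        positivity
      exact (cpt_continuous w t).continuousAt.eventually (Metric.ball_mem_nhds _ h0)
    filter_upwards [e1, e2, e3, e4] with φ' h1 h2 h3 h4
    obtain ⟨x, y, z, hx, hfx, hq'⟩ := hS.near_face hG (hf φ) (ha φ) (hb φ) (hc φ) (Or.inl rfl)
      (hm φ) h4.le
    have hgx : |φ' - φ| < g x := by
      rcases hx with rfl | rfl | rfl <;> assumption
    have k1 := hface (hf φ') hfx (hm φ') hq' (x := a φ') (y := x) (Or.inl rfl) (Or.inl rfl)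
    have k2 := hcorner (hf φ) (hm φ) (x := a φ) (y := x) (Or.inl rfl) hx
    have k3 : (cpt w t φ' - w) / (P.z x - w) =
        (cpt w t φ - w) / (P.z x - w) * Complex.exp (((φ' - φ : ℝ) : ℂ) * Complex.I) := by
      rw [cpt_sub, cpt_sub]
      have : Complex.exp ((φ' : ℂ) * Complex.I) = Complex.exp ((φ : ℂ) * Complex.I) *
          Complex.exp (((φ' - φ : ℝ) : ℂ) * Complex.I) := by
        rw [← Complex.exp_add]
        congr 1
        push_cast
        ring
      rw [this]
      ring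
    have k4 : Complex.arg ((cpt w t φ' - w) / (P.z x - w)) =
        Complex.arg ((cpt w t φ - w) / (P.z x - w)) + (φ' - φ) := by
      rw [k3]
      apply arg_mul_exp (hne x hx).1
      simp only [hg] at hgx
      linarith
    simp only [hF]
    rw [k1, k2, k4]
    ring
  have hconst := hloc.apply_eq_of_preconnectedSpace (2 * Real.pi) 0
  have hk := hface (hf (2 * Real.pi)) (hf 0) (hm (2 * Real.pi))
    (by rw [cpt_two_pi]; exact hm 0) (x := a (2 * Real.pi)) (y := a 0) (Or.inl rfl) (Or.inl rfl)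
  simp only [hF] at hconst
  rw [hk, cpt_two_pi] at hconst
  have := Real.pi_pos
  linarith

/-- One step of the crossing: two corners of a face with interior corners meeting the circle. -/
def cstep (K : OComplex V) (P : Circles V) (w : ℂ) (t : ℝ) (x y : V) : Prop :=
  ∃ a b c, K.face a b c ∧ K.Interior a ∧ K.Interior b ∧ K.Interior c ∧
    isCorner a b c x ∧ isCorner a b c y ∧ ∃ q ∈ tri P a b c, dist q w = t

lemma exists_cpt {w q : ℂ} {t : ℝ} (h : dist q w = t) : ∃ φ : ℝ, cpt w t φ = q := by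
  refine ⟨Complex.arg (q - w), ?_⟩
  unfold cpt
  rw [← h, dist_eq_norm, Complex.norm_mul_exp_arg_mul_I]
  ring

lemma dist_cpt {w : ℂ} {t : ℝ} (ht : 0 ≤ t) (φ : ℝ) : dist (cpt w t φ) w = t := by
  rw [dist_eq_norm, cpt_sub, norm_mul, Complex.norm_exp_ofReal_mul_I, mul_one]
  simp [abs_of_nonneg ht]

/-- The crossing lemma: starting at an edge meeting the circle, one reaches a terminal vertex. -/
theorem crossing (hG : Good K P) (hS : Star κ K P) (hsc : K.SimplyConnected) {w : ℂ}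
    (hw : w ∉ carr K P) {t : ℝ} (ht : 0 < t) {T : V → Prop} (hfin : {v | ¬ T v}.Finite)
    (hT : ∀ v, ¬ T v → K.Interior v ∧ ∀ x, K.adj v x → K.Interior x) {x0 y0 : V}
    (hxy : K.adj x0 y0) {q0 : ℂ} (hq0 : q0 ∈ segment ℝ (P.z x0) (P.z y0)) (hq0t : dist q0 w = t) :
    ∃ x, Relation.ReflTransGen (cstep K P w t) x0 x ∧ T x := by
  by_contra hcon
  push Not at hcon
  set C : Set V := {x | Relation.ReflTransGen (cstep K P w t) x0 x} with hC
  have hCT : ∀ x ∈ C, ¬ T x := fun x hx => hcon x hx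
  have hCfin : C.Finite := hfin.subset hCT
  set A : Set ℝ := {φ | ∃ a b c, K.face a b c ∧ a ∈ C ∧ b ∈ C ∧ c ∈ C ∧ cpt w t φ ∈ tri P a b c}
    with hA
  have hall : ∀ {x y z : V}, K.face x y z → ∀ {v : V}, isCorner x y z v → v ∈ C → ∀ {q : ℂ},
      q ∈ tri P x y z → dist q w = t → x ∈ C ∧ y ∈ C ∧ z ∈ C := by
    intro x y z hf v hv hvC q hq hqt
    have hI : ∀ u, isCorner x y z u → K.Interior u := by
      intro u hu
      rcases isCorner_adj hf hv hu with rfl | h
      · exact (hT _ (hCT _ hvC)).1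
      · exact (hT _ (hCT _ hvC)).2 _ h
    have key : ∀ u, isCorner x y z u → u ∈ C := fun u hu =>
      Relation.ReflTransGen.tail hvC ⟨x, y, z, hf, hI x (Or.inl rfl), hI y (Or.inr (Or.inl rfl)),
        hI z (Or.inr (Or.inr rfl)), hv, hu, q, hq, hqt⟩
    exact ⟨key x (Or.inl rfl), key y (Or.inr (Or.inl rfl)), key z (Or.inr (Or.inr rfl))⟩
  have hne : A.Nonempty := by
    obtain ⟨φ, hφ⟩ := exists_cpt hq0t
    have hx0 : x0 ∈ C := Relation.ReflTransGen.refl
    obtain ⟨u, hu | hu⟩ := hxy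
    · have hq : q0 ∈ tri P x0 y0 u :=
        (tri_convex x0 y0 u).segment_subset (mem_tri_a _ _ _) (mem_tri_b _ _ _) hq0
      obtain ⟨h1, h2, h3⟩ := hall hu (Or.inl rfl) hx0 hq hq0t
      exact ⟨φ, x0, y0, u, hu, h1, h2, h3, by rw [hφ]; exact hq⟩
    · have hq : q0 ∈ tri P y0 x0 u :=
        (tri_convex y0 x0 u).segment_subset (mem_tri_b _ _ _) (mem_tri_a _ _ _) hq0
      obtain ⟨h1, h2, h3⟩ := hall hu (Or.inr (Or.inl rfl)) hx0 hq hq0t
      exact ⟨φ, y0, x0, u, hu, h1, h2, h3, by rw [hφ]; exact hq⟩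
  have hclosed : IsClosed A := by
    have hAeq : A = cpt w t ⁻¹' (⋃ s ∈ {s : V × V × V | K.face s.1 s.2.1 s.2.2 ∧ s.1 ∈ C ∧
        s.2.1 ∈ C ∧ s.2.2 ∈ C}, tri P s.1 s.2.1 s.2.2) := by
      ext φ
      simp only [hA, Set.mem_ofPred_eq, Set.mem_preimage, Set.mem_iUnion, exists_prop, Prod.exists]
      constructor
      · rintro ⟨a, b, c, h1, h2, h3, h4, h5⟩
        exact ⟨a, b, c, ⟨h1, h2, h3, h4⟩, h5⟩
      · rintro ⟨a, b, c, ⟨h1, h2, h3, h4⟩, h5⟩
        exact ⟨a, b, c, h1, h2, h3, h4, h5⟩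
    rw [hAeq]
    apply IsClosed.preimage (cpt_continuous w t)
    apply Set.Finite.isClosed_biUnion
    · apply (hCfin.prod (hCfin.prod hCfin)).subset
      rintro ⟨a, b, c⟩ ⟨-, h1, h2, h3⟩
      exact ⟨h1, h2, h3⟩
    · intro s _
      exact tri_closed _ _ _
  have hopen : IsOpen A := by
    rw [isOpen_iff_eventually]
    rintro φ ⟨a, b, c, hf, ha, hb, hc, hm⟩
    have h0 : 0 < eta κ * κ ^ 2 * P.r a := by
      have := eta_pos hS.pos
      have := hS.pos
      have := hG.pos a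
      positivity
    have e4 : ∀ᶠ φ' in nhds φ, dist (cpt w t φ') (cpt w t φ) < eta κ * κ ^ 2 * P.r a :=
      (cpt_continuous w t).continuousAt.eventually (Metric.ball_mem_nhds _ h0)
    filter_upwards [e4] with φ' h4
    obtain ⟨x, y, z, hx, hfx, hq'⟩ := hS.near_face hG hf (hT _ (hCT _ ha)).1
      (hT _ (hCT _ hb)).1 (hT _ (hCT _ hc)).1 (Or.inl rfl) hm h4.le
    have hxC : x ∈ C := by rcases hx with rfl | rfl | rfl <;> assumption
    obtain ⟨h1, h2, h3⟩ := hall hfx (Or.inl rfl) hxC hq' (dist_cpt ht.le φ')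
    exact ⟨x, y, z, hfx, h1, h2, h3, hq'⟩
  have huniv : A = Set.univ := IsClopen.eq_univ ⟨hclosed, hopen⟩ hne
  apply no_circle hG hS hsc hw ht
  intro φ
  have : φ ∈ A := by rw [huniv]; trivial
  obtain ⟨a, b, c, hf, ha, hb, hc, hm⟩ := this
  exact ⟨a, b, c, hf, (hT _ (hCT _ ha)).1, (hT _ (hCT _ hb)).1, (hT _ (hCT _ hc)).1, hm⟩

end Pool.Agent.H74.Koebe
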