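import Pool.Agent.H74.Koebe.Geo

/-! Definitions: combinatorial discs, circle packings, maximal packings. -/

namespace Pool.Agent.H74.Koebe

universe u

/-- An oriented two-dimensional simplicial complex on the vertex set `V`, given by its positively
oriented faces: `face u v w` means that `u, v, w` are, in this cyclic order, the three corners of a
face. Every oriented edge lies on at most one face. -/
structure OComplex (V : Type u) where
  face : V → V → V → Prop
  rot : ∀ {u v w}, face u v w → face v w u
  ne : ∀ {u v w}, face u v w → u ≠ v
  uniq : ∀ {u v w w'}, face u v w → face u v w' → w = w'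

namespace OComplex

variable {V : Type u} (K : OComplex V)

/-- Two vertices are adjacent when they are two corners of a common face. -/
def adj (u v : V) : Prop := ∃ w, K.face u v w ∨ K.face v u w

/-- `v` is an interior vertex: the faces at `v` form a closed cycle of `n ≥ 3` faces
`v, w i, w (i + 1)` through all the neighbours `w 0, …, w (n - 1)` of `v`. -/
def Interior (v : V) : Prop :=
  ∃ (n : ℕ) (w : ℕ → V), 3 ≤ n ∧ (∀ i, w (i + n) = w i) ∧
    (∀ i < n, ∀ j < n, w i = w j → i = j) ∧ (∀ i, K.face v (w i) (w (i + 1))) ∧
    (∀ x, K.adj v x → ∃ i < n, w i = x)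

/-- `v` is a boundary vertex: the faces at `v` form a chain of `m ≥ 1` faces `v, w i, w (i + 1)`,
`i < m`, through all the neighbours `w 0, …, w m` of `v`, which does not close up. -/
def Boundary (v : V) : Prop :=
  ∃ (m : ℕ) (w : ℕ → V), 1 ≤ m ∧ (∀ i ≤ m, ∀ j ≤ m, w i = w j → i = j) ∧
    (∀ i < m, K.face v (w i) (w (i + 1))) ∧ (∀ x, K.adj v x → ∃ i ≤ m, w i = x) ∧
    (∀ x, ¬ K.face v (w m) x) ∧ (∀ x, ¬ K.face v x (w 0))

/-- Homotopy of edge paths (lists of vertices) in the complex: generated by removing a
backtracking `x, y, x` along an edge, and by replacing two sides `x, y, z` of a face by the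
third side `x, z`. -/
inductive Homotopic : List V → List V → Prop
  | refl (l : List V) : Homotopic l l
  | symm {l l' : List V} : Homotopic l l' → Homotopic l' l
  | trans {l l' l'' : List V} : Homotopic l l' → Homotopic l' l'' → Homotopic l l''
  | back (l l' : List V) {x y : V} : K.adj x y → Homotopic (l ++ x :: y :: x :: l') (l ++ x :: l')
  | tri (l l' : List V) {x y z : V} : K.face x y z ∨ K.face z y x →
      Homotopic (l ++ x :: y :: z :: l') (l ++ x :: z :: l')

/-- Every two vertices are joined by an edge path. -/
def Connected : Prop := ∀ x y : V, Relation.ReflTransGen K.adj x y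

/-- Every closed edge path is homotopic to the constant path. -/
def SimplyConnected : Prop :=
  ∀ (v : V) (l : List V), List.IsChain K.adj (v :: (l ++ [v])) → K.Homotopic (v :: (l ++ [v])) [v]

/-- A combinatorial disc: a connected and simply connected complex all of whose vertices are
interior or boundary vertices (so it triangulates a surface), which either is finite and has a
boundary vertex (a closed disc), or is infinite without boundary vertices (an open disc). -/
def IsDisc : Prop :=
  (∀ v, K.Interior v ∨ K.Boundary v) ∧ K.Connected ∧ K.SimplyConnected ∧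
    ((Finite V ∧ ∃ v, K.Boundary v) ∨ (Infinite V ∧ ∀ v, K.Interior v))

/-- Every vertex has at most `d` neighbours. -/
def DegLE (d : ℕ) : Prop := ∀ v, {w | K.adj v w}.encard ≤ d

end OComplex

/-- A family of circles indexed by `V`, given by centres and radii. -/
structure Circles (V : Type u) where
  z : V → ℂ
  r : V → ℝ

variable {V : Type u}

/-- `P` is a circle packing for `K`: the radii are positive, circles of adjacent vertices are
externally tangent, and the centres of each face are positively oriented. -/
def IsPacking (K : OComplex V) (P : Circles V) : Prop :=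
  (∀ v, 0 < P.r v) ∧ (∀ u v, K.adj u v → dist (P.z u) (P.z v) = P.r u + P.r v) ∧
    (∀ u v w, K.face u v w → 0 < cr (P.z v - P.z u) (P.z w - P.z u))

/-- The circles of `P` have pairwise disjoint interiors. -/
def Univalent (P : Circles V) : Prop :=
  ∀ u v, u ≠ v → Disjoint (Metric.ball (P.z u) (P.r u)) (Metric.ball (P.z v) (P.r v))

/-- The carrier: the union of the closed triangles of centres of the faces. -/
def carr (K : OComplex V) (P : Circles V) : Set ℂ :=
  {q | ∃ u v w, K.face u v w ∧ q ∈ convexHull ℝ ({P.z u, P.z v, P.z w} : Set ℂ)}

/-- `Q` is a maximal packing for `K` in the unit disc: a univalent packing by circles in the unit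
disc whose boundary circles are internally tangent to the unit circle when `K` is finite, and
whose carrier is the open unit disc when `K` is infinite. -/
def IsMaximal (K : OComplex V) (Q : Circles V) : Prop :=
  IsPacking K Q ∧ Univalent Q ∧ (∀ v, Metric.ball (Q.z v) (Q.r v) ⊆ Metric.ball 0 1) ∧
    ((Finite V ∧ ∀ v, K.Boundary v → ‖Q.z v‖ + Q.r v = 1) ∨
      (Infinite V ∧ carr K Q = Metric.ball 0 1))

end Pool.Agent.H74.Koebe
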