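import Pool.Agent.H74.Koebe.Ring

/-! The ring lemma at a horocycle. -/

namespace Pool.Agent.H74.Koebe

variable {m : ℕ} {z : ℂ} {r : ℝ} {p : ℕ → ℂ} {ρ : ℕ → ℝ}

/-- Angles of a fan measured from the point of tangency of its centre with the unit circle. -/
theorem Fan.exists_angles (h : Fan m z r p ρ) (hr1 : r < 1) : ∃ φ : ℕ → ℝ,
    (∀ i ≤ m, 0 ≤ φ i ∧ φ i < 2 * Real.pi) ∧ (∀ i, φ i = φ 0 + th z p i) ∧
    (∀ i ≤ m, ‖p i‖ ^ 2 = (1 - r) ^ 2 + (r + ρ i) ^ 2 +
      2 * ((1 - r) * (r + ρ i)) * Real.cos (φ i)) := by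
  have hA := h.arc
  have hr0 := h.rpos
  have hpi := Real.pi_pos
  have hz : ‖z‖ = 1 - r := by have := h.horo; linarith
  have hz0 : 0 < ‖z‖ := by rw [hz]; linarith
  have hzne : z ≠ 0 := norm_pos_iff.1 hz0
  obtain ⟨E, hE1, hpol⟩ := hA.exists_polar
  have hE0 : E ≠ 0 := by
    intro h0; rw [h0, norm_zero] at hE1; norm_num at hE1
  -- the unit vector `ζ`
  obtain ⟨ζ, hζ⟩ : ∃ ζ : ℂ, ζ = z / ((‖z‖ : ℝ) : ℂ) := ⟨_, rfl⟩
  have hz' : ((‖z‖ : ℝ) : ℂ) ≠ 0 := by exact_mod_cast hz0.ne'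
  have hζz : z = ((‖z‖ : ℝ) : ℂ) * ζ := by rw [hζ, mul_div_cancel₀ _ hz']
  have hζ1 : ‖ζ‖ = 1 := by
    rw [hζ, norm_div, Complex.norm_real, Real.norm_eq_abs, abs_of_pos hz0, div_self hz0.ne']
  have hζ0 : ζ ≠ 0 := by
    intro h0; rw [h0, norm_zero] at hζ1; norm_num at hζ1
  -- the angle of `E` from `ζ`, in `[0, 2π)`
  obtain ⟨γ, hγ0, hγ1, hγ⟩ : ∃ γ : ℝ, 0 ≤ γ ∧ γ < 2 * Real.pi ∧
      E = ζ * Complex.exp (γ * Complex.I) := by
    have h1 := Complex.norm_mul_exp_arg_mul_I (E / ζ)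
    rw [norm_div, hE1, hζ1, div_one, Complex.ofReal_one, one_mul] at h1
    have h2 : E = ζ * Complex.exp ((Complex.arg (E / ζ) : ℝ) * Complex.I) := by
      rw [h1, mul_div_cancel₀ _ hζ0]
    rcases le_or_gt 0 (Complex.arg (E / ζ)) with h3 | h3
    · exact ⟨_, h3, by linarith [Complex.arg_le_pi (E / ζ)], h2⟩
    · refine ⟨Complex.arg (E / ζ) + 2 * Real.pi, ?_, by linarith, ?_⟩
      · linarith [Complex.neg_pi_lt_arg (E / ζ)]
      · have : Complex.exp (((Complex.arg (E / ζ) + 2 * Real.pi : ℝ) : ℂ) * Complex.I) =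
            Complex.exp ((Complex.arg (E / ζ) : ℝ) * Complex.I) := by
          push_cast
          rw [add_mul, Complex.exp_add, Complex.exp_two_pi_mul_I, mul_one]
        rw [this]
        exact h2
  obtain ⟨φ, hφ⟩ : ∃ φ : ℕ → ℝ, ∀ i, φ i = γ + th z p i := ⟨_, fun _ => rfl⟩
  have hφ0 : φ 0 = γ := by rw [hφ, th_zero, add_zero]
  have hpolζ : ∀ i ≤ m, p i - z = ((r + ρ i : ℝ) : ℂ) * ζ * Complex.exp ((φ i : ℝ) * Complex.I) := by
    intro i hi
    rw [hpol i hi, hγ, hφ, Complex.ofReal_add γ, add_mul, Complex.exp_add]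
    ring
  have hpn : ∀ i ≤ m, ‖p i‖ < 1 := fun i hi => by
    have := h.ins i hi
    have := h.ρpos i hi
    linarith
  have hsucc : ∀ i, φ (i + 1) = φ i + ang z p i := fun i => by
    rw [hφ, hφ, th_succ]; ring
  have hlt : ∀ i ≤ m, φ i < 2 * Real.pi := by
    intro i
    induction i with
    | zero => intro _; rw [hφ0]; exact hγ1
    | succ i ih =>
      intro hi
      have hi' := ih (by omega)
      by_contra hcon
      push Not at hcon
      have ha := hA.ang_mem (show i < m by omega)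
      rw [hsucc] at hcon
      -- the point of tangency
      have hq : z + ((r : ℝ) : ℂ) * ζ = ζ := by
        have h1 : z = ((1 - r : ℝ) : ℂ) * ζ := by rw [← hz]; exact hζz
        nth_rewrite 1 [h1]
        push_cast
        ring
      have hqz : ζ - z = ((r : ℝ) : ℂ) * ζ * Complex.exp (((2 * Real.pi : ℝ) : ℂ) * Complex.I) := by
        push_cast
        rw [Complex.exp_two_pi_mul_I, mul_one]
        nth_rewrite 1 [← hq]
        ring
      have h1 := hA.rad_pos (show i ≤ m by omega)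
      have h2 := hA.rad_pos hi
      have hc1 : 0 ≤ cr (p i - z) (ζ - z) := by
        rw [hpolζ i (by omega), hqz, cr_polar hζ1]
        apply mul_nonneg (by positivity)
        apply Real.sin_nonneg_of_nonneg_of_le_pi <;> linarith
      have hc2 : 0 ≤ cr (ζ - z) (p (i + 1) - z) := by
        rw [hpolζ (i + 1) hi, hqz, cr_polar hζ1]
        apply mul_nonneg (by positivity)
        rw [hsucc]
        apply Real.sin_nonneg_of_nonneg_of_le_pi <;> linarith
      rcases cone_or (h.pos i (by omega)) hc1 hc2 with h3 | ⟨x, hx, hx'⟩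
      · have h4 : ζ ∈ Metric.ball (0 : ℂ) 1 := by
          have h5 : convexHull ℝ ({z, p i, p (i + 1)} : Set ℂ) ⊆ Metric.ball (0 : ℂ) 1 := by
            apply convexHull_min _ (convex_ball _ _)
            rintro x (rfl | rfl | rfl)
            · rw [Metric.mem_ball, dist_zero_right, hz]; linarith
            · rw [Metric.mem_ball, dist_zero_right]; exact hpn i (by omega)
            · rw [Metric.mem_ball, dist_zero_right]; exact hpn (i + 1) hi
          exact h5 h3
        rw [Metric.mem_ball, dist_zero_right, hζ1] at h4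
        exact lt_irrefl _ h4
      · have h4 : r < dist x z := edge_avoid (h.ρpos i (by omega)) (h.ρpos (i + 1) hi) hr0
          (h.rim i (by omega)) (h.spoke i (by omega)).ge (h.spoke (i + 1) hi).ge hx'
        have h5 : dist z x + dist x ζ = dist z ζ := dist_add_dist_of_mem_segment hx
        have h6 : dist z ζ = r := by
          rw [dist_comm, dist_eq_norm, hqz, norm_mul, norm_mul, hζ1,
            Complex.norm_exp_ofReal_mul_I, Complex.norm_real, Real.norm_eq_abs, abs_of_pos hr0]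
          ring
        have h7 := dist_nonneg (x := x) (y := ζ)
        rw [dist_comm z x] at h5
        linarith
  refine ⟨φ, ?_, ?_, ?_⟩
  · intro i hi
    refine ⟨?_, hlt i hi⟩
    rw [hφ]
    have := hA.th_mono (Nat.zero_le i) hi
    rw [th_zero] at this
    linarith
  · intro i
    rw [hφ0, hφ]
  · intro i hi
    have h1 : p i = ((1 - r : ℝ) : ℂ) * ζ * Complex.exp (((0 : ℝ) : ℂ) * Complex.I) -
        (((-(r + ρ i) : ℝ)) : ℂ) * ζ * Complex.exp ((φ i : ℝ) * Complex.I) := by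
      have h2 : p i = z + (p i - z) := by ring
      rw [h2, hpolζ i hi]
      have h3 : z = ((1 - r : ℝ) : ℂ) * ζ := by rw [← hz]; exact hζz
      nth_rewrite 1 [h3]
      push_cast
      rw [zero_mul, Complex.exp_zero]
      ring
    rw [h1, normsq_polar hζ1]
    have h4 : Real.cos (φ i) = 1 - 2 * Real.sin ((φ i - 0) / 2) ^ 2 := by
      have := Real.cos_sq' (φ i / 2)
      have h5 := Real.cos_two_mul (φ i / 2)
      rw [show 2 * (φ i / 2) = φ i by ring] at h5
      rw [h5, this, sub_zero]; ring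
    rw [h4]
    ring

/-- Horocycle equality. -/
lemma horo_eq {r ρ' φ' x : ℝ} (hr : 0 < r) (hr1 : r < 1) (hρ : 0 < ρ') (hx : x + ρ' = 1)
    (h : x ^ 2 = (1 - r) ^ 2 + (r + ρ') ^ 2 + 2 * ((1 - r) * (r + ρ')) * Real.cos φ') :
    ρ' / (r + ρ') = (1 - r) * ((1 - Real.cos φ') / 2) := by
  have hx' : x = 1 - ρ' := by linarith
  rw [hx'] at h
  rw [div_eq_iff (by positivity)]
  nlinarith

lemma cos_le_half {φ : ℝ} (h1 : Real.pi / 3 ≤ φ) (h2 : φ ≤ 2 * Real.pi - Real.pi / 3) :
    Real.cos φ ≤ 1 / 2 := by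
  have hpi := Real.pi_pos
  rw [← Real.cos_pi_div_three]
  rcases le_total φ Real.pi with h3 | h3
  · exact Real.cos_le_cos_of_nonneg_of_le_pi (by positivity) h3 h1
  · rw [← Real.cos_two_pi_sub φ]
    exact Real.cos_le_cos_of_nonneg_of_le_pi (by positivity) (by linarith) (by linarith)

lemma angle_of_cos {φ : ℝ} (h0 : 0 ≤ φ) (h1 : φ < 2 * Real.pi) (hc : Real.cos φ < -(1 / 2)) :
    2 * (Real.pi / 3) < φ ∧ φ < 2 * Real.pi - 2 * (Real.pi / 3) := by
  have hpi := Real.pi_pos
  have hk : Real.cos (2 * (Real.pi / 3)) = -(1 / 2) := by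
    rw [Real.cos_two_mul, Real.cos_pi_div_three]; norm_num
  constructor
  · by_contra hcon
    push Not at hcon
    have := Real.cos_le_cos_of_nonneg_of_le_pi h0 (by linarith) hcon
    linarith
  · by_contra hcon
    push Not at hcon
    have := Real.cos_le_cos_of_nonneg_of_le_pi (x := 2 * Real.pi - φ) (y := 2 * (Real.pi / 3))
      (by linarith) (by linarith) (by linarith)
    rw [Real.cos_two_pi_sub] at this
    linarith

/-- The ring lemma at a horocycle: petals well inside are large. -/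
theorem fan_lemma (d : ℕ) : ∃ c : ℝ, 0 < c ∧ c ≤ 1 / 2 ∧ ∀ {m : ℕ} {z : ℂ} {r : ℝ} {p : ℕ → ℂ}
    {ρ : ℕ → ℝ}, m ≤ d → Fan m z r p ρ → 1 / 4 ≤ r → r ≤ 1 / 2 →
    ∀ i ≤ m, ‖p i‖ + ρ i < 1 / 2 → c ≤ ρ i := by
  by_cases hd : d < 1
  · refine ⟨1 / 2, by norm_num, le_rfl, ?_⟩
    intro m z r p ρ hm h
    have := h.one
    omega
  push Not at hd
  have hd0 : (0 : ℝ) < d := by exact_mod_cast hd
  have hd1 : (1 : ℝ) ≤ d := by exact_mod_cast hd
  have hc0 : (0 : ℝ) < 1 / (3 * d) := by positivity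
  have hc3 : (1 : ℝ) / (3 * d) ≤ 1 / 3 := by
    apply one_div_le_one_div_of_le (by norm_num); linarith
  have hc1 : (1 : ℝ) / (3 * d) ≤ 1 := by linarith
  have hG0 := ringG_pos hd d hc0
  have hG1 := (ringG_le hd d hc0 hc1).trans hc1
  have hG2 : (ringG d d (1 / (3 * d))) ^ 2 ≤ 1 := pow_le_one₀ hG0.le hG1
  refine ⟨(ringG d d (1 / (3 * d))) ^ 2 * (1 / 4), by positivity, by linarith, ?_⟩
  intro m z r p ρ hm h hr4 hr2 j hj hjn
  have hA := h.arc
  have hpi := Real.pi_pos
  have hr0 := h.rpos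
  have hr1 : r < 1 := by linarith
  obtain ⟨φ, hφ1, hφ2, hφ3⟩ := h.exists_angles hr1
  have hρj := h.ρpos j hj
  -- the direction of `p j`
  have hcosj : Real.cos (φ j) < -(1 / 2) := by
    have h1 := hφ3 j hj
    have h2 : ‖p j‖ ^ 2 < (1 / 2 - ρ j) ^ 2 := by
      have := norm_nonneg (p j)
      have : ‖p j‖ < 1 / 2 - ρ j := by linarith
      gcongr
    rw [h1] at h2
    have h3 : 0 < (1 - r) * (r + ρ j) := by
      have : 0 < 1 - r := by linarith
      positivity
    have h4 : 0 < (1 / 2 - r) ^ 2 + r * ρ j := by positivity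
    by_contra hcon
    push Not at hcon
    nlinarith
  obtain ⟨hj1, hj2⟩ := angle_of_cos (hφ1 j hj).1 (hφ1 j hj).2 hcosj
  -- a horocyclic end with a large angle is large
  have hend : ∀ i ≤ m, ‖p i‖ + ρ i = 1 → Real.cos (φ i) ≤ 1 / 2 → 1 / (3 * (d : ℝ)) ≤ sg r ρ i := by
    intro i hi hn hcos
    have h1 := horo_eq hr0 hr1 (h.ρpos i hi) hn (hφ3 i hi)
    have h2 : 1 / 8 ≤ ρ i / (r + ρ i) := by
      rw [h1]
      have h3 : (1 : ℝ) / 4 ≤ (1 - Real.cos (φ i)) / 2 := by linarith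
      nlinarith
    rw [← hA.sg_sq hi] at h2
    have h4 := hA.sg_pos hi
    refine hc3.trans ?_
    by_contra hcon
    push Not at hcon
    nlinarith
  have hbig : ∀ k, k < m → Real.pi / 3 / d ≤ ang z p k →
      1 / (3 * (d : ℝ)) ≤ sg r ρ k ∧ 1 / (3 * (d : ℝ)) ≤ sg r ρ (k + 1) := by
    intro k hk ha
    have h1 := hA.ang_le hk
    have h2 := hA.sg_pos hk.le
    have h3 := hA.sg_le_one hk.le
    have h4 := hA.sg_pos (show k + 1 ≤ m by omega)
    have h5 := hA.sg_le_one (show k + 1 ≤ m by omega)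
    have h6 : 1 / (3 * (d : ℝ)) ≤ sg r ρ k * sg r ρ (k + 1) := by
      have h7 : Real.pi * (1 / (3 * (d : ℝ))) ≤ Real.pi * (sg r ρ k * sg r ρ (k + 1)) := by
        refine le_trans (le_of_eq ?_) (ha.trans h1)
        field_simp
      exact le_of_mul_le_mul_left h7 hpi
    constructor <;> nlinarith
  have hmd : (m : ℝ) ≤ d := by exact_mod_cast hm
  -- a large petal before `j`
  obtain ⟨l, hl, hlσ⟩ : ∃ l ≤ j, 1 / (3 * (d : ℝ)) ≤ sg r ρ l := by
    by_cases h0 : Real.pi / 3 ≤ φ 0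
    · refine ⟨0, Nat.zero_le _, hend 0 (Nat.zero_le _) h.horo0 (cos_le_half h0 ?_)⟩
      have h1 := hA.th_mono (Nat.zero_le j) hj
      rw [th_zero] at h1
      have h2 := hφ2 j
      linarith
    · push Not at h0
      have h1 : Real.pi / 3 < th z p j := by have := hφ2 j; linarith
      obtain ⟨k, hk, hka⟩ : ∃ k ∈ Finset.range j, Real.pi / 3 / d ≤ ang z p k := by
        by_contra hcon
        push Not at hcon
        have h2 : ∑ k ∈ Finset.range j, ang z p k ≤ ∑ k ∈ Finset.range j, Real.pi / 3 / d :=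
          Finset.sum_le_sum (fun k hk => (hcon k hk).le)
        rw [Finset.sum_const, Finset.card_range, nsmul_eq_mul] at h2
        have h3 : (j : ℝ) ≤ d := by exact_mod_cast hj.trans hm
        have h4 : (j : ℝ) * (Real.pi / 3 / d) ≤ d * (Real.pi / 3 / d) := by gcongr
        have h5 : (d : ℝ) * (Real.pi / 3 / d) = Real.pi / 3 := by field_simp
        unfold th at h1
        linarith
      have hk' := Finset.mem_range.1 hk
      exact ⟨k, hk'.le, (hbig k (by omega) hka).1⟩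
  -- a large petal after `j`
  obtain ⟨u, hu, hum, huσ⟩ : ∃ u, j ≤ u ∧ u ≤ m ∧ 1 / (3 * (d : ℝ)) ≤ sg r ρ u := by
    by_cases h0 : φ m ≤ 2 * Real.pi - Real.pi / 3
    · refine ⟨m, hj, le_rfl, hend m le_rfl h.horom (cos_le_half ?_ h0)⟩
      have h1 := hA.th_mono hj le_rfl
      have h2 := hφ2 j
      have h3 := hφ2 m
      linarith
    · push Not at h0
      have h1 : Real.pi / 3 < th z p m - th z p j := by
        have h2 := hφ2 j
        have h3 := hφ2 m
        linarith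
      obtain ⟨k, hk, hka⟩ : ∃ k ∈ Finset.Ico j m, Real.pi / 3 / d ≤ ang z p k := by
        by_contra hcon
        push Not at hcon
        have h2 : ∑ k ∈ Finset.Ico j m, ang z p k ≤ ∑ k ∈ Finset.Ico j m, Real.pi / 3 / d :=
          Finset.sum_le_sum (fun k hk => (hcon k hk).le)
        rw [Finset.sum_const, Nat.card_Ico, nsmul_eq_mul, sum_ang z p hj] at h2
        have h3 : ((m - j : ℕ) : ℝ) ≤ d := by exact_mod_cast (show m - j ≤ d by omega)
        have h4 : ((m - j : ℕ) : ℝ) * (Real.pi / 3 / d) ≤ d * (Real.pi / 3 / d) := by gcongr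
        have h5 : (d : ℝ) * (Real.pi / 3 / d) = Real.pi / 3 := by field_simp
        linarith
      have hk' := Finset.mem_Ico.1 hk
      exact ⟨k + 1, by omega, by omega, (hbig k hk'.2 hka).2⟩
  have hgap := gap hd (sg r ρ) (ang z p) (u - l) l (by omega)
    (fun i hi hi' => ⟨hA.sg_pos (by omega), hA.sg_le_one (by omega)⟩)
    (fun i hi hi' => hA.ang_le (by omega))
    (fun i j hi hij hj => by
      rw [sum_ang z p hij.le]
      exact hA.sep hij.le (by omega) (h.disj i (by omega) j (by omega) (by omega)))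
    (1 / (3 * d)) hc0 hc1 hlσ (by
      rw [show l + (u - l) = u by omega]
      exact huσ) j hl (by omega)
  have h5 : ringG d d (1 / (3 * d)) ≤ sg r ρ j :=
    (ringG_anti hd (by omega) hc0 hc1).trans hgap
  have h6 : (ringG d d (1 / (3 * d))) ^ 2 ≤ ρ j / (r + ρ j) := by
    rw [← hA.sg_sq hj]
    gcongr
  have h7 := rho_ge hr0 hρj h6
  have h8 : (ringG d d (1 / (3 * d))) ^ 2 * (1 / 4) ≤ (ringG d d (1 / (3 * d))) ^ 2 * r := by
    gcongr
  linarith

end Pool.Agent.H74.Koebe
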