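import Pool.Agent.H74.Koebe.Main

/-! The discrete Koebe theorem. -/

namespace Pool.Agent.H74.Koebe

universe u

variable {V : Type u} {K : OComplex V} {P Q : Circles V} {κ : ℝ}

open OComplex

lemma flw_finite {d : ℕ} (hd : K.DegLE d) {δ : ℝ} {v0 : V} (h0 : far Q v0 < δ) (hδ : δ ≤ 1 / 2)
    (hfin : {v | far Q v < 1 / 2}.Finite) : {v | Flw K Q δ v0 v}.Finite := by
  have h1 : {v | Small K Q δ v0 v}.Finite := by
    apply hfin.subset
    intro v hv
    exact lt_of_lt_of_le (Small.far_lt h0 hv) hδ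
  have h2 : (⋃ u ∈ {v | Small K Q δ v0 v}, {x | K.adj u x}).Finite :=
    Set.Finite.biUnion h1 (fun u _ => nbr_finite hd u)
  apply (h1.union h2).subset
  rintro v (hv | ⟨u, hu, huv⟩)
  · exact Or.inl hv
  · exact Or.inr (Set.mem_biUnion hu huv)

lemma exists_nat_mul_gt {ε : ℝ} (h : 0 < ε) : ∃ N : ℕ, 1 < N * ε := by
  obtain ⟨N, hN⟩ := exists_nat_gt (1 / ε)
  exact ⟨N, by rwa [div_lt_iff₀ h] at hN⟩

/-- The discrete Koebe theorem for bounded degree. -/
theorem koebe (d : ℕ) : ∃ s : ℝ, 0 < s ∧ ∀ (V : Type u) (K : OComplex V), K.IsDisc → K.DegLE d →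
    ∀ Q : Circles V, IsMaximal K Q → ∀ v0 : V, K.Interior v0 → Q.z v0 = 0 →
    ∀ P : Circles V, IsPacking K P → Univalent P → P.z v0 = 0 → P.r v0 = Q.r v0 →
    Metric.ball 0 s ⊆ carr K P := by
  obtain ⟨κ, hκ0, hκ1, hstar⟩ := exists_star.{u} d
  obtain ⟨c, hc0, hc1, hbd⟩ := near_boundary.{u} d
  set δ : ℝ := min (1 / 4) c with hδ
  have hδ0 : 0 < δ := lt_min (by norm_num) hc0
  have hδ4 : δ ≤ 1 / 4 := min_le_left _ _
  have hδc : δ ≤ c := min_le_right _ _
  set η : ℝ := min (1 / 2 - δ) (2 * c) with hη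
  have hη0 : 0 < η := lt_min (by linarith) (by linarith)
  set M : ℝ := 2 / κ with hM
  have hM1 : 1 ≤ M := by
    rw [hM, le_div_iff₀ hκ0]; linarith
  set c' : ℝ := eta κ * κ ^ 2 with hc'
  have hc'0 : 0 < c' := by
    have := eta_pos hκ0
    positivity
  set C : ℝ := 2 + 2 * M / c' + 2 / c' with hC
  have hC0 : 0 < C := by positivity
  set A : ℝ := (1 + M) * C + 1 with hA
  have hA1 : 1 ≤ A := by
    have : 0 ≤ (1 + M) * C := by positivity
    rw [hA]; linarith
  have hA0 : 0 < A := by linarith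
  obtain ⟨N, hN⟩ := exists_nat_mul_gt (ε := η ^ 2 / (16 * M ^ 2 * C ^ 2)) (by positivity)
  set s : ℝ := δ / (8 * A ^ N) with hs
  have hAN : 1 ≤ A ^ N := one_le_pow₀ hA1
  have hs0 : 0 < s := by positivity
  have hs8 : s ≤ δ / 8 := by
    rw [hs]
    apply div_le_div_of_nonneg_left hδ0.le (by norm_num)
    linarith
  have hsA : 2 * (A ^ N * s) = δ / 4 := by
    rw [hs]
    field_simp
    norm_num
  refine ⟨s, hs0, ?_⟩
  intro V K hK hd Q hQ v0 hv0 hQz P hPp hPu hPz hPr w hw
  by_contra hcarr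
  obtain ⟨hlink, hconn, hsc, hcase⟩ := hK
  obtain ⟨hQp, hQu, hQsub, hQcase⟩ := hQ
  have hP : Good K P := ⟨hlink, hconn, hPp, hPu⟩
  have hQG : Good K Q := ⟨hlink, hconn, hQp, hQu⟩
  have hSP := hstar hP hd
  have hSQ := hstar hQG hd
  rw [Metric.mem_ball] at hw
  have hfar0 : far Q v0 = Q.r v0 := by unfold far; rw [hQz, norm_zero, zero_add]
  -- the disc of `v0` is small
  have h0 : far Q v0 < δ := by
    by_contra hcon
    push Not at hcon
    rw [hfar0, ← hPr] at hcon
    have h1 := hSP.rad_le hP hcarr hv0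
    rw [hPz, dist_comm] at h1
    linarith
  -- non interior vertices are horocycles
  have hhoro : ∀ x, ¬ K.Interior x → ‖Q.z x‖ + Q.r x = 1 := by
    intro x hx
    rcases hcase with ⟨hF, -⟩ | ⟨-, hI⟩
    · rcases hQcase with ⟨-, h⟩ | ⟨hInf, -⟩
      · exact h x ((hlink x).resolve_left hx)
      · exact absurd hInf (not_infinite_iff_finite.2 hF)
    · exact absurd (hI x) hx
  have hB : ∀ x b, far Q x < 1 / 2 → K.adj x b → ¬ K.Interior b → c ≤ Q.r x :=
    hbd hQG hd hQsub hhoro v0 hv0 hQz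
  have hH : ∀ u x, far Q u < δ → K.adj u x → K.Interior x := by
    intro u x hu hux
    by_contra hcon
    have h1 := hB u x (by linarith) hux hcon
    unfold far at hu
    have := norm_nonneg (Q.z u)
    linarith
  have hfin : {v | far Q v < 1 / 2}.Finite := by
    rcases hcase with ⟨hF, -⟩ | ⟨hInf, hI⟩
    · exact Set.toFinite _
    · rcases hQcase with ⟨hF, -⟩ | ⟨-, hc2⟩
      · exact Set.toFinite _
      · apply (finite_half hQG hSQ hd hI hc2).subset
        intro v hv
        have hv' : far Q v < 1 / 2 := hv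
        unfold far at hv'
        have := hQG.pos v
        have hgoal : Q.z v ∈ Metric.closedBall (0 : ℂ) (1 / 2) := by
          rw [Metric.mem_closedBall, dist_zero_right]; linarith
        exact hgoal
  obtain ⟨vf, hvf, hvfδ⟩ := schwarz hP hQG hv0 hPz hQz hPr h0 hH
    (flw_finite hd h0 (by linarith) hfin)
  have hvf0 : vf ≠ v0 := by
    rintro rfl
    rw [hPz, norm_zero, zero_add, hPr, ← hfar0] at hvfδ
    linarith
  have hvf2 : δ / 2 ≤ ‖P.z vf‖ := by
    have h1 := hP.dis hvf0
    rw [hPz, dist_zero_right] at h1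
    have := hP.pos v0
    linarith
  have hcount : Countable V := by
    apply Pairwise.countable_of_isOpen_disjoint (s := fun v => Metric.ball (P.z v) (P.r v))
    · intro u v huv
      exact hPu u v huv
    · intro v
      exact Metric.isOpen_ball
    · intro v
      exact ⟨P.z v, Metric.mem_ball_self (hP.pos v)⟩
  have hfinal := block_count (N := N) (z := P.z) (Z := Q.z) (r := P.r) (R := Q.r) (w := w)
    (M := M) (c := c') (C := C) (T0 := s) (A := A) (η := η) hP.pos hQG.pos hPu hQu hQsub hM1 hc'0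
    hC hs0 hη0 hA1 (by rw [hA]; linarith) (by
      intro t ht0 ht1
      have hw' : dist (P.z v0) w < t := by
        rw [hPz, dist_comm]; linarith
      have hw'' : t ≤ dist (P.z vf) w := by
        have h1 : ‖P.z vf‖ ≤ dist (P.z vf) w + dist w 0 := by
          rw [← dist_zero_right]; exact dist_triangle _ _ _
        linarith
      exact circle_bound hP hQG hSP hsc hcarr hv0 h0 hH hB hfin hvf (by linarith) hw' hw'')
  linarith

end Pool.Agent.H74.Koebe
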