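import Pool.Agent.H74.Koebe.Geo

/-! The closed flower around an interior disc and the open fan around a boundary disc. -/

namespace Pool.Agent.H74.Koebe

/-- A closed flower: `n` petal discs (centres `p i`, radii `ρ i`, indexed periodically) around
the disc with centre `z` and radius `r`, consecutive petals tangent and positively oriented,
all petals with pairwise disjoint interiors. -/
structure Flower (n : ℕ) (z : ℂ) (r : ℝ) (p : ℕ → ℂ) (ρ : ℕ → ℝ) : Prop where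
  three : 3 ≤ n
  rpos : 0 < r
  ρpos : ∀ i, 0 < ρ i
  per : ∀ i, p (i + n) = p i
  perρ : ∀ i, ρ (i + n) = ρ i
  spoke : ∀ i, dist z (p i) = r + ρ i
  rim : ∀ i, dist (p i) (p (i + 1)) = ρ i + ρ (i + 1)
  pos : ∀ i, 0 < cr (p i - z) (p (i + 1) - z)
  disj : ∀ i < n, ∀ j < n, i ≠ j → ρ i + ρ j ≤ dist (p i) (p j)

/-- An open fan of `m + 1` discs around a disc internally tangent to the unit circle, inside the
closed unit disc, whose two extreme discs are internally tangent to the unit circle too. -/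
structure Fan (m : ℕ) (z : ℂ) (r : ℝ) (p : ℕ → ℂ) (ρ : ℕ → ℝ) : Prop where
  one : 1 ≤ m
  rpos : 0 < r
  ρpos : ∀ i ≤ m, 0 < ρ i
  spoke : ∀ i ≤ m, dist z (p i) = r + ρ i
  rim : ∀ i < m, dist (p i) (p (i + 1)) = ρ i + ρ (i + 1)
  pos : ∀ i < m, 0 < cr (p i - z) (p (i + 1) - z)
  disj : ∀ i ≤ m, ∀ j ≤ m, i ≠ j → ρ i + ρ j ≤ dist (p i) (p j)
  horo : ‖z‖ + r = 1
  horo0 : ‖p 0‖ + ρ 0 = 1
  horom : ‖p m‖ + ρ m = 1
  ins : ∀ i ≤ m, ‖p i‖ + ρ i ≤ 1

/-- The hyperbolic size parameter of the disc `(z, r)` in the disc of radius `R` about `0`. -/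
noncomputable def kap (R : ℝ) (z : ℂ) (r : ℝ) : ℝ := (R ^ 2 + r ^ 2 - ‖z‖ ^ 2) / (2 * R * r)

end Pool.Agent.H74.Koebe
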