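import Mathlib

/-! Elementary geometry of tangent discs and triangles. -/

namespace Pool.Agent.H74.Koebe

/-- The cross product (signed area) of two plane vectors. -/
def cr (u v : ℂ) : ℝ := u.re * v.im - u.im * v.re

lemma cr_self (u : ℂ) : cr u u = 0 := by unfold cr; ring
lemma cr_swap (u v : ℂ) : cr v u = - cr u v := by unfold cr; ring
lemma cr_add_right (u v w : ℂ) : cr u (v + w) = cr u v + cr u w := by
  simp only [cr, Complex.add_re, Complex.add_im]; ring
lemma cr_add_left (u v w : ℂ) : cr (u + v) w = cr u w + cr v w := by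
  simp only [cr, Complex.add_re, Complex.add_im]; ring
lemma cr_smul_right (t : ℝ) (u v : ℂ) : cr u (t • v) = t * cr u v := by
  simp only [cr, Complex.real_smul, Complex.mul_re, Complex.mul_im, Complex.ofReal_re,
    Complex.ofReal_im]; ring
lemma cr_smul_left (t : ℝ) (u v : ℂ) : cr (t • u) v = t * cr u v := by
  simp only [cr, Complex.real_smul, Complex.mul_re, Complex.mul_im, Complex.ofReal_re,
    Complex.ofReal_im]; ring

lemma normsq_eq (u : ℂ) : ‖u‖ ^ 2 = u.re ^ 2 + u.im ^ 2 := by
  rw [← Complex.normSq_eq_norm_sq, Complex.normSq_apply]; ring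

/-- Three discs with pairwise disjoint interiors have no common boundary point. -/
lemma no_three {u v w : ℂ} (hu : 0 < ‖u‖) (hv : 0 < ‖v‖) (hw : 0 < ‖w‖)
    (huv : ‖u‖ + ‖v‖ ≤ ‖u - v‖) (huw : ‖u‖ + ‖w‖ ≤ ‖u - w‖) (hvw : ‖v‖ + ‖w‖ ≤ ‖v - w‖) :
    False := by
  have key : ∀ x y : ℂ, ‖x‖ + ‖y‖ ≤ ‖x - y‖ → x.re * y.re + x.im * y.im ≤ - (‖x‖ * ‖y‖) := by
    intro x y h
    have h1 := normsq_eq (x - y)
    have h2 := normsq_eq x
    have h3 := normsq_eq y
    have h4 : (‖x‖ + ‖y‖) ^ 2 ≤ ‖x - y‖ ^ 2 := by
      have := norm_nonneg x; have := norm_nonneg y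
      gcongr
    rw [h1, Complex.sub_re, Complex.sub_im] at h4
    nlinarith
  have k1 := key _ _ huv
  have k2 := key _ _ huw
  have k3 := key _ _ hvw
  have e1 := normsq_eq u
  have e2 := normsq_eq v
  have e3 := normsq_eq w
  set a := ‖u‖
  set b := ‖v‖
  set c := ‖w‖
  have hab : 0 < a * b := mul_pos hu hv
  have hac : 0 < a * c := mul_pos hu hw
  have hbc : 0 < b * c := mul_pos hv hw
  have habc : 0 < a * b * c := mul_pos hab hw
  have q1 : (a * b * c * c) * (u.re * v.re + u.im * v.im) ≤ (a * b * c * c) * (-(a * b)) :=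
    mul_le_mul_of_nonneg_left k1 (by positivity)
  have q2 : (a * b * c * b) * (u.re * w.re + u.im * w.im) ≤ (a * b * c * b) * (-(a * c)) :=
    mul_le_mul_of_nonneg_left k2 (by positivity)
  have q3 : (a * b * c * a) * (v.re * w.re + v.im * w.im) ≤ (a * b * c * a) * (-(b * c)) :=
    mul_le_mul_of_nonneg_left k3 (by positivity)
  have s1 := sq_nonneg (b * c * u.re + a * c * v.re + a * b * w.re)
  have s2 := sq_nonneg (b * c * u.im + a * c * v.im + a * b * w.im)
  have h5 : (b * c * u.re + a * c * v.re + a * b * w.re) ^ 2 +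
      (b * c * u.im + a * c * v.im + a * b * w.im) ^ 2 =
      b ^ 2 * c ^ 2 * (u.re ^ 2 + u.im ^ 2) + a ^ 2 * c ^ 2 * (v.re ^ 2 + v.im ^ 2)
      + a ^ 2 * b ^ 2 * (w.re ^ 2 + w.im ^ 2)
      + 2 * ((a * b * c * c) * (u.re * v.re + u.im * v.im)
        + (a * b * c * b) * (u.re * w.re + u.im * w.im)
        + (a * b * c * a) * (v.re * w.re + v.im * w.im)) := by ring
  rw [← e1, ← e2, ← e3] at h5
  have h6 : 0 < (a * b * c) ^ 2 := by positivity
  nlinarith

/-- A point of the edge joining the centres of two tangent discs lies outside every other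
closed disc. -/
lemma edge_avoid {a b x : ℂ} {ra rb rx : ℝ} (ha : 0 < ra) (hb : 0 < rb) (hx : 0 < rx)
    (hab : dist a b = ra + rb) (hxa : rx + ra ≤ dist x a) (hxb : rx + rb ≤ dist x b) {q : ℂ}
    (hq : q ∈ segment ℝ a b) : rx < dist q x := by
  by_contra hcon
  push Not at hcon
  have hsum : dist a q + dist q b = ra + rb := by
    rw [← hab]; exact dist_add_dist_of_mem_segment hq
  have t1 : dist x a ≤ dist q x + dist a q := by
    have := dist_triangle x q a
    rw [dist_comm x q, dist_comm q a] at this; exact this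
  have t2 : dist x b ≤ dist q x + dist q b := by
    have := dist_triangle x q b
    rw [dist_comm x q] at this; exact this
  have e1 : dist a q = ra := by linarith
  have e2 : dist q b = rb := by linarith
  have e3 : dist q x = rx := by linarith
  have n1 : ‖a - q‖ = ra := by rw [← dist_eq_norm]; exact e1
  have n2 : ‖b - q‖ = rb := by rw [← dist_eq_norm, dist_comm]; exact e2
  have n3 : ‖x - q‖ = rx := by rw [← dist_eq_norm, dist_comm]; exact e3
  refine no_three (u := a - q) (v := b - q) (w := x - q) (by rw [n1]; exact ha)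
    (by rw [n2]; exact hb) (by rw [n3]; exact hx) ?_ ?_ ?_
  · rw [n1, n2, sub_sub_sub_cancel_right, ← dist_eq_norm, hab]
  · rw [n1, n3, sub_sub_sub_cancel_right, ← dist_eq_norm, dist_comm]; linarith
  · rw [n2, n3, sub_sub_sub_cancel_right, ← dist_eq_norm, dist_comm]; linarith

/-- Two edges of tangent discs, all four discs being pairwise non-overlapping, do not meet. -/
lemma edge_cross {a b c d : ℂ} {ra rb rc rd : ℝ} (ha : 0 < ra) (hb : 0 < rb) (hc : 0 < rc)
    (hd : 0 < rd) (hab : dist a b = ra + rb) (hcd : dist c d = rc + rd)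
    (hca : rc + ra ≤ dist c a) (hcb : rc + rb ≤ dist c b)
    (hda : rd + ra ≤ dist d a) (hdb : rd + rb ≤ dist d b) {q : ℂ}
    (hq : q ∈ segment ℝ a b) (hq' : q ∈ segment ℝ c d) : False := by
  have hsum : dist c q + dist q d = rc + rd := by
    rw [← hcd]; exact dist_add_dist_of_mem_segment hq'
  have h1 := edge_avoid ha hb hc hab hca hcb hq
  have h2 := edge_avoid ha hb hd hab hda hdb hq
  rw [dist_comm] at h1
  linarith

/-- Membership in a positively oriented closed triangle, by three cross products. -/
lemma mem_tri_iff {a b c : ℂ} (h : 0 < cr (b - a) (c - a)) (q : ℂ) :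
    q ∈ convexHull ℝ ({a, b, c} : Set ℂ) ↔
      0 ≤ cr (b - a) (q - a) ∧ 0 ≤ cr (c - b) (q - b) ∧ 0 ≤ cr (a - c) (q - c) := by
  have hD : cr (b - a) (q - a) + cr (c - b) (q - b) + cr (a - c) (q - c)
      = cr (b - a) (c - a) := by
    simp only [cr, Complex.sub_re, Complex.sub_im]; ring
  constructor
  · intro hq
    rw [convexHull_insert (by simp), mem_convexJoin] at hq
    obtain ⟨a', ha', s, hs, hq⟩ := hq
    rw [Set.mem_singleton_iff] at ha'
    subst ha'
    rw [convexHull_pair] at hs
    obtain ⟨t1, t2, h1, h2, h12, rfl⟩ := hs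
    obtain ⟨s1, s2, g1, g2, g12, rfl⟩ := hq
    have es : s1 = 1 - s2 := by linarith
    have et : t1 = 1 - t2 := by linarith
    subst es
    subst et
    have A : cr (b - a') ((1 - s2) • a' + s2 • ((1 - t2) • b + t2 • c) - a')
        = s2 * t2 * cr (b - a') (c - a') := by
      simp only [cr, Complex.sub_re, Complex.sub_im, Complex.add_re, Complex.add_im,
        Complex.real_smul, Complex.mul_re, Complex.mul_im, Complex.ofReal_re,
        Complex.ofReal_im]
      ring
    have B : cr (c - b) ((1 - s2) • a' + s2 • ((1 - t2) • b + t2 • c) - b)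
        = (1 - s2) * cr (b - a') (c - a') := by
      simp only [cr, Complex.sub_re, Complex.sub_im, Complex.add_re, Complex.add_im,
        Complex.real_smul, Complex.mul_re, Complex.mul_im, Complex.ofReal_re,
        Complex.ofReal_im]
      ring
    have C : cr (a' - c) ((1 - s2) • a' + s2 • ((1 - t2) • b + t2 • c) - c)
        = s2 * (1 - t2) * cr (b - a') (c - a') := by
      simp only [cr, Complex.sub_re, Complex.sub_im, Complex.add_re, Complex.add_im,
        Complex.real_smul, Complex.mul_re, Complex.mul_im, Complex.ofReal_re,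
        Complex.ofReal_im]
      ring
    rw [A, B, C]
    exact ⟨by positivity, by positivity, by positivity⟩
  · rintro ⟨h1, h2, h3⟩
    set D := cr (b - a) (c - a) with hDdef
    have hx : (cr (c - b) (q - b) / D) • a + (cr (a - c) (q - c) / D) • b
        + (cr (b - a) (q - a) / D) • c = q := by
      have hDne : D ≠ 0 := ne_of_gt h
      have e1 : (D : ℝ) * q.re = cr (c - b) (q - b) * a.re + cr (a - c) (q - c) * b.re
          + cr (b - a) (q - a) * c.re := by
        simp only [hDdef, cr, Complex.sub_re, Complex.sub_im]; ring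
      have e2 : (D : ℝ) * q.im = cr (c - b) (q - b) * a.im + cr (a - c) (q - c) * b.im
          + cr (b - a) (q - a) * c.im := by
        simp only [hDdef, cr, Complex.sub_re, Complex.sub_im]; ring
      apply Complex.ext
      · simp only [Complex.add_re, Complex.real_smul, Complex.mul_re, Complex.ofReal_re,
          Complex.ofReal_im, zero_mul, sub_zero]
        field_simp
        linarith
      · simp only [Complex.add_im, Complex.real_smul, Complex.mul_im, Complex.ofReal_re,
          Complex.ofReal_im, zero_mul, add_zero]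
        field_simp
        linarith
    rw [← hx]
    have hcv := convex_convexHull ℝ ({a, b, c} : Set ℂ)
    have ma : a ∈ convexHull ℝ ({a, b, c} : Set ℂ) := subset_convexHull ℝ _ (by simp)
    have mb : b ∈ convexHull ℝ ({a, b, c} : Set ℂ) := subset_convexHull ℝ _ (by simp)
    have mc : c ∈ convexHull ℝ ({a, b, c} : Set ℂ) := subset_convexHull ℝ _ (by simp)
    have hsum : cr (c - b) (q - b) / D + cr (a - c) (q - c) / D + cr (b - a) (q - a) / D = 1 := by
      field_simp
      linarith
    have := hcv.sum_mem (t := (Finset.univ : Finset (Fin 3)))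
      (w := ![cr (c - b) (q - b) / D, cr (a - c) (q - c) / D, cr (b - a) (q - a) / D])
      (z := ![a, b, c]) (by
        intro i _
        fin_cases i
        · exact div_nonneg h2 h.le
        · exact div_nonneg h3 h.le
        · exact div_nonneg h1 h.le) (by
        rw [Fin.sum_univ_three]; exact hsum) (by
        intro i _
        fin_cases i
        · exact ma
        · exact mb
        · exact mc)
    rw [Fin.sum_univ_three] at this
    exact this

end Pool.Agent.H74.Koebe
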