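import Pool.Agent.H74.Koebe.Tri

/-! Global geometry of univalent packings: faces meet only along common vertices. -/

namespace Pool.Agent.H74.Koebe

universe u

variable {V : Type u} {K : OComplex V} {P : Circles V}

namespace OComplex

lemma adj_symm {x y : V} (h : K.adj x y) : K.adj y x := by
  obtain ⟨w, h | h⟩ := h
  · exact ⟨w, Or.inr h⟩
  · exact ⟨w, Or.inl h⟩

lemma adj_of_face {x y z : V} (h : K.face x y z) : K.adj x y := ⟨z, Or.inl h⟩

lemma adj_of_face' {x y z : V} (h : K.face x y z) : K.adj x z := ⟨y, Or.inr (K.rot (K.rot h))⟩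

lemma adj_ne {x y : V} (h : K.adj x y) : x ≠ y := by
  obtain ⟨w, h | h⟩ := h
  · exact K.ne h
  · exact (K.ne h).symm

lemma uniq' {a x x' y : V} (h : K.face a x y) (h' : K.face a x' y) : x = x' :=
  K.uniq (K.rot (K.rot h)) (K.rot (K.rot h'))

lemma chain_forward {v : V} {w : ℕ → V} {m : ℕ} (h : ∀ i < m, K.face v (w i) (w (i + 1)))
    (i k : ℕ) (hik : i + k ≤ m) : Relation.ReflTransGen (K.face v) (w i) (w (i + k)) := by
  induction k with
  | zero => exact Relation.ReflTransGen.refl
  | succ k ih => exact (ih (by omega)).tail (h (i + k) (by omega))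

/-- Two neighbours of a vertex are joined, in one of the two directions, by a chain of faces. -/
lemma link_chain {v : V} (hv : K.Interior v ∨ K.Boundary v) {x y : V} (hx : K.adj v x)
    (hy : K.adj v y) : Relation.ReflTransGen (K.face v) x y ∨ Relation.ReflTransGen (K.face v) y x := by
  have key : ∀ (m : ℕ) (w : ℕ → V), (∀ i < m, K.face v (w i) (w (i + 1))) → ∀ i ≤ m, ∀ j ≤ m,
      Relation.ReflTransGen (K.face v) (w i) (w j) ∨
      Relation.ReflTransGen (K.face v) (w j) (w i) := by
    intro m w h i hi j hj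
    rcases le_total i j with hij | hij
    · left
      have := chain_forward h i (j - i) (by omega)
      rwa [show i + (j - i) = j by omega] at this
    · right
      have := chain_forward h j (i - j) (by omega)
      rwa [show j + (i - j) = i by omega] at this
  rcases hv with ⟨n, w, -, -, -, hf, hn⟩ | ⟨m, w, -, -, hf, hn, -, -⟩
  · obtain ⟨i, hi, rfl⟩ := hn x hx
    obtain ⟨j, hj, rfl⟩ := hn y hy
    exact key n w (fun i _ => hf i) i hi.le j hj.le
  · obtain ⟨i, hi, rfl⟩ := hn x hx
    obtain ⟨j, hj, rfl⟩ := hn y hy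
    exact key m w hf i hi j hj

end OComplex

open OComplex

/-- A packing of a complex all of whose vertices have good links, connected, univalent. -/
structure Good (K : OComplex V) (P : Circles V) : Prop where
  link : ∀ v, K.Interior v ∨ K.Boundary v
  conn : K.Connected
  pack : IsPacking K P
  univ : Univalent P

lemma IsPacking.pos (h : IsPacking K P) (v : V) : 0 < P.r v := h.1 v
lemma IsPacking.tan (h : IsPacking K P) {u v : V} (huv : K.adj u v) :
    dist (P.z u) (P.z v) = P.r u + P.r v := h.2.1 u v huv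
lemma IsPacking.ori (h : IsPacking K P) {u v w : V} (huv : K.face u v w) :
    0 < cr (P.z v - P.z u) (P.z w - P.z u) := h.2.2 u v w huv

lemma Good.pos (h : Good K P) (v : V) : 0 < P.r v := h.pack.pos v
lemma Good.tan (h : Good K P) {u v : V} (huv : K.adj u v) :
    dist (P.z u) (P.z v) = P.r u + P.r v := h.pack.tan huv
lemma Good.ori (h : Good K P) {u v w : V} (huv : K.face u v w) :
    0 < cr (P.z v - P.z u) (P.z w - P.z u) := h.pack.ori huv
lemma Good.dis (h : Good K P) {u v : V} (huv : u ≠ v) :
    P.r u + P.r v ≤ dist (P.z u) (P.z v) :=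
  (disjoint_ball_ball_iff (h.pos u) (h.pos v)).1 (h.univ u v huv)

/-- Lemma E for packings. -/
lemma Good.avoid (h : Good K P) {a b x : V} (hab : K.adj a b) (hxa : x ≠ a) (hxb : x ≠ b) {q : ℂ}
    (hq : q ∈ segment ℝ (P.z a) (P.z b)) : P.r x < dist q (P.z x) :=
  edge_avoid (h.pos a) (h.pos b) (h.pos x) (h.tan hab) (h.dis hxa) (h.dis hxb) hq

/-- Lemma X for packings. -/
lemma Good.cross (h : Good K P) {a b c d : V} (hab : K.adj a b) (hcd : K.adj c d) (hca : c ≠ a)
    (hcb : c ≠ b) (hda : d ≠ a) (hdb : d ≠ b) {q : ℂ}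
    (hq : q ∈ segment ℝ (P.z a) (P.z b)) (hq' : q ∈ segment ℝ (P.z c) (P.z d)) : False :=
  edge_cross (h.pos a) (h.pos b) (h.pos c) (h.pos d) (h.tan hab) (h.tan hcd) (h.dis hca)
    (h.dis hcb) (h.dis hda) (h.dis hdb) hq hq'

/-- The closed triangle of a face. -/
def tri (P : Circles V) (a b c : V) : Set ℂ := convexHull ℝ ({P.z a, P.z b, P.z c} : Set ℂ)

lemma tri_rot (a b c : V) : tri P b c a = tri P a b c := by
  unfold tri
  congr 1
  ext x
  simp only [Set.mem_insert_iff, Set.mem_singleton_iff]
  tauto

lemma seg_symm' {a b x : ℂ} (h : x ∈ segment ℝ a b) : x ∈ segment ℝ b a := by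
  rw [segment_symm]; exact h

/-- Moving from a centre inside a face triangle along an edge avoiding its corners one stays
inside. -/
lemma Good.stay (h : Good K P) {a b c x y : V} (hf : K.face a b c) (hx : P.z x ∈ tri P a b c)
    (hxa : x ≠ a) (hxb : x ≠ b) (hxc : x ≠ c) (hya : y ≠ a) (hyb : y ≠ b) (hyc : y ≠ c)
    (hxy : K.adj x y) : P.z y ∈ tri P a b c := by
  by_contra hcon
  obtain ⟨q, hq, -, hq'⟩ := tri_enter (h.ori hf) hx hcon
  rcases hq' with hq' | hq' | hq'
  · exact h.cross (adj_of_face hf) hxy hxa hxb hya hyb hq' hq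
  · exact h.cross (adj_of_face (K.rot hf)) hxy hxb hxc hyb hyc hq' hq
  · exact h.cross (adj_of_face (K.rot (K.rot hf))) hxy hxc hxa hyc hya hq' hq

/-- A centre strictly inside a face triangle cannot be adjacent to a corner. -/
lemma Good.corner (h : Good K P) {a b c x : V} (hf : K.face a b c) (hx : P.z x ∈ tri P a b c)
    (hxa : x ≠ a) (hxb : x ≠ b) (hxc : x ≠ c) (hadj : K.adj a x) : False := by
  have hT : ∀ y, P.z y ∈ tri P a b c → 0 ≤ cr (P.z b - P.z a) (P.z y - P.z a) ∧
      0 ≤ cr (P.z y - P.z a) (P.z c - P.z a) := by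
    intro y hy
    have := (mem_tri_iff (h.ori hf) _).1 hy
    refine ⟨this.1, ?_⟩
    have e : cr (P.z a - P.z c) (P.z y - P.z c) = cr (P.z y - P.z a) (P.z c - P.z a) := by
      simp only [cr, Complex.sub_re, Complex.sub_im]; ring
    rw [← e]; exact this.2.2
  have hbad : ∀ y, (y ≠ b ∧ y ≠ c ∧ P.z y ∈ tri P a b c) → ∀ y', K.adj y y' →
      K.adj a y' → y' ≠ b → y' ≠ c → (y ≠ a) → P.z y' ∈ tri P a b c := by
    intro y hy y' hyy' hay' hb hc hya
    exact h.stay hf hy.2.2 hya hy.1 hy.2.1 (adj_ne hay').symm hb hc hyy'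
  rcases link_chain (h.link a) hadj (adj_of_face hf) with hch | hch
  · -- forward chain from `x` to `b`
    have key : ∀ y, Relation.ReflTransGen (K.face a) y b →
        ¬ (y ≠ b ∧ y ≠ c ∧ P.z y ∈ tri P a b c) := by
      intro y hy
      induction hy using Relation.ReflTransGen.head_induction_on with
      | refl => intro hh; exact hh.1 rfl
      | @head y y' hstep _ ih =>
        intro hh
        have hyy' : K.adj y y' := adj_of_face (K.rot hstep)
        have hya : y ≠ a := (K.ne hstep).symm
        have hay' : K.adj a y' := adj_of_face' hstep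
        by_cases hb : y' = b
        · subst hb
          have := h.ori hstep
          have h2 := (hT y hh.2.2).1
          rw [cr_swap] at this
          linarith
        · by_cases hc : y' = c
          · subst hc
            exact hh.1 (uniq' hstep hf)
          · exact ih ⟨hb, hc, hbad y hh y' hyy' hay' hb hc hya⟩
    exact key x hch ⟨hxb, hxc, hx⟩
  · -- forward chain from `b` to `x`
    have key : ∀ y, Relation.ReflTransGen (K.face a) b y →
        ¬ (y ≠ b ∧ y ≠ c ∧ P.z y ∈ tri P a b c) := by
      intro y hy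
      induction hy with
      | refl => intro hh; exact hh.1 rfl
      | @tail y' y _ hstep ih =>
        intro hh
        have hyy' : K.adj y y' := adj_symm (adj_of_face (K.rot hstep))
        have hya : y ≠ a := (adj_ne (adj_of_face' hstep)).symm
        have hay' : K.adj a y' := adj_of_face hstep
        by_cases hb : y' = b
        · subst hb
          exact hh.2.1 (K.uniq hstep hf)
        · by_cases hc : y' = c
          · subst hc
            have := h.ori hstep
            have h2 := (hT y hh.2.2).2
            rw [cr_swap] at this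
            linarith
          · exact ih ⟨hb, hc, hbad y hh y' hyy' hay' hb hc hya⟩
    exact key x hch ⟨hxb, hxc, hx⟩

/-- G1: the only centres in a closed face triangle are its corners. -/
theorem Good.center_mem (h : Good K P) {a b c x : V} (hf : K.face a b c)
    (hx : P.z x ∈ tri P a b c) : x = a ∨ x = b ∨ x = c := by
  have key : ∀ y, Relation.ReflTransGen K.adj y a →
      ¬ (y ≠ a ∧ y ≠ b ∧ y ≠ c ∧ P.z y ∈ tri P a b c) := by
    intro y hy
    induction hy using Relation.ReflTransGen.head_induction_on with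
    | refl => intro hh; exact hh.1 rfl
    | @head y y' hstep _ ih =>
      rintro ⟨ha, hb, hc, hm⟩
      by_cases ha' : y' = a
      · subst ha'
        exact h.corner hf hm ha hb hc (adj_symm hstep)
      by_cases hb' : y' = b
      · subst hb'
        exact h.corner (K.rot hf) (by rw [tri_rot]; exact hm) hb hc ha (adj_symm hstep)
      by_cases hc' : y' = c
      · subst hc'
        exact h.corner (K.rot (K.rot hf)) (by rw [tri_rot, tri_rot]; exact hm) hc ha hb
          (adj_symm hstep)
      exact ih ⟨ha', hb', hc', h.stay hf hm ha hb hc ha' hb' hc' hstep⟩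
  by_contra hcon
  push Not at hcon
  exact key x (h.conn x a) ⟨hcon.1, hcon.2.1, hcon.2.2, hx⟩

lemma tri_convex (a b c : V) : Convex ℝ (tri P a b c) := convex_convexHull ℝ _
lemma mem_tri_a (a b c : V) : P.z a ∈ tri P a b c := subset_convexHull ℝ _ (by simp)
lemma mem_tri_b (a b c : V) : P.z b ∈ tri P a b c := subset_convexHull ℝ _ (by simp)
lemma mem_tri_c (a b c : V) : P.z c ∈ tri P a b c := subset_convexHull ℝ _ (by simp)

/-- A closed disc meeting a closed face triangle belongs to a corner. -/
theorem Good.disc_mem (h : Good K P) {a b c x : V} (hf : K.face a b c) {q : ℂ}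
    (hq : q ∈ tri P a b c) (hd : dist q (P.z x) ≤ P.r x) : x = a ∨ x = b ∨ x = c := by
  by_cases hx : P.z x ∈ tri P a b c
  · exact h.center_mem hf hx
  · obtain ⟨y, hy, -, hy'⟩ := tri_enter (h.ori hf) hq hx
    have hd' : dist y (P.z x) ≤ P.r x := by
      have h1 : dist q y + dist y (P.z x) = dist q (P.z x) := dist_add_dist_of_mem_segment hy
      have := dist_nonneg (x := q) (y := y)
      linarith
    by_contra hcon
    push Not at hcon
    rcases hy' with hy' | hy' | hy'
    · exact absurd (h.avoid (adj_of_face hf) hcon.1 hcon.2.1 hy') (not_lt.2 hd')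
    · exact absurd (h.avoid (adj_of_face (K.rot hf)) hcon.2.1 hcon.2.2 hy') (not_lt.2 hd')
    · exact absurd (h.avoid (adj_of_face (K.rot (K.rot hf))) hcon.2.2 hcon.1 hy') (not_lt.2 hd')

lemma seg_disc {a b : V} (h : Good K P) (hab : K.adj a b) {q : ℂ}
    (hq : q ∈ segment ℝ (P.z a) (P.z b)) :
    dist q (P.z a) ≤ P.r a ∨ dist q (P.z b) ≤ P.r b := by
  have h1 : dist (P.z a) q + dist q (P.z b) = dist (P.z a) (P.z b) :=
    dist_add_dist_of_mem_segment hq
  rw [h.tan hab, dist_comm] at h1
  by_contra hcon
  push Not at hcon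
  linarith

/-- Lemma S: two closed face triangles which meet share a corner. -/
theorem Good.share (h : Good K P) {a b c a' b' c' : V} (hf : K.face a b c) (hf' : K.face a' b' c')
    {q : ℂ} (hq : q ∈ tri P a b c) (hq' : q ∈ tri P a' b' c') :
    ∃ x, (x = a ∨ x = b ∨ x = c) ∧ (x = a' ∨ x = b' ∨ x = c') := by
  by_cases ha : P.z a ∈ tri P a' b' c'
  · exact ⟨a, Or.inl rfl, h.center_mem hf' ha⟩
  · obtain ⟨y, hy, -, hy'⟩ := tri_enter (h.ori hf') hq' ha
    have hyT : y ∈ tri P a b c := (tri_convex a b c).segment_subset hq (mem_tri_a a b c) hy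
    -- `y` lies on an edge of the second triangle, hence in the disc of one of its corners
    have : ∃ x, (x = a' ∨ x = b' ∨ x = c') ∧ dist y (P.z x) ≤ P.r x := by
      rcases hy' with hy' | hy' | hy'
      · rcases seg_disc h (adj_of_face hf') hy' with h1 | h1
        · exact ⟨_, Or.inl rfl, h1⟩
        · exact ⟨_, Or.inr (Or.inl rfl), h1⟩
      · rcases seg_disc h (adj_of_face (K.rot hf')) hy' with h1 | h1
        · exact ⟨_, Or.inr (Or.inl rfl), h1⟩
        · exact ⟨_, Or.inr (Or.inr rfl), h1⟩
      · rcases seg_disc h (adj_of_face (K.rot (K.rot hf'))) hy' with h1 | h1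
        · exact ⟨_, Or.inr (Or.inr rfl), h1⟩
        · exact ⟨_, Or.inl rfl, h1⟩
    obtain ⟨x, hx, hd⟩ := this
    exact ⟨x, h.disc_mem hf hyT hd, hx⟩

end Pool.Agent.H74.Koebe
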