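import Pool.Agent.H74.Koebe.AngleSum

/-! The local comparison of hyperbolic angles. -/

namespace Pool.Agent.H74.Koebe

open ComplexConjugate

variable {n : ℕ} {z : ℂ} {r : ℝ} {p : ℕ → ℂ} {ρ : ℕ → ℝ}

lemma Flower.exists_units (h : Flower n z r p ρ) : ∃ e : ℕ → ℂ, (∀ i, ‖e i‖ = 1) ∧
    (∀ i, p i = z + ((r + ρ i : ℝ) : ℂ) * e i) ∧ (∀ i, e (i + n) = e i) ∧
    (∀ i, e (i + 1) = e i * Complex.exp ((ang z p i : ℝ) * Complex.I)) := by
  have hr : ∀ i, 0 < r + ρ i := fun i => by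
    have := h.rpos; have := h.ρpos i; linarith
  have hr' : ∀ i, ((r + ρ i : ℝ) : ℂ) ≠ 0 := fun i => by exact_mod_cast (hr i).ne'
  have hn : ∀ i, ‖p i - z‖ = r + ρ i := fun i => by
    rw [← dist_eq_norm, dist_comm]; exact h.spoke i
  refine ⟨fun i => (p i - z) / ((r + ρ i : ℝ) : ℂ), ?_, ?_, ?_, ?_⟩
  · intro i
    rw [norm_div, hn, Complex.norm_real, Real.norm_eq_abs, abs_of_pos (hr i),
      div_self (hr i).ne']
  · intro i
    rw [mul_div_cancel₀ _ (hr' i)]; ring
  · intro i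
    simp only [h.per, h.perρ]
  · intro i
    obtain ⟨E, hE, hpol⟩ := (h.arc (i + 1)).exists_polar
    simp only
    rw [hpol i (by omega), hpol (i + 1) le_rfl, th_succ, Complex.ofReal_add (th z p i), add_mul,
      Complex.exp_add]
    have h1 := hr' i
    have h2 := hr' (i + 1)
    field_simp

set_option maxHeartbeats 1000000 in
/-- The hyperbolic angles of a flower inside the disc of radius `R`. -/
theorem hyp_angles (h : Flower n z r p ρ) {R : ℝ} (hR : 0 < R) (hv : ‖z‖ + r < R) :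
    ∃ β : ℕ → ℝ, (∀ i, 0 < β i ∧ β i < Real.pi) ∧ ∑ i ∈ Finset.range n, β i = Real.pi ∧
      (∀ i, 0 < kap R z r + kap R (p i) (ρ i)) ∧
      (∀ i, Real.sin (β i) ^ 2 * ((kap R z r + kap R (p i) (ρ i)) *
        (kap R z r + kap R (p (i + 1)) (ρ (i + 1)))) = kap R z r ^ 2 - 1) ∧
      ((∀ i, ‖p i‖ + ρ i ≤ R) → ∀ i, β i < Real.pi / 2) := by
  obtain ⟨e, he1, hp, hper, hrec⟩ := h.exists_units
  have hr0 := h.rpos
  have hz0 := norm_nonneg z
  have hpi := Real.pi_pos
  have hrρ : ∀ i, 0 < r + ρ i := fun i => by have := h.ρpos i; linarith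
  set A : ℝ := R ^ 2 - ‖z‖ ^ 2 - r ^ 2 with hA
  have hA0 : 2 * r * ‖z‖ < A := by rw [hA]; nlinarith
  have hA1 : 0 < A := lt_of_le_of_lt (by positivity) hA0
  set Δ : ℝ := Real.sqrt (A ^ 2 - (2 * r * ‖z‖) ^ 2) with hΔ
  have hΔarg : 0 < A ^ 2 - (2 * r * ‖z‖) ^ 2 := by
    have : (2 * r * ‖z‖) ^ 2 < A ^ 2 := by gcongr
    linarith
  have hΔ0 : 0 < Δ := Real.sqrt_pos.2 hΔarg
  have hΔsq : Δ ^ 2 = A ^ 2 - (2 * r * ‖z‖) ^ 2 := Real.sq_sqrt hΔarg.le
  set N : ℝ := A + Δ with hN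
  have hN0 : 0 < N := by positivity
  set t : ℝ := 2 * r / N with ht
  have ht0 : 0 < t := by positivity
  have htN : t * N = 2 * r := by rw [ht]; field_simp
  have htz : t ^ 2 * ‖z‖ ^ 2 * N = A - Δ := by
    have h1 : t ^ 2 * ‖z‖ ^ 2 * N * N = (A - Δ) * N := by
      calc t ^ 2 * ‖z‖ ^ 2 * N * N = (t * N) ^ 2 * ‖z‖ ^ 2 := by ring
        _ = (2 * r * ‖z‖) ^ 2 := by rw [htN]; ring
        _ = A ^ 2 - Δ ^ 2 := by rw [hΔsq]; ring
        _ = (A - Δ) * N := by rw [hN]; ring
    exact mul_right_cancel₀ hN0.ne' h1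
  have htz1 : t * ‖z‖ < 1 := by
    have h1 : t * ‖z‖ * N < 1 * N := by
      calc t * ‖z‖ * N = (t * N) * ‖z‖ := by ring
        _ = 2 * r * ‖z‖ := by rw [htN]
        _ < 1 * N := by rw [hN]; linarith
    exact lt_of_mul_lt_mul_right h1 hN0.le
  obtain ⟨c, hc⟩ : ∃ c : ℕ → ℂ, ∀ i, c i = conj z * e i := ⟨_, fun _ => rfl⟩
  have hcn : ∀ i, ‖c i‖ = ‖z‖ := fun i => by
    rw [hc, norm_mul, he1, mul_one, RCLike.norm_conj]
  have hcre : ∀ i, |(c i).re| ≤ ‖z‖ := fun i => by
    rw [← hcn i]; exact Complex.abs_re_le_norm _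
  obtain ⟨u, hu⟩ : ∃ u : ℕ → ℂ, ∀ i, u i = 1 - (t : ℂ) * c i := ⟨_, fun _ => rfl⟩
  have hure : ∀ i, (u i).re = 1 - t * (c i).re := fun i => by
    rw [hu, Complex.sub_re, Complex.one_re, Complex.re_ofReal_mul]
  have huim : ∀ i, (u i).im = - (t * (c i).im) := fun i => by
    rw [hu, Complex.sub_im, Complex.one_im, Complex.im_ofReal_mul]; ring
  have hupos : ∀ i, 0 < (u i).re := fun i => by
    rw [hure]
    have h1 := (abs_le.1 (hcre i)).2
    have h2 : t * (c i).re ≤ t * ‖z‖ := by gcongr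
    linarith
  have hune : ∀ i, u i ≠ 0 := fun i h0 => by
    have := hupos i
    rw [h0] at this
    simp at this
  -- the quantities `y i`
  obtain ⟨y, hy⟩ : ∃ y : ℕ → ℝ, ∀ i, y i = A - 2 * r * (c i).re := ⟨_, fun _ => rfl⟩
  have hy0 : ∀ i, 0 < y i := fun i => by
    rw [hy]
    have h1 := (abs_le.1 (hcre i)).2
    have h2 : 2 * r * (c i).re ≤ 2 * r * ‖z‖ := by gcongr
    linarith
  have husq : ∀ i, ‖u i‖ ^ 2 * N = 2 * y i := fun i => by
    rw [normsq_eq, hure, huim]
    have h1 : (c i).re ^ 2 + (c i).im ^ 2 = ‖z‖ ^ 2 := by rw [← hcn i, normsq_eq]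
    have h2 : ((1 - t * (c i).re) ^ 2 + (-(t * (c i).im)) ^ 2) * N =
        N - 2 * (t * N) * (c i).re + t ^ 2 * ((c i).re ^ 2 + (c i).im ^ 2) * N := by ring
    rw [h2, h1, htz, htN, hy, hN]
    ring
  have hyk : ∀ i, y i * (r + ρ i) = 2 * R * r * ρ i * (kap R z r + kap R (p i) (ρ i)) := fun i => by
    have hρ := h.ρpos i
    have hpn : ‖p i‖ ^ 2 = ‖z‖ ^ 2 + (r + ρ i) ^ 2 + 2 * (r + ρ i) * (c i).re := by
      have h1 : (e i).re ^ 2 + (e i).im ^ 2 = 1 := by
        have := normsq_eq (e i)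
        rw [he1] at this
        linarith
      have h2 : (c i).re = z.re * (e i).re + z.im * (e i).im := by
        rw [hc, Complex.mul_re, Complex.conj_re, Complex.conj_im]; ring
      rw [normsq_eq, normsq_eq z, h2, hp i]
      simp only [Complex.add_re, Complex.add_im, Complex.re_ofReal_mul, Complex.im_ofReal_mul]
      have h3 : (z.re + (r + ρ i) * (e i).re) ^ 2 + (z.im + (r + ρ i) * (e i).im) ^ 2 =
        z.re ^ 2 + z.im ^ 2 + (r + ρ i) ^ 2 * ((e i).re ^ 2 + (e i).im ^ 2) +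
          2 * (r + ρ i) * (z.re * (e i).re + z.im * (e i).im) := by ring
      rw [h3, h1]; ring
    unfold kap
    rw [hpn, hy, hA]
    field_simp
    ring
  have hkpos : ∀ i, 0 < kap R z r + kap R (p i) (ρ i) := fun i => by
    have hρ := h.ρpos i
    have h1 := hyk i
    have h2 := mul_pos (hy0 i) (hrρ i)
    rw [h1] at h2
    have h3 : 0 < 2 * R * r * ρ i := by positivity
    exact (pos_iff_pos_of_mul_pos h2).1 h3
  -- the half angles
  have hAn : ∀ i, 0 < ang z p i ∧ ang z p i < Real.pi := fun i =>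
    (h.arc (i + 1)).ang_mem (Nat.lt_succ_self i)
  have hcc : ∀ i, c (i + 1) = c i * Complex.exp ((ang z p i : ℝ) * Complex.I) := fun i => by
    rw [hc, hc, hrec]; ring
  obtain ⟨hh, hhh⟩ : ∃ hh : ℕ → ℂ, ∀ i, hh i =
      Complex.exp (((ang z p i / 2 : ℝ) : ℂ) * Complex.I) := ⟨_, fun _ => rfl⟩
  have hh2 : ∀ i, Complex.exp ((ang z p i : ℝ) * Complex.I) = hh i * hh i := fun i => by
    rw [hhh, ← Complex.exp_add]
    congr 1
    push_cast
    ring
  have hhre : ∀ i, (hh i).re = Real.cos (ang z p i / 2) := fun i => by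
    rw [hhh, Complex.exp_ofReal_mul_I_re]
  have hhim : ∀ i, (hh i).im = Real.sin (ang z p i / 2) := fun i => by
    rw [hhh, Complex.exp_ofReal_mul_I_im]
  have hhc : ∀ i, hh i * conj (hh i) = 1 := fun i => by
    rw [Complex.mul_conj, Complex.normSq_eq_norm_sq, hhh, Complex.norm_exp_ofReal_mul_I]; simp
  have hccn : ∀ i, c i * conj (c i) = ((‖z‖ ^ 2 : ℝ) : ℂ) := fun i => by
    rw [Complex.mul_conj, Complex.normSq_eq_norm_sq, hcn]
  -- the product `W`
  have hW : ∀ i, hh i * u i * conj (u (i + 1)) = hh i - (t : ℂ) * (c i * hh i + conj (c i * hh i))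
      + ((t ^ 2 * ‖z‖ ^ 2 : ℝ) : ℂ) * conj (hh i) := fun i => by
    have e0 : conj (u (i + 1)) = 1 - (t : ℂ) * (conj (c i) * (conj (hh i) * conj (hh i))) := by
      rw [hu, hcc, hh2, map_sub, map_one, map_mul, Complex.conj_ofReal, map_mul, map_mul]
    rw [e0, hu, map_mul]
    have e1 := hhc i
    have e2 := hccn i
    push_cast at e2 ⊢
    have e3 : hh i * (1 - (t : ℂ) * c i) * (1 - (t : ℂ) * (conj (c i) * (conj (hh i) * conj (hh i))))
        = hh i - (t : ℂ) * (c i * hh i + conj (c i) * (hh i * conj (hh i)) * conj (hh i))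
        + (t : ℂ) ^ 2 * (c i * conj (c i)) * (hh i * conj (hh i)) * conj (hh i) := by ring
    rw [e3, e1, e2]
    ring
  have hWim : ∀ i, (hh i * u i * conj (u (i + 1))).im =
      (1 - t ^ 2 * ‖z‖ ^ 2) * Real.sin (ang z p i / 2) := fun i => by
    rw [hW, Complex.add_im, Complex.sub_im, Complex.im_ofReal_mul, Complex.im_ofReal_mul,
      Complex.add_im, Complex.conj_im, Complex.conj_im, hhim]
    ring
  have hWre : ∀ i, (hh i * u i * conj (u (i + 1))).re =
      (1 + t ^ 2 * ‖z‖ ^ 2) * Real.cos (ang z p i / 2) - 2 * t * (c i * hh i).re := fun i => by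
    rw [hW, Complex.add_re, Complex.sub_re, Complex.re_ofReal_mul, Complex.re_ofReal_mul,
      Complex.add_re, Complex.conj_re, Complex.conj_re, hhre]
    ring
  obtain ⟨β, hβ⟩ : ∃ β : ℕ → ℝ, ∀ i, β i =
      ang z p i / 2 + Complex.arg (u i) - Complex.arg (u (i + 1)) := ⟨_, fun _ => rfl⟩
  have hWβ : ∀ i, hh i * u i * conj (u (i + 1)) =
      ((‖u i‖ * ‖u (i + 1)‖ : ℝ) : ℂ) * Complex.exp ((β i : ℝ) * Complex.I) := fun i => by
    have e1 := Complex.norm_mul_exp_arg_mul_I (u i)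
    have e2 := Complex.norm_mul_exp_arg_mul_I (u (i + 1))
    have e3 : conj (u (i + 1)) = (‖u (i + 1)‖ : ℂ) *
        Complex.exp (-((Complex.arg (u (i + 1)) : ℝ) * Complex.I)) := by
      nth_rewrite 1 [← e2]
      rw [map_mul, Complex.conj_ofReal, ← Complex.exp_conj]
      congr 2
      simp
    have e4 : Complex.exp ((β i : ℝ) * Complex.I) = hh i *
        Complex.exp ((Complex.arg (u i) : ℝ) * Complex.I) *
        Complex.exp (-((Complex.arg (u (i + 1)) : ℝ) * Complex.I)) := by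
      rw [hhh, hβ, ← Complex.exp_add, ← Complex.exp_add]
      congr 1
      push_cast
      ring
    rw [e4, e3]
    nth_rewrite 1 [← e1]
    push_cast
    ring
  have hsin : ∀ i, ‖u i‖ * ‖u (i + 1)‖ * Real.sin (β i) =
      (1 - t ^ 2 * ‖z‖ ^ 2) * Real.sin (ang z p i / 2) := fun i => by
    rw [← hWim, hWβ, Complex.im_ofReal_mul, Complex.exp_ofReal_mul_I_im]
  have hcos : ∀ i, ‖u i‖ * ‖u (i + 1)‖ * Real.cos (β i) =
      (1 + t ^ 2 * ‖z‖ ^ 2) * Real.cos (ang z p i / 2) - 2 * t * (c i * hh i).re := fun i => by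
    rw [← hWre, hWβ, Complex.re_ofReal_mul, Complex.exp_ofReal_mul_I_re]
  have hun : ∀ i, 0 < ‖u i‖ := fun i => norm_pos_iff.2 (hune i)
  have htz2 : 0 < 1 - t ^ 2 * ‖z‖ ^ 2 := by
    have h1 : 0 ≤ t * ‖z‖ := by positivity
    nlinarith
  have harg : ∀ i, |Complex.arg (u i)| < Real.pi / 2 := fun i =>
    Complex.abs_arg_lt_pi_div_two_iff.2 (Or.inl (hupos i))
  have hsinpos : ∀ i, 0 < Real.sin (β i) := fun i => by
    have h1 : 0 < Real.sin (ang z p i / 2) := by
      apply Real.sin_pos_of_pos_of_lt_pi <;> linarith [(hAn i).1, (hAn i).2]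
    have h2 : 0 < ‖u i‖ * ‖u (i + 1)‖ * Real.sin (β i) := by
      rw [hsin]; positivity
    have h3 : 0 < ‖u i‖ * ‖u (i + 1)‖ := mul_pos (hun i) (hun (i + 1))
    exact (pos_iff_pos_of_mul_pos h2).1 h3
  have hβmem : ∀ i, 0 < β i ∧ β i < Real.pi := fun i => by
    have h1 := abs_lt.1 (harg i)
    have h2 := abs_lt.1 (harg (i + 1))
    have h3 := hAn i
    have h4 := hsinpos i
    have h5 : -Real.pi < β i := by rw [hβ]; linarith
    have h6 : β i < 3 / 2 * Real.pi := by rw [hβ]; linarith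
    constructor
    · by_contra hcon
      push Not at hcon
      have := Real.sin_nonpos_of_nonpos_of_neg_pi_le hcon h5.le
      linarith
    · by_contra hcon
      push Not at hcon
      have h7 : Real.sin (β i) = - Real.sin (β i - Real.pi) := by
        rw [Real.sin_sub_pi]; ring
      have h8 : 0 ≤ Real.sin (β i - Real.pi) := by
        apply Real.sin_nonneg_of_nonneg_of_le_pi <;> linarith
      linarith
  refine ⟨β, hβmem, ?_, hkpos, ?_, ?_⟩
  · have h1 : ∑ i ∈ Finset.range n, β i = ∑ i ∈ Finset.range n, ang z p i / 2 +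
        ∑ i ∈ Finset.range n, (Complex.arg (u i) - Complex.arg (u (i + 1))) := by
      rw [← Finset.sum_add_distrib]
      apply Finset.sum_congr rfl
      intro i _
      rw [hβ]
      ring
    have h2 : u n = u 0 := by
      have := hper 0
      rw [zero_add] at this
      rw [hu, hu, hc, hc, this]
    rw [h1, Finset.sum_range_sub', h2, sub_self, add_zero, ← Finset.sum_div]
    have h3 := h.angle_sum
    unfold th at h3
    rw [h3]
    ring
  · intro i
    have h1 := hsin i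
    have h2 := h.arc (i + 1) |>.ang_sq (Nat.lt_succ_self i)
    have h3 := husq i
    have h4 := husq (i + 1)
    have h5 := hyk i
    have h6 := hyk (i + 1)
    have hρi := h.ρpos i
    have hρi' := h.ρpos (i + 1)
    have hr1 := hrρ i
    have hr2 := hrρ (i + 1)
    -- square the sine identity
    have h7 : (‖u i‖ ^ 2 * N) * (‖u (i + 1)‖ ^ 2 * N) * Real.sin (β i) ^ 2 =
        ((1 - t ^ 2 * ‖z‖ ^ 2) * N) ^ 2 * Real.sin (ang z p i / 2) ^ 2 := by
      have : (‖u i‖ * ‖u (i + 1)‖ * Real.sin (β i)) ^ 2 =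
          ((1 - t ^ 2 * ‖z‖ ^ 2) * Real.sin (ang z p i / 2)) ^ 2 := by rw [h1]
      calc _ = (‖u i‖ * ‖u (i + 1)‖ * Real.sin (β i)) ^ 2 * N ^ 2 := by ring
        _ = _ := by rw [this]; ring
    have h8 : (1 - t ^ 2 * ‖z‖ ^ 2) * N = 2 * Δ := by
      have : (1 - t ^ 2 * ‖z‖ ^ 2) * N = N - t ^ 2 * ‖z‖ ^ 2 * N := by ring
      rw [this, htz, hN]; ring
    rw [h3, h4, h8, h2] at h7
    -- multiply by the denominators
    have h9 : (y i * (r + ρ i)) * (y (i + 1) * (r + ρ (i + 1))) * Real.sin (β i) ^ 2 =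
        Δ ^ 2 * (ρ i * ρ (i + 1)) := by
      have e1 : ρ i / (r + ρ i) * (ρ (i + 1) / (r + ρ (i + 1))) * ((r + ρ i) * (r + ρ (i + 1))) =
          ρ i * ρ (i + 1) := by field_simp
      calc _ = (2 * y i * (2 * y (i + 1)) * Real.sin (β i) ^ 2) * ((r + ρ i) * (r + ρ (i + 1))) / 4 := by
            ring
        _ = ((2 * Δ) ^ 2 * (ρ i / (r + ρ i) * (ρ (i + 1) / (r + ρ (i + 1))))) *
            ((r + ρ i) * (r + ρ (i + 1))) / 4 := by rw [h7]
        _ = Δ ^ 2 * (ρ i / (r + ρ i) * (ρ (i + 1) / (r + ρ (i + 1))) *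
            ((r + ρ i) * (r + ρ (i + 1)))) := by ring
        _ = _ := by rw [e1]
    rw [h5, h6] at h9
    have h10 : Δ ^ 2 = (2 * R * r) ^ 2 * (kap R z r ^ 2 - 1) := by
      rw [hΔsq]
      unfold kap
      rw [hA]
      field_simp
      ring
    have h11 : (2 * R * r) ^ 2 * (ρ i * ρ (i + 1)) ≠ 0 := by positivity
    apply mul_left_cancel₀ h11
    rw [h10] at h9
    linarith
  · intro hin i
    have hcospos : 0 < Real.cos (ang z p i / 2) := by
      apply Real.cos_pos_of_mem_Ioo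
      constructor <;> linarith [(hAn i).1, (hAn i).2]
    have h1 : 2 * (c i * hh i).re * Real.cos (ang z p i / 2) = (c i).re + (c (i + 1)).re := by
      rw [hcc, hh2]
      have hcs := Real.sin_sq_add_cos_sq (ang z p i / 2)
      simp only [Complex.mul_re, Complex.mul_im, hhre, hhim]
      linear_combination (c i).re * hcs
    have h2 := hcos i
    have hρi := h.ρpos i
    have hρi' := h.ρpos (i + 1)
    have hr1 := hrρ i
    have hr2 := hrρ (i + 1)
    have hk1 : ∀ j, 1 ≤ kap R (p j) (ρ j) := fun j => by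
      unfold kap
      have hρj := h.ρpos j
      rw [le_div_iff₀ (by positivity)]
      have h3 := hin j
      have h4 := norm_nonneg (p j)
      nlinarith
    have hkv : A ≤ 2 * R * r * kap R z r := by
      unfold kap
      have : 2 * R * r * ((R ^ 2 + r ^ 2 - ‖z‖ ^ 2) / (2 * R * r)) = R ^ 2 + r ^ 2 - ‖z‖ ^ 2 := by
        field_simp
      rw [this, hA]
      nlinarith
    -- the key inequality
    have hkey : 2 * A * (Real.sin (ang z p i / 2) ^ 2) < y i + y (i + 1) := by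
      rw [(h.arc (i + 1)).ang_sq (Nat.lt_succ_self i)]
      set g := ρ i / (r + ρ i) with hg
      set g' := ρ (i + 1) / (r + ρ (i + 1)) with hg'
      have hg0 : 0 < g := by positivity
      have hg0' : 0 < g' := by positivity
      have hg1 : g < 1 := by rw [hg, div_lt_one hr1]; linarith
      have hg1' : g' < 1 := by rw [hg', div_lt_one hr2]; linarith
      have hy1 : y i = 2 * R * r * g * (kap R z r + kap R (p i) (ρ i)) := by
        have := hyk i
        rw [hg]
        field_simp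
        linarith
      have hy2 : y (i + 1) = 2 * R * r * g' * (kap R z r + kap R (p (i + 1)) (ρ (i + 1))) := by
        have := hyk (i + 1)
        rw [hg']
        field_simp
        linarith
      have hk0 : 0 < kap R z r := by
        by_contra hcon
        push Not at hcon
        have : 2 * R * r * kap R z r ≤ 0 := mul_nonpos_of_nonneg_of_nonpos (by positivity) hcon
        linarith
      have k1 : 2 * R * r * g * kap R z r < y i := by
        rw [hy1]
        have := hk1 i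
        have h5 : 0 < 2 * R * r * g := by positivity
        nlinarith
      have k2 : 2 * R * r * g' * kap R z r < y (i + 1) := by
        rw [hy2]
        have := hk1 (i + 1)
        have h5 : 0 < 2 * R * r * g' := by positivity
        nlinarith
      have k3 : 2 * (g * g') ≤ g + g' := by nlinarith
      calc 2 * A * (g * g') = A * (2 * (g * g')) := by ring
        _ ≤ (2 * R * r * kap R z r) * (g + g') := by gcongr
        _ < y i + y (i + 1) := by linarith
    have hRe : 0 < ‖u i‖ * ‖u (i + 1)‖ * Real.cos (β i) := by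
      have e1 : (‖u i‖ * ‖u (i + 1)‖ * Real.cos (β i)) * (2 * Real.cos (ang z p i / 2)) * N =
          2 * (y i + y (i + 1) - 2 * A * Real.sin (ang z p i / 2) ^ 2) := by
        rw [h2]
        have e2 : ((1 + t ^ 2 * ‖z‖ ^ 2) * Real.cos (ang z p i / 2) - 2 * t * (c i * hh i).re) *
            (2 * Real.cos (ang z p i / 2)) * N =
            2 * (N + t ^ 2 * ‖z‖ ^ 2 * N) * Real.cos (ang z p i / 2) ^ 2 -
            2 * (t * N) * (2 * (c i * hh i).re * Real.cos (ang z p i / 2)) := by ring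
        rw [e2, h1, htz, htN, Real.cos_sq', hy, hy, hN]
        ring
      have e3 : 0 < (‖u i‖ * ‖u (i + 1)‖ * Real.cos (β i)) * (2 * Real.cos (ang z p i / 2) * N) := by
        rw [← mul_assoc, e1]; linarith
      have e4 : 0 < 2 * Real.cos (ang z p i / 2) * N := by positivity
      exact (pos_iff_pos_of_mul_pos e3).2 e4
    have hcosβ : 0 < Real.cos (β i) :=
      (pos_iff_pos_of_mul_pos hRe).1 (mul_pos (hun i) (hun (i + 1)))
    by_contra hcon
    push Not at hcon
    have := Real.cos_nonpos_of_pi_div_two_le_of_le hcon (by linarith [(hβmem i).2])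
    linarith

/-- The local discrete Schwarz lemma. -/
theorem local_schwarz {n : ℕ} {z z' : ℂ} {r r' : ℝ} {p p' : ℕ → ℂ} {ρ ρ' : ℕ → ℝ}
    (hP : Flower n z r p ρ) (hQ : Flower n z' r' p' ρ') {R R' : ℝ} (hR : 0 < R) (hR' : 0 < R')
    (hv : ‖z‖ + r < R) (hv' : ‖z'‖ + r' < R') (hp : ∀ i, ‖p i‖ + ρ i ≤ R)
    {s : ℝ} (hs : 1 < s) (h0 : kap R' z' r' = s * kap R z r)
    (h : ∀ i, kap R' (p' i) (ρ' i) ≤ s * kap R (p i) (ρ i)) : False := by
  obtain ⟨β, hβ1, hβ2, hβ3, hβ4, hβ5⟩ := hyp_angles hP hR hv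
  obtain ⟨γ, hγ1, hγ2, hγ3, hγ4, -⟩ := hyp_angles hQ hR' hv'
  have hβ6 := hβ5 hp
  have hpi := Real.pi_pos
  have hlt : ∀ i, β i < γ i := by
    intro i
    by_contra hcon
    push Not at hcon
    have h1 : Real.sin (γ i) ≤ Real.sin (β i) := by
      apply Real.sin_le_sin_of_le_of_le_pi_div_two
      · linarith [(hγ1 i).1]
      · exact (hβ6 i).le
      · exact hcon
    have h2 : 0 < Real.sin (γ i) := Real.sin_pos_of_pos_of_lt_pi (hγ1 i).1 (hγ1 i).2
    have h3 : Real.sin (γ i) ^ 2 ≤ Real.sin (β i) ^ 2 := by gcongr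
    have h4 := hβ4 i
    have h5 := hγ4 i
    have h6 := hβ3 i
    have h7 := hβ3 (i + 1)
    have h8 := hγ3 i
    have h9 := hγ3 (i + 1)
    rw [h0] at h5 h8 h9
    set k := kap R z r
    set a := kap R (p i) (ρ i)
    set b := kap R (p (i + 1)) (ρ (i + 1))
    set a' := kap R' (p' i) (ρ' i)
    set b' := kap R' (p' (i + 1)) (ρ' (i + 1))
    have ha : s * k + a' ≤ s * (k + a) := by linarith [h i]
    have hb : s * k + b' ≤ s * (k + b) := by linarith [h (i + 1)]
    have hprod : (s * k + a') * (s * k + b') ≤ (s * (k + a)) * (s * (k + b)) :=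
      mul_le_mul ha hb h9.le (by positivity)
    have h10 : (s * k) ^ 2 - 1 ≤ s ^ 2 * (k ^ 2 - 1) := by
      calc (s * k) ^ 2 - 1 = Real.sin (γ i) ^ 2 * ((s * k + a') * (s * k + b')) := h5.symm
        _ ≤ Real.sin (β i) ^ 2 * ((s * (k + a)) * (s * (k + b))) := by
            apply mul_le_mul h3 hprod (by positivity) (by positivity)
        _ = s ^ 2 * (Real.sin (β i) ^ 2 * ((k + a) * (k + b))) := by ring
        _ = s ^ 2 * (k ^ 2 - 1) := by rw [h4]
    nlinarith
  have hn := hP.three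
  have h1 : ∑ i ∈ Finset.range n, β i < ∑ i ∈ Finset.range n, γ i :=
    Finset.sum_lt_sum_of_nonempty ⟨0, by simp; omega⟩ (fun i _ => hlt i)
  rw [hβ2, hγ2] at h1
  exact lt_irrefl _ h1

end Pool.Agent.H74.Koebe
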