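import Pool.Agent.H74.Koebe.Ring
import Pool.Agent.H74.Koebe.LocalSchwarz
import Pool.Agent.H74.Koebe.FanLemma

/-! The local statements about one flower: ring lemma, star lemma, horocycle lemma, local
Schwarz lemma. -/
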