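import Pool.Agent.H74.Koebe.Bdry

/-! The discrete Koebe theorem: assembly. -/

namespace Pool.Agent.H74.Koebe

universe u

variable {V : Type u} {K : OComplex V} {P Q : Circles V} {κ : ℝ}

open OComplex

theorem exists_star (d : ℕ) : ∃ κ : ℝ, 0 < κ ∧ κ ≤ 1 ∧
    ∀ {V : Type u} {K : OComplex V} {P : Circles V}, Good K P → K.DegLE d → Star κ K P := by
  obtain ⟨κ, h0, h1, h⟩ := ring_lemma d
  refine ⟨κ, h0, h1, ?_⟩
  intro V K P hG hd
  refine ⟨h0, h1, ?_, ?_⟩
  · intro v hv x hx
    obtain ⟨n, w, hw⟩ := cyc_of_interior hv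
    obtain ⟨i, -, rfl⟩ := hw.nbr x hx
    exact h (hw.le hd) (hw.flower hG) i
  · intro v hv q hq
    obtain ⟨n, w, hw⟩ := cyc_of_interior hv
    obtain ⟨i, -, hi⟩ := (hw.flower hG).star_mem h0 (h (hw.le hd) (hw.flower hG)) hq
    exact ⟨w i, w (i + 1), hw.face i, hi⟩

lemma exists_seg {a b w : ℂ} {t : ℝ} (h1 : dist a w < t) (h2 : t ≤ dist b w) :
    ∃ q ∈ segment ℝ a b, dist q w = t := by
  have h := (convex_segment (𝕜 := ℝ) a b).isPreconnected.intermediate_value
    (left_mem_segment ℝ a b) (right_mem_segment ℝ a b)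
    (f := fun q => dist q w) (by fun_prop)
  obtain ⟨q, hq, hqt⟩ := h ⟨h1.le, h2⟩
  exact ⟨q, hq, hqt⟩

lemma exists_edge {δ : ℝ} {v0 vf : V} {w : ℂ} {t : ℝ} (h0 : dist (P.z v0) w < t)
    (hf : Flw K Q δ v0 vf) (h1 : t ≤ dist (P.z vf) w) :
    ∃ x y, Flw K Q δ v0 x ∧ Flw K Q δ v0 y ∧ K.adj x y ∧
      ∃ q ∈ segment ℝ (P.z x) (P.z y), dist q w = t := by
  have key : ∀ v, Small K Q δ v0 v → dist (P.z v) w < t ∨
      ∃ x y, Flw K Q δ v0 x ∧ Flw K Q δ v0 y ∧ K.adj x y ∧
      ∃ q ∈ segment ℝ (P.z x) (P.z y), dist q w = t := by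
    intro v hv
    induction hv with
    | refl => exact Or.inl h0
    | @tail a b ha hab ih =>
      rcases ih with ih | ih
      · by_cases hb : dist (P.z b) w < t
        · exact Or.inl hb
        · push Not at hb
          exact Or.inr ⟨a, b, Or.inl ha, Or.inl (ha.tail hab), hab.1, exists_seg ih hb⟩
      · exact Or.inr ih
  rcases hf with hf | ⟨u, hu, huv⟩
  · rcases key vf hf with h | h
    · exact absurd h1 (not_le.2 h)
    · exact h
  · rcases key u hu with h | h
    · exact ⟨u, vf, Or.inl hu, Or.inr ⟨u, hu, huv⟩, huv, exists_seg h h1⟩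
    · exact h

/-- The vertices close to the circle of radius `t` about `w`, in their own scale. -/
def near (P : Circles V) (w : ℂ) (M c t : ℝ) : Set V :=
  {v | |dist (P.z v) w - t| ≤ M * P.r v ∧ c * P.r v ≤ t ∧ P.r v ≤ dist (P.z v) w}

lemma Star.rad_le (hS : Star κ K P) (hG : Good K P) {w : ℂ} (hw : w ∉ carr K P) {v : V}
    (hv : K.Interior v) : P.r v ≤ dist (P.z v) w := by
  by_contra hcon
  push Not at hcon
  have he := eta_pos hS.pos
  have hr := hG.pos v
  obtain ⟨a, b, hf, hm⟩ := hS.cover' hr hv (q := w) (by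
    rw [dist_comm]
    nlinarith)
  exact hw (mem_carr hf hm)

lemma abs_dist_sub_le' {a b w : ℂ} {t C : ℝ} (h : dist b w = t) (hab : dist b a ≤ C) :
    |dist a w - t| ≤ C := by
  rw [← h]
  have h1 := abs_dist_sub_le a b w
  rw [dist_comm a b] at h1
  linarith

lemma Star.near_of_face (hS : Star κ K P) (hG : Good K P) {w : ℂ} (hw : w ∉ carr K P) {t : ℝ}
    {a b c v : V} (hf : K.face a b c) (ha : K.Interior a) (hb : K.Interior b)
    (hc : K.Interior c) (hv : isCorner a b c v) {q : ℂ} (hq : q ∈ tri P a b c)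
    (hqt : dist q w = t) : v ∈ near P w (2 / κ) (eta κ * κ ^ 2) t := by
  have hκ := hS.pos
  have hκ1 := hS.le
  have hI : ∀ x, isCorner a b c x → K.Interior x := by
    rintro x (rfl | rfl | rfl) <;> assumption
  refine ⟨?_, ?_, hS.rad_le hG hw (hI v hv)⟩
  · apply abs_dist_sub_le' hqt
    apply hG.dist_corner hf hv hq
    intro x hx _
    have h1 := hS.ring' hG.pos (hI x hx) (isCorner_adj hf hv hx)
    have hr := hG.pos v
    have h2 : P.r x ≤ P.r v / κ := by
      rw [le_div_iff₀ hκ]; linarith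
    have h3 : P.r v ≤ P.r v / κ := by
      rw [le_div_iff₀ hκ]; nlinarith
    calc P.r v + P.r x ≤ P.r v / κ + P.r v / κ := by linarith
      _ = 2 / κ * P.r v := by ring
  · by_contra hcon
    push Not at hcon
    obtain ⟨x, y, z, -, hf', hm⟩ := hS.near_face hG hf ha hb hc hv hq (q' := w) (by
      rw [dist_comm, hqt]; exact hcon.le)
    exact hw (mem_carr hf' hm)

lemma Star.near_of_edge (hS : Star κ K P) (hG : Good K P) {w : ℂ} (hw : w ∉ carr K P) {t : ℝ}
    {x y : V} (hxy : K.adj x y) (hx : K.Interior x) (hy : K.Interior y)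
    {q : ℂ} (hq : q ∈ segment ℝ (P.z x) (P.z y))
    (hqt : dist q w = t) : x ∈ near P w (2 / κ) (eta κ * κ ^ 2) t := by
  have hκ := hS.pos
  have hκ1 := hS.le
  have he := eta_pos hκ
  have hrx := hG.pos x
  have hry := hG.pos y
  refine ⟨?_, ?_, hS.rad_le hG hw hx⟩
  · apply abs_dist_sub_le' hqt
    have h0 : dist q (P.z x) ≤ P.r x + P.r y := by
      rw [← hG.tan hxy]
      have h5 : dist (P.z x) q + dist q (P.z y) = dist (P.z x) (P.z y) :=
        dist_add_dist_of_mem_segment hq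
      rw [dist_comm q (P.z x)]
      have := dist_nonneg (x := q) (y := P.z y)
      linarith
    have h1 := hS.ring y hy x (adj_symm hxy)
    have h2 : P.r y ≤ P.r x / κ := by
      rw [le_div_iff₀ hκ]; linarith
    have h3 : P.r x ≤ P.r x / κ := by
      rw [le_div_iff₀ hκ]; nlinarith
    calc dist q (P.z x) ≤ P.r x / κ + P.r x / κ := by linarith
      _ = 2 / κ * P.r x := by ring
  · by_contra hcon
    push Not at hcon
    have h1 : eta κ * κ ^ 2 * P.r x ≤ eta κ * κ * P.r x := by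
      have : κ ^ 2 ≤ κ := by nlinarith
      gcongr
    obtain ⟨a, b, c, -, hf', hm⟩ := hS.near_edge hG hxy hx hy hq (q' := w) (by
      rw [dist_comm, hqt]; linarith)
    exact hw (mem_carr hf' hm)

lemma lower_le_far (hG : Good K Q) {x y : V} (h : x = y ∨ K.adj x y) :
    ‖Q.z y‖ - Q.r y ≤ far Q x := by
  unfold far
  rcases h with rfl | h
  · have := hG.pos x
    linarith
  · have h2 := hG.tan h
    have h3 : ‖Q.z y‖ ≤ ‖Q.z x‖ + dist (Q.z x) (Q.z y) := by
      rw [dist_eq_norm]
      have := norm_sub_norm_le (Q.z y) (Q.z x)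
      rw [norm_sub_rev] at this
      linarith
    linarith

/-- The radii along the crossing cover the interval travelled. -/
lemma cover_interval {w : ℂ} {t : ℝ} (hQ : Good K Q) {x0 x : V}
    (h : Relation.ReflTransGen (cstep K P w t) x0 x) :
    ∀ τ ∈ Set.Icc (‖Q.z x0‖ - Q.r x0) (far Q x),
      ∃ v, Relation.ReflTransGen (cstep K P w t) x0 v ∧ τ ∈ Set.Icc (‖Q.z v‖ - Q.r v) (far Q v) := by
  induction h with
  | refl => exact fun τ hτ => ⟨x0, Relation.ReflTransGen.refl, hτ⟩
  | @tail a b ha hab ih =>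
    intro τ hτ
    by_cases hb : ‖Q.z b‖ - Q.r b ≤ τ
    · exact ⟨b, ha.tail hab, hb, hτ.2⟩
    · push Not at hb
      obtain ⟨a', b', c', hf, -, -, -, hca, hcb, -⟩ := hab
      have := lower_le_far hQ (isCorner_adj hf hca hcb)
      exact ih τ ⟨hτ.1, by linarith⟩

open MeasureTheory ENNReal in
/-- The lower bound for the sum of the radii of the maximal packing near a circle. -/
theorem circle_bound [Countable V] (hP : Good K P) (hQ : Good K Q) (hS : Star κ K P)
    (hsc : K.SimplyConnected) {w : ℂ} (hw : w ∉ carr K P) {δ c : ℝ} {v0 vf : V}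
    (hv0 : K.Interior v0) (h0 : far Q v0 < δ)
    (hH : ∀ u x, far Q u < δ → K.adj u x → K.Interior x)
    (hB : ∀ x b, far Q x < 1 / 2 → K.adj x b → ¬ K.Interior b → c ≤ Q.r x)
    (hfin : {v | far Q v < 1 / 2}.Finite)
    (hvf : Flw K Q δ v0 vf) {t : ℝ} (ht : 0 < t) (ht0 : dist (P.z v0) w < t)
    (ht1 : t ≤ dist (P.z vf) w) :
    ENNReal.ofReal (min (1 / 2 - δ) (2 * c)) ≤ ∑' v,
      (near P w (2 / κ) (eta κ * κ ^ 2) t).indicator (fun v => ENNReal.ofReal (2 * Q.r v)) v := by
  set N := near P w (2 / κ) (eta κ * κ ^ 2) t with hN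
  obtain ⟨x0, y0, hx0, hy0, hxy, q0, hq0, hq0t⟩ := exists_edge ht0 hvf ht1
  have hx0I := hx0.interior hv0 h0 hH
  have hy0I := hy0.interior hv0 h0 hH
  set T : V → Prop := fun v => ¬ K.Interior v ∨ (∃ b, K.adj v b ∧ ¬ K.Interior b) ∨
    1 / 2 ≤ far Q v with hTdef
  obtain ⟨x, hx, hTx⟩ := crossing hP hS hsc hw ht (T := T) (x0 := x0) (y0 := y0)
    (hfin.subset (by
      intro v hv
      have hv' : ¬ T v := hv
      simp only [hTdef] at hv'
      push Not at hv'
      exact hv'.2.2))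
    (by
      intro v hv
      simp only [hTdef] at hv
      push Not at hv
      exact ⟨hv.1, fun x hx => hv.2.1 x hx⟩) hxy hq0 hq0t
  have hreach : ∀ v, Relation.ReflTransGen (cstep K P w t) x0 v → v ∈ N ∧ K.Interior v := by
    intro v hv
    induction hv with
    | refl => exact ⟨hS.near_of_edge hP hw hxy hx0I hy0I hq0 hq0t, hx0I⟩
    | tail _ hab _ =>
      obtain ⟨a', b', c', hf, ha, hb, hc, -, hcb, q, hq, hqt⟩ := hab
      refine ⟨hS.near_of_face hP hw hf ha hb hc hcb hq hqt, ?_⟩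
      rcases hcb with rfl | rfl | rfl <;> assumption
  by_cases hfx : far Q x < 1 / 2
  · -- next to the boundary
    rcases hTx with h | ⟨b, hb, hbI⟩ | h
    · exact absurd (hreach x hx).2 h
    · have h1 := hB x b hfx hb hbI
      calc ENNReal.ofReal (min (1 / 2 - δ) (2 * c)) ≤ ENNReal.ofReal (2 * Q.r x) := by
            apply ENNReal.ofReal_le_ofReal
            exact (min_le_right _ _).trans (by linarith)
        _ = N.indicator (fun v => ENNReal.ofReal (2 * Q.r v)) x := by
            rw [Set.indicator_of_mem (hreach x hx).1]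
        _ ≤ _ := ENNReal.le_tsum x
    · exact absurd hfx (not_lt.2 h)
  · push Not at hfx
    have hcov := cover_interval hQ hx
    have hlow := hx0.lower hQ h0
    calc ENNReal.ofReal (min (1 / 2 - δ) (2 * c)) ≤ ENNReal.ofReal (1 / 2 - δ) :=
          ENNReal.ofReal_le_ofReal (min_le_left _ _)
      _ = volume (Set.Icc δ (1 / 2)) := by rw [Real.volume_Icc]
      _ ≤ volume (⋃ v, {τ : ℝ | v ∈ N ∧ τ ∈ Set.Icc (‖Q.z v‖ - Q.r v) (far Q v)}) := by
          apply measure_mono
          intro τ hτ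
          obtain ⟨v, hv, hτv⟩ := hcov τ ⟨by linarith [hτ.1], by linarith [hτ.2]⟩
          exact Set.mem_iUnion.2 ⟨v, (hreach v hv).1, hτv⟩
      _ ≤ ∑' v, volume {τ : ℝ | v ∈ N ∧ τ ∈ Set.Icc (‖Q.z v‖ - Q.r v) (far Q v)} :=
          measure_iUnion_le _
      _ ≤ _ := by
          apply ENNReal.tsum_le_tsum
          intro v
          by_cases hv : v ∈ N
          · rw [Set.indicator_of_mem hv]
            have : {τ : ℝ | v ∈ N ∧ τ ∈ Set.Icc (‖Q.z v‖ - Q.r v) (far Q v)} =
                Set.Icc (‖Q.z v‖ - Q.r v) (far Q v) := by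
              ext τ
              exact ⟨fun h => h.2, fun h => ⟨hv, h⟩⟩
            rw [this, Real.volume_Icc]
            apply le_of_eq
            congr 1
            unfold far
            ring
          · rw [Set.indicator_of_notMem hv]
            have : {τ : ℝ | v ∈ N ∧ τ ∈ Set.Icc (‖Q.z v‖ - Q.r v) (far Q v)} = ∅ := by
              ext τ
              exact ⟨fun h => absurd h.1 hv, fun h => absurd h (by simp)⟩
            rw [this, measure_empty]

end Pool.Agent.H74.Koebe
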