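import Pool.Agent.H74.Koebe.Global

/-! In a simply connected complex every real cocycle has a potential. -/

namespace Pool.Agent.H74.Koebe

universe u

variable {V : Type u} {K : OComplex V}

/-- The sum of `ω` along an edge path. -/
def psum (ω : V → V → ℝ) : List V → ℝ
  | [] => 0
  | [_] => 0
  | x :: y :: l => ω x y + psum ω (y :: l)

lemma psum_cons (ω : V → V → ℝ) (x y : V) (l : List V) :
    psum ω (x :: y :: l) = ω x y + psum ω (y :: l) := rfl

lemma psum_append (ω : V → V → ℝ) (l : List V) (x : V) (m : List V) :
    psum ω (l ++ x :: m) = psum ω (l ++ [x]) + psum ω (x :: m) := by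
  induction l with
  | nil => simp [psum]
  | cons a l ih =>
    cases l with
    | nil =>
      simp only [List.cons_append, List.nil_append]
      rw [psum_cons, psum_cons]
      simp [psum]
    | cons b l =>
      simp only [List.cons_append] at ih ⊢
      rw [psum_cons, psum_cons, ih]
      ring

lemma psum_homotopic (ω : V → V → ℝ) (h1 : ∀ x y, K.adj x y → ω x y + ω y x = 0)
    (h2 : ∀ x y z, (K.face x y z ∨ K.face z y x) → ω x y + ω y z = ω x z) {l l' : List V}
    (h : K.Homotopic l l') : psum ω l = psum ω l' := by
  induction h with
  | refl => rfl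
  | symm _ ih => exact ih.symm
  | trans _ _ ih1 ih2 => exact ih1.trans ih2
  | back l l' h =>
    rename_i x y
    rw [psum_append, psum_append ω l x l', psum_cons, psum_cons]
    have := h1 x y h
    linarith
  | tri l l' h =>
    rename_i x y z
    rw [psum_append, psum_append ω l x (z :: l'), psum_cons, psum_cons, psum_cons, ← h2 x y z h]
    ring

lemma psum_reverse (ω : V → V → ℝ) (h1 : ∀ x y, K.adj x y → ω x y + ω y x = 0) {l : List V}
    (hl : List.IsChain K.adj l) : psum ω l.reverse = - psum ω l := by
  induction l with
  | nil => simp [psum]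
  | cons a l ih =>
    cases l with
    | nil => simp [psum]
    | cons b l =>
      rw [List.isChain_cons_cons] at hl
      have h := ih hl.2
      rw [psum_cons]
      simp only [List.reverse_cons, List.append_assoc, List.cons_append, List.nil_append] at h ⊢
      rw [psum_append, h, psum_cons]
      have := h1 a b hl.1
      simp only [psum]
      linarith

/-- Exactness of real cocycles on a connected simply connected complex. -/
theorem exists_potential (hc : K.Connected) (hs : K.SimplyConnected) (v0 : V) (ω : V → V → ℝ)
    (h1 : ∀ x y, K.adj x y → ω x y + ω y x = 0)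
    (h2 : ∀ x y z, (K.face x y z ∨ K.face z y x) → ω x y + ω y z = ω x z) :
    ∃ θ : V → ℝ, ∀ x y, K.adj x y → θ y - θ x = ω x y := by
  have hch : ∀ v, ∃ l, List.IsChain K.adj (v0 :: l) ∧
      (v0 :: l).getLast (List.cons_ne_nil _ _) = v := fun v =>
    List.exists_isChain_cons_of_relationReflTransGen (hc v0 v)
  choose L hL hlast using hch
  refine ⟨fun v => psum ω (v0 :: L v), fun x y hxy => ?_⟩
  -- decompose the chain to `x` at its last vertex and the reversed chain to `y` at its first
  obtain ⟨A, hA⟩ : ∃ A, v0 :: L x = A ++ [x] := by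
    refine ⟨(v0 :: L x).dropLast, ?_⟩
    have := List.dropLast_append_getLast (List.cons_ne_nil v0 (L x))
    rw [hlast] at this
    exact this.symm
  obtain ⟨B, hB⟩ : ∃ B, v0 :: L y = B ++ [y] := by
    refine ⟨(v0 :: L y).dropLast, ?_⟩
    have := List.dropLast_append_getLast (List.cons_ne_nil v0 (L y))
    rw [hlast] at this
    exact this.symm
  have hBr : (v0 :: L y).reverse = y :: B.reverse := by rw [hB]; simp
  have hrev : List.IsChain K.adj (v0 :: L y).reverse := by
    rw [List.isChain_reverse]
    exact (hL y).imp fun a b h => OComplex.adj_symm h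
  have hchain : List.IsChain K.adj ((v0 :: L x) ++ (v0 :: L y).reverse) := by
    rw [List.isChain_append]
    refine ⟨hL x, hrev, ?_⟩
    rw [hA, hBr]
    intro a ha b hb
    simp only [List.getLast?_append, List.getLast?_singleton, Option.some_or,
      Option.mem_def, Option.some.injEq, List.head?_cons] at ha hb
    rw [← ha, ← hb]
    exact hxy
  have hform : (v0 :: L x) ++ (v0 :: L y).reverse = v0 :: ((L x ++ (L y).reverse) ++ [v0]) := by
    simp
  have hhom := hs v0 (L x ++ (L y).reverse) (by rw [← hform]; exact hchain)
  have hz := psum_homotopic ω h1 h2 hhom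
  rw [← hform] at hz
  have e1 : psum ω ((v0 :: L x) ++ (v0 :: L y).reverse) =
      psum ω (v0 :: L x) + ω x y + psum ω (v0 :: L y).reverse := by
    rw [hA, hBr, List.append_assoc, List.cons_append, List.nil_append, psum_append, psum_cons]
    ring
  rw [e1, psum_reverse ω h1 (hL y)] at hz
  simp only [psum] at hz
  linarith

end Pool.Agent.H74.Koebe
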