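import Pool.Agent.H74.Koebe.AngleSum

/-! The ring lemma. -/

namespace Pool.Agent.H74.Koebe

variable {n m : ℕ} {z : ℂ} {r : ℝ} {p : ℕ → ℂ} {ρ : ℕ → ℝ}

/-- The square root of the relative size of a petal. -/
noncomputable def sg (r : ℝ) (ρ : ℕ → ℝ) (i : ℕ) : ℝ := Real.sqrt (ρ i / (r + ρ i))

namespace Arc

variable (h : Arc m z r p ρ)
include h

lemma sg_sq {i : ℕ} (hi : i ≤ m) : sg r ρ i ^ 2 = ρ i / (r + ρ i) := by
  unfold sg
  have h1 := h.rad_pos hi
  have h2 := h.ρpos i hi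
  rw [Real.sq_sqrt (by positivity)]

lemma sg_pos {i : ℕ} (hi : i ≤ m) : 0 < sg r ρ i := by
  unfold sg
  have h1 := h.rad_pos hi
  have h2 := h.ρpos i hi
  apply Real.sqrt_pos.2
  positivity

lemma sg_le_one {i : ℕ} (hi : i ≤ m) : sg r ρ i ≤ 1 := by
  unfold sg
  have h1 := h.rad_pos hi
  have h2 := h.rpos
  rw [Real.sqrt_le_one]
  rw [div_le_one h1]
  linarith

lemma sin_half {i : ℕ} (hi : i < m) :
    Real.sin (ang z p i / 2) = sg r ρ i * sg r ρ (i + 1) := by
  have h1 := h.ang_sq hi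
  have h2 := h.ang_mem hi
  have h3 : 0 ≤ Real.sin (ang z p i / 2) := by
    apply Real.sin_nonneg_of_nonneg_of_le_pi <;> linarith
  rw [← h.sg_sq hi.le, ← h.sg_sq (show i + 1 ≤ m by omega), ← mul_pow] at h1
  have h4 := h.sg_pos hi.le
  have h5 := h.sg_pos (show i + 1 ≤ m by omega)
  exact (pow_left_inj₀ h3 (by positivity) two_ne_zero).1 h1

lemma ang_le {i : ℕ} (hi : i < m) : ang z p i ≤ Real.pi * (sg r ρ i * sg r ρ (i + 1)) := by
  rw [← h.sin_half hi]
  have h2 := h.ang_mem hi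
  have h3 := Real.mul_le_sin (x := ang z p i / 2) (by linarith) (by linarith)
  have hpi := Real.pi_pos
  have h4 : ang z p i = Real.pi * (2 / Real.pi * (ang z p i / 2)) := by
    field_simp
  calc ang z p i = Real.pi * (2 / Real.pi * (ang z p i / 2)) := h4
    _ ≤ _ := by gcongr

lemma sep {i j : ℕ} (hij : i ≤ j) (hj : j ≤ m) (hd : ρ i + ρ j ≤ dist (p i) (p j)) :
    2 * (sg r ρ i * sg r ρ j) ≤ th z p j - th z p i := by
  have h1 := h.sep_sq (show i ≤ m by omega) hj hd
  have h2 := h.th_mono hij hj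
  rw [← h.sg_sq (show i ≤ m by omega), ← h.sg_sq hj, ← mul_pow] at h1
  have h4 := h.sg_pos (show i ≤ m by omega)
  have h5 := h.sg_pos hj
  have h6 : sg r ρ i * sg r ρ j ≤ |Real.sin ((th z p j - th z p i) / 2)| := by
    rw [← abs_of_nonneg (show 0 ≤ sg r ρ i * sg r ρ j by positivity)]
    exact sq_le_sq.1 h1
  have h7 : |Real.sin ((th z p j - th z p i) / 2)| ≤ |(th z p j - th z p i) / 2| :=
    Real.abs_sin_le_abs
  rw [abs_of_nonneg (show 0 ≤ (th z p j - th z p i) / 2 by linarith)] at h7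
  linarith

end Arc

/-- One step of the ring recursion. -/
noncomputable def ringF (D : ℕ) (c : ℝ) : ℝ := 2 * c ^ 2 / (Real.pi * D)

/-- The iterated ring bound. -/
noncomputable def ringG (D : ℕ) : ℕ → ℝ → ℝ
  | 0, c => c
  | k + 1, c => ringG D k (ringF D c)

lemma ringF_pos {D : ℕ} (hD : 1 ≤ D) {c : ℝ} (hc : 0 < c) : 0 < ringF D c := by
  unfold ringF
  have : (0 : ℝ) < D := by exact_mod_cast hD
  have := Real.pi_pos
  positivity

lemma ringF_le {D : ℕ} (hD : 1 ≤ D) {c : ℝ} (hc : 0 < c) (hc1 : c ≤ 1) : ringF D c ≤ c := by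
  unfold ringF
  have h1 : (1 : ℝ) ≤ D := by exact_mod_cast hD
  have h2 := Real.pi_gt_three
  rw [div_le_iff₀ (by positivity)]
  have h3 : 2 * c ≤ Real.pi * D := by nlinarith
  nlinarith

lemma ringG_pos {D : ℕ} (hD : 1 ≤ D) (k : ℕ) : ∀ {c : ℝ}, 0 < c → 0 < ringG D k c := by
  induction k with
  | zero => exact fun h => h
  | succ k ih => exact fun h => ih (ringF_pos hD h)

lemma ringG_le {D : ℕ} (hD : 1 ≤ D) (k : ℕ) : ∀ {c : ℝ}, 0 < c → c ≤ 1 → ringG D k c ≤ c := by
  induction k with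
  | zero => exact fun _ _ => le_rfl
  | succ k ih =>
    intro c h h1
    have h2 := ringF_le hD h h1
    exact (ih (ringF_pos hD h) (h2.trans h1)).trans h2

lemma ringG_anti {D : ℕ} (hD : 1 ≤ D) {k l : ℕ} (hkl : k ≤ l) : ∀ {c : ℝ}, 0 < c → c ≤ 1 →
    ringG D l c ≤ ringG D k c := by
  induction k generalizing l with
  | zero => exact fun h h1 => ringG_le hD l h h1
  | succ k ih =>
    intro c h h1
    obtain ⟨l, rfl⟩ : ∃ l', l = l' + 1 := ⟨l - 1, by omega⟩
    exact ih (by omega) (ringF_pos hD h) ((ringF_le hD h h1).trans h1)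

/-- The gap lemma: between two large petals all petals are large. -/
theorem gap {D : ℕ} (hD : 1 ≤ D) (σ a : ℕ → ℝ) : ∀ (L l : ℕ), L ≤ D →
    (∀ i, l ≤ i → i ≤ l + L → 0 < σ i ∧ σ i ≤ 1) →
    (∀ k, l ≤ k → k < l + L → a k ≤ Real.pi * (σ k * σ (k + 1))) →
    (∀ i j, l ≤ i → i < j → j ≤ l + L → 2 * (σ i * σ j) ≤ ∑ k ∈ Finset.Ico i j, a k) →
    ∀ c, 0 < c → c ≤ 1 → c ≤ σ l → c ≤ σ (l + L) → ∀ i, l ≤ i → i ≤ l + L → ringG D L c ≤ σ i := by
  intro L
  induction L using Nat.strong_induction_on with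
  | _ L ih =>
    intro l hL hσ ha hs c hc hc1 hl hu i hi hi'
    rcases Nat.eq_zero_or_pos L with h0 | h0
    · subst h0
      have : i = l := by omega
      rw [this]
      exact hl
    · -- a large angle
      have hsum := hs l (l + L) le_rfl (by omega) le_rfl
      have hD' : (1 : ℝ) ≤ D := by exact_mod_cast hD
      have hL' : (L : ℝ) ≤ D := by exact_mod_cast hL
      have hcc : 2 * c ^ 2 ≤ 2 * (σ l * σ (l + L)) := by
        have h1 : c * c ≤ σ l * σ (l + L) := mul_le_mul hl hu hc.le (hc.le.trans hl)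
        nlinarith
      obtain ⟨k, hk, hka⟩ : ∃ k ∈ Finset.Ico l (l + L), 2 * c ^ 2 / D ≤ a k := by
        by_contra hcon
        push Not at hcon
        have h1 : ∑ k ∈ Finset.Ico l (l + L), a k < ∑ k ∈ Finset.Ico l (l + L), 2 * c ^ 2 / D :=
          Finset.sum_lt_sum_of_nonempty ⟨l, by simp; omega⟩ hcon
        rw [Finset.sum_const, Nat.card_Ico, nsmul_eq_mul, show l + L - l = L by omega] at h1
        have h2 : (L : ℝ) * (2 * c ^ 2 / D) ≤ D * (2 * c ^ 2 / D) := by gcongr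
        have h3 : (D : ℝ) * (2 * c ^ 2 / D) = 2 * c ^ 2 := by field_simp
        linarith
      rw [Finset.mem_Ico] at hk
      have hk1 := ha k hk.1 hk.2
      have hpi := Real.pi_pos
      have hprod : ringF D c ≤ σ k * σ (k + 1) := by
        unfold ringF
        rw [div_le_iff₀ (by positivity)]
        rw [div_le_iff₀ (by positivity)] at hka
        nlinarith
      obtain ⟨h1, h2⟩ := hσ k hk.1 (by omega)
      obtain ⟨h3, h4⟩ := hσ (k + 1) (by omega) (by omega)
      have hF0 := ringF_pos hD hc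
      have hFc := ringF_le hD hc hc1
      have hk2 : ringF D c ≤ σ k := by nlinarith
      have hk3 : ringF D c ≤ σ (k + 1) := by nlinarith
      obtain ⟨L', rfl⟩ : ∃ L', L = L' + 1 := ⟨L - 1, by omega⟩
      show ringG D L' (ringF D c) ≤ σ i
      rcases Nat.lt_or_ge k i with h5 | h5
      · -- right part
        have h6 := ih (l + (L' + 1) - (k + 1)) (by omega) (k + 1) (by omega)
          (fun i hi hi' => hσ i (by omega) (by omega)) (fun k hk hk' => ha k (by omega) (by omega))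
          (fun i j hi hij hj => hs i j (by omega) hij (by omega)) (ringF D c) hF0
          (hFc.trans hc1) hk3 (by
            rw [show k + 1 + (l + (L' + 1) - (k + 1)) = l + (L' + 1) by omega]
            exact hFc.trans hu) i (by omega) (by omega)
        exact (ringG_anti hD (by omega) hF0 (hFc.trans hc1)).trans h6
      · have h6 := ih (k - l) (by omega) l (by omega)
          (fun i hi hi' => hσ i (by omega) (by omega)) (fun k hk hk' => ha k (by omega) (by omega))
          (fun i j hi hij hj => hs i j (by omega) hij (by omega)) (ringF D c) hF0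
          (hFc.trans hc1) (hFc.trans hl) (by
            rw [show l + (k - l) = k by omega]
            exact hk2) i (by omega) (by omega)
        exact (ringG_anti hD (by omega) hF0 (hFc.trans hc1)).trans h6

lemma sum_ang (z : ℂ) (p : ℕ → ℂ) {i j : ℕ} (hij : i ≤ j) :
    ∑ k ∈ Finset.Ico i j, ang z p k = th z p j - th z p i := by
  unfold th
  rw [Finset.sum_Ico_eq_sub _ hij]

lemma rho_ge {r ρ' s : ℝ} (hr : 0 < r) (hρ : 0 < ρ') (h : s ^ 2 ≤ ρ' / (r + ρ')) :
    s ^ 2 * r ≤ ρ' := by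
  rw [le_div_iff₀ (by linarith)] at h
  have := sq_nonneg s
  nlinarith

/-- The ring lemma for closed flowers of bounded degree. -/
theorem ring_lemma (d : ℕ) : ∃ κ : ℝ, 0 < κ ∧ κ ≤ 1 ∧ ∀ {n : ℕ} {z : ℂ} {r : ℝ} {p : ℕ → ℂ}
    {ρ : ℕ → ℝ}, n ≤ d → Flower n z r p ρ → ∀ i, κ * r ≤ ρ i := by
  by_cases hd : d < 3
  · refine ⟨1, one_pos, le_rfl, ?_⟩
    intro n z r p ρ hn h
    have := h.three
    omega
  push Not at hd
  have hd1 : 1 ≤ d := by omega
  have hd0 : (0 : ℝ) < d := by exact_mod_cast hd1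
  have hc0 : (0 : ℝ) < 2 / d := by positivity
  have hc1 : (2 : ℝ) / d ≤ 1 := by
    rw [div_le_one hd0]
    have : (3 : ℝ) ≤ d := by exact_mod_cast hd
    linarith
  have hG0 := ringG_pos hd1 d hc0
  have hG1 := (ringG_le hd1 d hc0 hc1).trans hc1
  refine ⟨(ringG d d (2 / d)) ^ 2, by positivity, pow_le_one₀ hG0.le hG1, ?_⟩
  intro n z r p ρ hn h
  have hn3 := h.three
  have hn0 : (0 : ℝ) < n := by exact_mod_cast (show 0 < n by omega)
  have hnd : (n : ℝ) ≤ d := by exact_mod_cast hn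
  have hA := h.arc (2 * n)
  have hpi := Real.pi_pos
  -- a large pair of consecutive petals
  obtain ⟨k, hk, hkp⟩ : ∃ k ∈ Finset.range n, 2 / (n : ℝ) ≤ sg r ρ k * sg r ρ (k + 1) := by
    by_contra hcon
    push Not at hcon
    have h1 : ∑ k ∈ Finset.range n, ang z p k < ∑ k ∈ Finset.range n, Real.pi * (2 / (n : ℝ)) := by
      apply Finset.sum_lt_sum_of_nonempty ⟨0, by simp; omega⟩
      intro k hk
      have hk' := Finset.mem_range.1 hk
      calc ang z p k ≤ Real.pi * (sg r ρ k * sg r ρ (k + 1)) := hA.ang_le (by omega)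
        _ < Real.pi * (2 / (n : ℝ)) := by gcongr; exact hcon k hk
    have h2 := h.angle_sum
    unfold th at h2
    rw [h2, Finset.sum_const, Finset.card_range, nsmul_eq_mul] at h1
    have h3 : (n : ℝ) * (Real.pi * (2 / n)) = 2 * Real.pi := by field_simp
    linarith
  have hk' := Finset.mem_range.1 hk
  have hdn : (2 : ℝ) / d ≤ 2 / n := by gcongr
  have hsk1 : 2 / (d : ℝ) ≤ sg r ρ k := by
    have h1 := hA.sg_pos (show k ≤ 2 * n by omega)
    have h2 := hA.sg_le_one (show k + 1 ≤ 2 * n by omega)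
    nlinarith
  have hsk2 : 2 / (d : ℝ) ≤ sg r ρ (k + 1) := by
    have h1 := hA.sg_pos (show k + 1 ≤ 2 * n by omega)
    have h2 := hA.sg_le_one (show k ≤ 2 * n by omega)
    nlinarith
  have hper : ∀ i, sg r ρ (i + n) = sg r ρ i := by
    intro i; unfold sg; rw [h.perρ]
  have hdis : ∀ i j, i < j → j < i + n → ρ i + ρ j ≤ dist (p i) (p j) := by
    -- reduce modulo `n`
    have hpm : ∀ i, p i = p (i % n) ∧ ρ i = ρ (i % n) := by
      intro i
      have h1 : ∀ q s : ℕ, p (s + n * q) = p s ∧ ρ (s + n * q) = ρ s := by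
        intro q s
        induction q with
        | zero => simp
        | succ q ih =>
          rw [show s + n * (q + 1) = (s + n * q) + n by ring, h.per, h.perρ]
          exact ih
      have h2 := h1 (i / n) (i % n)
      rw [Nat.mod_add_div] at h2
      exact h2
    intro i j hij hj
    rw [(hpm i).1, (hpm i).2, (hpm j).1, (hpm j).2]
    apply h.disj _ (Nat.mod_lt _ (by omega)) _ (Nat.mod_lt _ (by omega))
    intro hmod
    have h3 : (j - i) % n = 0 := by
      have h4 : i ≡ j [MOD n] := hmod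
      exact (Nat.modEq_iff_dvd' hij.le).1 h4 |> Nat.eq_zero_of_dvd_of_lt |> fun f => by
        have := f (by omega)
        omega
    have h5 : (j - i) % n = j - i := Nat.mod_eq_of_lt (by omega)
    omega
  -- the gap lemma on the chain from `k + 1` to `k + n`
  have hgap := gap hd1 (sg r ρ) (ang z p) (n - 1) (k + 1) (by omega)
    (fun i hi hi' => ⟨hA.sg_pos (by omega), hA.sg_le_one (by omega)⟩)
    (fun i hi hi' => hA.ang_le (by omega))
    (fun i j hi hij hj => by
      rw [sum_ang z p hij.le]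
      exact hA.sep hij.le (by omega) (hdis i j hij (by omega)))
    (2 / d) hc0 hc1 hsk2 (by
      rw [show k + 1 + (n - 1) = k + n by omega, hper]
      exact hsk1)
  intro i
  -- find a representative of `i` in the chain
  obtain ⟨j, hj1, hj2, hj3⟩ : ∃ j, k + 1 ≤ j ∧ j ≤ k + n ∧ ρ j = ρ i := by
    have h1 : ∀ q s : ℕ, ρ (s + n * q) = ρ s := by
      intro q s
      induction q with
      | zero => simp
      | succ q ih =>
        rw [show s + n * (q + 1) = (s + n * q) + n by ring, h.perρ]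
        exact ih
    have h2 : ρ (i % n) = ρ i := by
      have := h1 (i / n) (i % n)
      rw [Nat.mod_add_div] at this
      exact this.symm
    have h3 := Nat.mod_lt i (show 0 < n by omega)
    by_cases h4 : k + 1 ≤ i % n
    · exact ⟨i % n, h4, by omega, h2⟩
    · exact ⟨i % n + n, by omega, by omega, by rw [h.perρ]; exact h2⟩
  have h4 := hgap j hj1 (by omega)
  have h5 : ringG d d (2 / d) ≤ sg r ρ j :=
    (ringG_anti hd1 (by omega) hc0 hc1).trans h4
  have h6 : (ringG d d (2 / d)) ^ 2 ≤ ρ j / (r + ρ j) := by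
    rw [← hA.sg_sq (show j ≤ 2 * n by omega)]
    gcongr
  rw [← hj3]
  exact rho_ge h.rpos (h.ρpos j) h6

/-- The star of an interior disc contains a definite neighbourhood of the closed disc. -/
theorem Flower.star_mem {n : ℕ} {z : ℂ} {r : ℝ} {p : ℕ → ℂ} {ρ : ℕ → ℝ} (h : Flower n z r p ρ)
    {κ : ℝ} (hκ : 0 < κ) (hr : ∀ i, κ * r ≤ ρ i) {q : ℂ}
    (hq : (dist q z) ^ 2 ≤ (1 + 2 * κ) * r ^ 2) :
    ∃ i < n, q ∈ convexHull ℝ ({z, p i, p (i + 1)} : Set ℂ) := by
  obtain ⟨i, hi, h1, h2⟩ := h.cone q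
  refine ⟨i, hi, ?_⟩
  have hpos := h.pos i
  rw [mem_tri_iff hpos]
  have e3 : cr (z - p (i + 1)) (q - p (i + 1)) = cr (q - z) (p (i + 1) - z) := by
    simp only [cr, Complex.sub_re, Complex.sub_im]; ring
  have hs := cr_sum z (p i) (p (i + 1)) q
  rw [e3] at hs
  refine ⟨h1, ?_, by rw [e3]; exact h2⟩
  by_contra hmid
  push Not at hmid
  set D := cr (p i - z) (p (i + 1) - z) with hD
  set α := cr (q - z) (p (i + 1) - z) with hα
  set β := cr (p i - z) (q - z) with hβ
  have hαβ : D < α + β := by linarith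
  have hre : D * (q.re - z.re) = α * ((p i).re - z.re) + β * ((p (i + 1)).re - z.re) := by
    simp only [hD, hα, hβ, cr, Complex.sub_re, Complex.sub_im]; ring
  have him : D * (q.im - z.im) = α * ((p i).im - z.im) + β * ((p (i + 1)).im - z.im) := by
    simp only [hD, hα, hβ, cr, Complex.sub_re, Complex.sub_im]; ring
  have n0 : (dist q z) ^ 2 = (q.re - z.re) ^ 2 + (q.im - z.im) ^ 2 := by
    rw [dist_eq_norm, normsq_eq, Complex.sub_re, Complex.sub_im]
  have n1 : ((p i).re - z.re) ^ 2 + ((p i).im - z.im) ^ 2 = (r + ρ i) ^ 2 := by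
    rw [← h.spoke i, dist_comm, dist_eq_norm, normsq_eq, Complex.sub_re, Complex.sub_im]
  have n2 : ((p (i + 1)).re - z.re) ^ 2 + ((p (i + 1)).im - z.im) ^ 2 = (r + ρ (i + 1)) ^ 2 := by
    rw [← h.spoke (i + 1), dist_comm, dist_eq_norm, normsq_eq, Complex.sub_re, Complex.sub_im]
  have n3 : ((p i).re - (p (i + 1)).re) ^ 2 + ((p i).im - (p (i + 1)).im) ^ 2 =
      (ρ i + ρ (i + 1)) ^ 2 := by
    rw [← h.rim i, dist_eq_norm, normsq_eq, Complex.sub_re, Complex.sub_im]
  have hr0 := h.rpos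
  have hρi := h.ρpos i
  have hρi' := h.ρpos (i + 1)
  have hki := hr i
  have hki' := hr (i + 1)
  -- the inner product of the spokes
  have n4 : ((p i).re - z.re) * ((p (i + 1)).re - z.re) +
      ((p i).im - z.im) * ((p (i + 1)).im - z.im) =
      r ^ 2 + r * ρ i + r * ρ (i + 1) - ρ i * ρ (i + 1) := by nlinarith
  have n5 : D ^ 2 * (dist q z) ^ 2 = (α + β) ^ 2 * r ^ 2 +
      2 * r * (α + β) * (α * ρ i + β * ρ (i + 1)) + (α * ρ i - β * ρ (i + 1)) ^ 2 := by
    rw [n0]
    have e : D ^ 2 * ((q.re - z.re) ^ 2 + (q.im - z.im) ^ 2) =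
        (D * (q.re - z.re)) ^ 2 + (D * (q.im - z.im)) ^ 2 := by ring
    rw [e, hre, him]
    have e2 : (α * ((p i).re - z.re) + β * ((p (i + 1)).re - z.re)) ^ 2 +
        (α * ((p i).im - z.im) + β * ((p (i + 1)).im - z.im)) ^ 2 =
        α ^ 2 * (((p i).re - z.re) ^ 2 + ((p i).im - z.im) ^ 2) +
        β ^ 2 * (((p (i + 1)).re - z.re) ^ 2 + ((p (i + 1)).im - z.im) ^ 2) +
        2 * α * β * (((p i).re - z.re) * ((p (i + 1)).re - z.re) +
      ((p i).im - z.im) * ((p (i + 1)).im - z.im)) := by ring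
    rw [e2, n1, n2, n4]
    ring
  have n6 : κ * r * (α + β) ≤ α * ρ i + β * ρ (i + 1) := by
    have k1 := mul_le_mul_of_nonneg_left hki h2
    have k2 := mul_le_mul_of_nonneg_left hki' h1
    linarith
  have hαβ0 : 0 < α + β := by linarith
  have n7 : (α + β) ^ 2 * ((1 + 2 * κ) * r ^ 2) ≤ D ^ 2 * (dist q z) ^ 2 := by
    rw [n5]
    have h8 : 2 * r * (α + β) * (κ * r * (α + β)) ≤ 2 * r * (α + β) * (α * ρ i + β * ρ (i + 1)) := by
      gcongr
    have h9 := sq_nonneg (α * ρ i - β * ρ (i + 1))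
    linarith
  have n8 : D ^ 2 * (dist q z) ^ 2 ≤ D ^ 2 * ((1 + 2 * κ) * r ^ 2) := by gcongr
  have n9 : D ^ 2 < (α + β) ^ 2 := by gcongr
  have n10 : 0 < (1 + 2 * κ) * r ^ 2 := by positivity
  have n11 := mul_lt_mul_of_pos_right n9 n10
  linarith

end Pool.Agent.H74.Koebe
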