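import Pool.Agent.H74.Koebe.Setup
import Pool.Agent.H74.Koebe.Local

/-! The discrete Schwarz lemma on a component of small discs. -/

namespace Pool.Agent.H74.Koebe

universe u

variable {V : Type u} {K : OComplex V} {P Q : Circles V} {κ : ℝ}

open OComplex

/-- The union of the closed disc reaches from `0` to this distance. -/
noncomputable def far (Q : Circles V) (v : V) : ℝ := ‖Q.z v‖ + Q.r v

/-- The component of `v0` among the discs inside the disc of radius `δ`. -/
def Small (K : OComplex V) (Q : Circles V) (δ : ℝ) (v0 v : V) : Prop :=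
  Relation.ReflTransGen (fun x y => K.adj x y ∧ far Q y < δ) v0 v

/-- The component together with its neighbours. -/
def Flw (K : OComplex V) (Q : Circles V) (δ : ℝ) (v0 v : V) : Prop :=
  Small K Q δ v0 v ∨ ∃ u, Small K Q δ v0 u ∧ K.adj u v

lemma Small.far_lt {δ : ℝ} {v0 v : V} (h0 : far Q v0 < δ) (h : Small K Q δ v0 v) :
    far Q v < δ := by
  induction h with
  | refl => exact h0
  | tail _ h _ => exact h.2

lemma Small.interior {δ : ℝ} {v0 v : V} (hv0 : K.Interior v0) (h0 : far Q v0 < δ)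
    (hH : ∀ u x, far Q u < δ → K.adj u x → K.Interior x) (h : Small K Q δ v0 v) :
    K.Interior v := by
  induction h with
  | refl => exact hv0
  | tail h1 h2 _ => exact hH _ _ (Small.far_lt h0 h1) h2.1

lemma Flw.interior {δ : ℝ} {v0 v : V} (hv0 : K.Interior v0) (h0 : far Q v0 < δ)
    (hH : ∀ u x, far Q u < δ → K.adj u x → K.Interior x) (h : Flw K Q δ v0 v) :
    K.Interior v := by
  rcases h with h | ⟨u, hu, huv⟩
  · exact h.interior hv0 h0 hH
  · exact hH _ _ (hu.far_lt h0) huv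

lemma Flw.lower {δ : ℝ} {v0 v : V} (hG : Good K Q) (h0 : far Q v0 < δ) (h : Flw K Q δ v0 v) :
    ‖Q.z v‖ - Q.r v < δ := by
  rcases h with h | ⟨u, hu, huv⟩
  · have := h.far_lt h0
    unfold far at this
    have := hG.pos v
    linarith
  · have h1 := hu.far_lt h0
    unfold far at h1
    have h2 := hG.tan huv
    have h3 : ‖Q.z v‖ ≤ ‖Q.z u‖ + dist (Q.z u) (Q.z v) := by
      rw [dist_eq_norm]
      have := norm_sub_norm_le (Q.z v) (Q.z u)
      rw [norm_sub_rev] at this
      linarith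
    linarith

lemma kap_gt_one {R r : ℝ} {z : ℂ} (hR : 0 < R) (hr : 0 < r) (h : ‖z‖ + r < R) :
    1 < kap R z r := by
  unfold kap
  rw [lt_div_iff₀ (by positivity)]
  have := norm_nonneg z
  nlinarith

lemma kap_le_one {R r : ℝ} {z : ℂ} (hR : 0 < R) (hr : 0 < r) (h : |R - r| ≤ ‖z‖) :
    kap R z r ≤ 1 := by
  unfold kap
  rw [div_le_one (by positivity)]
  have h1 : |R - r| ^ 2 ≤ ‖z‖ ^ 2 := by
    have := abs_nonneg (R - r)
    gcongr
  rw [sq_abs] at h1
  nlinarith

/-- The discrete Schwarz lemma: the image of the flower of the component of small discs reaches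
distance `δ`. -/
theorem schwarz {δ : ℝ} {v0 : V} (hP : Good K P) (hQ : Good K Q) (hv0 : K.Interior v0)
    (hPz : P.z v0 = 0) (hQz : Q.z v0 = 0) (hr : P.r v0 = Q.r v0) (h0 : far Q v0 < δ)
    (hH : ∀ u x, far Q u < δ → K.adj u x → K.Interior x) (hfin : {v | Flw K Q δ v0 v}.Finite) :
    ∃ v, Flw K Q δ v0 v ∧ δ ≤ ‖P.z v‖ + P.r v := by
  by_contra hcon
  push Not at hcon
  set S : Set V := {v | Flw K Q δ v0 v} with hSdef
  have hv0S : v0 ∈ S := Or.inl Relation.ReflTransGen.refl
  have hne : S.Nonempty := ⟨v0, hv0S⟩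
  obtain ⟨m0, hm0S, hm0⟩ := Set.exists_max_image S (fun v => ‖P.z v‖ + P.r v) hfin hne
  have hm0δ : ‖P.z m0‖ + P.r m0 < δ := hcon m0 hm0S
  set ρ := ((‖P.z m0‖ + P.r m0) + δ) / 2 with hρ
  have hρδ : ρ < δ := by rw [hρ]; linarith
  have hPρ : ∀ v ∈ S, ‖P.z v‖ + P.r v < ρ := by
    intro v hv
    have := hm0 v hv
    rw [hρ]; linarith
  have hR0 : 0 < Q.r v0 := hQ.pos v0
  have hρ0 : Q.r v0 < ρ := by
    have := hPρ v0 hv0S
    rw [hPz, hr, norm_zero] at this
    linarith
  have hρpos : 0 < ρ := by linarith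
  have hδpos : 0 < δ := by linarith
  have hkP : ∀ v ∈ S, 1 < kap ρ (P.z v) (P.r v) := fun v hv =>
    kap_gt_one hρpos (hP.pos v) (hPρ v hv)
  obtain ⟨m, hmS, hm⟩ := Set.exists_max_image S
    (fun v => kap δ (Q.z v) (Q.r v) / kap ρ (P.z v) (P.r v)) hfin hne
  set s := kap δ (Q.z m) (Q.r m) / kap ρ (P.z m) (P.r m) with hs
  have hkv : ∀ v ∈ S, kap δ (Q.z v) (Q.r v) ≤ s * kap ρ (P.z v) (P.r v) := by
    intro v hv
    have h1 := hm v hv
    have h2 := hkP v hv
    rw [div_le_iff₀ (by linarith)] at h1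
    exact h1
  have hs1 : 1 < s := by
    have h1 := hm v0 hv0S
    refine lt_of_lt_of_le ?_ h1
    have h2 := hkP v0 hv0S
    rw [lt_div_iff₀ (by linarith), one_mul, hPz, hQz, hr]
    unfold kap
    rw [norm_zero, div_lt_div_iff₀ (by positivity) (by positivity)]
    have h3 : 0 < δ - ρ := by linarith
    have h4 : 0 < δ * ρ - Q.r v0 ^ 2 := by nlinarith
    have h5 : 0 < (δ - ρ) * (δ * ρ - Q.r v0 ^ 2) * (2 * Q.r v0) := by positivity
    nlinarith
  have hkm : kap δ (Q.z m) (Q.r m) = s * kap ρ (P.z m) (P.r m) := by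
    rw [hs, div_mul_cancel₀]
    have := hkP m hmS
    linarith
  by_cases hmU : Small K Q δ v0 m
  · obtain ⟨n, w, hw⟩ := cyc_of_interior (hmU.interior hv0 h0 hH)
    have hwS : ∀ i, w i ∈ S := fun i => Or.inr ⟨m, hmU, hw.adj i⟩
    exact local_schwarz (hw.flower hP) (hw.flower hQ) hρpos hδpos (hPρ m hmS)
      (hmU.far_lt h0) (fun i => (hPρ _ (hwS i)).le) hs1 hkm (fun i => hkv _ (hwS i))
  · rcases hmS with h | ⟨u, hu, hum⟩
    · exact hmU h
    · have hfar : δ ≤ far Q m := by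
        by_contra h
        push Not at h
        exact hmU (Relation.ReflTransGen.tail hu ⟨hum, h⟩)
      have hum' := hQ.tan hum
      have hfu := hu.far_lt h0
      unfold far at hfar hfu
      have h1 : dist (Q.z u) (Q.z m) ≤ ‖Q.z u‖ + ‖Q.z m‖ := by
        rw [dist_eq_norm]; exact norm_sub_le _ _
      have h2 : |δ - Q.r m| ≤ ‖Q.z m‖ := by
        rw [abs_le]
        have := hQ.pos u
        constructor <;> linarith
      have h3 := kap_le_one hδpos (hQ.pos m) h2
      have h4 := hkP m (Or.inr ⟨u, hu, hum⟩)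
      rw [hkm] at h3
      nlinarith

end Pool.Agent.H74.Koebe
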