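import Pool.Agent.H74.Koebe.Crossing
import Pool.Agent.H74.Koebe.Count

/-! From complexes to flowers; local finiteness. -/

namespace Pool.Agent.H74.Koebe

universe u

variable {V : Type u} {K : OComplex V} {P Q : Circles V} {κ : ℝ}

open OComplex

/-- The data of a closed link. -/
structure Cyc (K : OComplex V) (v : V) (n : ℕ) (w : ℕ → V) : Prop where
  three : 3 ≤ n
  per : ∀ i, w (i + n) = w i
  inj : ∀ i < n, ∀ j < n, w i = w j → i = j
  face : ∀ i, K.face v (w i) (w (i + 1))
  nbr : ∀ x, K.adj v x → ∃ i < n, w i = x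

lemma cyc_of_interior {v : V} (h : K.Interior v) : ∃ n w, Cyc K v n w := by
  obtain ⟨n, w, h1, h2, h3, h4, h5⟩ := h
  exact ⟨n, w, h1, h2, h3, h4, h5⟩

lemma Cyc.adj {v : V} {n : ℕ} {w : ℕ → V} (h : Cyc K v n w) (i : ℕ) : K.adj v (w i) :=
  adj_of_face (h.face i)

lemma Cyc.flower {v : V} {n : ℕ} {w : ℕ → V} (h : Cyc K v n w) (hG : Good K P) :
    Flower n (P.z v) (P.r v) (fun i => P.z (w i)) (fun i => P.r (w i)) where
  three := h.three
  rpos := hG.pos v
  ρpos := fun i => hG.pos _
  per := fun i => by simp only [h.per]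
  perρ := fun i => by simp only [h.per]
  spoke := fun i => hG.tan (h.adj i)
  rim := fun i => hG.tan (adj_of_face (K.rot (h.face i)))
  pos := fun i => hG.ori (h.face i)
  disj := fun i hi j hj hij => hG.dis (fun he => hij (h.inj i hi j hj he))

lemma encard_range {α : Type*} {n d : ℕ} {w : ℕ → α} (hinj : ∀ i < n, ∀ j < n, w i = w j → i = j)
    {S : Set α} (hS : ∀ i < n, w i ∈ S) (hd : S.encard ≤ d) : n ≤ d := by
  have h1 : ((Finset.range n : Finset ℕ) : Set ℕ).InjOn w := by
    intro i hi j hj h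
    exact hinj i (by simpa using hi) j (by simpa using hj) h
  have h2 : (w '' ((Finset.range n : Finset ℕ) : Set ℕ)).encard = n := by
    rw [h1.encard_image, Set.encard_coe_eq_coe_finsetCard, Finset.card_range]
  have h3 : (w '' ((Finset.range n : Finset ℕ) : Set ℕ)) ⊆ S := by
    rintro x ⟨i, hi, rfl⟩
    exact hS i (by simpa using hi)
  have h4 := (Set.encard_le_encard h3).trans hd
  rw [h2] at h4
  exact_mod_cast h4

lemma Cyc.le {v : V} {n d : ℕ} {w : ℕ → V} (h : Cyc K v n w) (hd : K.DegLE d) : n ≤ d :=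
  encard_range h.inj (S := {x | K.adj v x}) (fun i _ => h.adj i) (hd v)

lemma nbr_finite {d : ℕ} (hd : K.DegLE d) (v : V) : {x | K.adj v x}.Finite :=
  Set.finite_of_encard_le_coe (hd v)

/-- Only finitely many centres lie in the half disc, for a locally finite packing filling the
unit disc with interior faces. -/
theorem finite_half {d : ℕ} (hG : Good K Q) (hS : Star κ K Q) (hd : K.DegLE d)
    (hI : ∀ v, K.Interior v) (hc : carr K Q = Metric.ball 0 1) :
    {v | Q.z v ∈ Metric.closedBall (0 : ℂ) (1 / 2)}.Finite := by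
  have hcpt : IsCompact (Metric.closedBall (0 : ℂ) (1 / 2)) := isCompact_closedBall _ _
  have hloc : ∀ q ∈ Metric.closedBall (0 : ℂ) (1 / 2), ∃ U ∈ nhds q, {v | Q.z v ∈ U}.Finite := by
    intro q hq
    have hq1 : q ∈ carr K Q := by
      rw [hc]
      exact Metric.closedBall_subset_ball (by norm_num) hq
    obtain ⟨a, b, c, hf, hm⟩ := hq1
    have h0 : 0 < eta κ * κ ^ 2 * Q.r a := by
      have := eta_pos hS.pos
      have := hS.pos
      have := hG.pos a
      positivity
    refine ⟨Metric.ball q (eta κ * κ ^ 2 * Q.r a), Metric.ball_mem_nhds _ h0, ?_⟩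
    have hfin : (({a, b, c} : Set V) ∪ (⋃ x ∈ ({a, b, c} : Set V), {y | K.adj x y})).Finite := by
      apply Set.Finite.union (Set.toFinite _)
      apply Set.Finite.biUnion (Set.toFinite _)
      intro x _
      exact nbr_finite hd x
    apply hfin.subset
    intro v hv
    obtain ⟨x, y, z, hx, hfx, hq'⟩ := hS.near_face hG hf (hI a) (hI b) (hI c) (Or.inl rfl) hm
      (le_of_lt (Metric.mem_ball.1 hv))
    have hx' : x ∈ ({a, b, c} : Set V) := hx
    rcases hG.center_mem hfx hq' with rfl | rfl | rfl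
    · exact Or.inl hx'
    · exact Or.inr (Set.mem_biUnion hx' (adj_of_face hfx))
    · exact Or.inr (Set.mem_biUnion hx' (adj_of_face' hfx))
  choose! U hU hfin using hloc
  obtain ⟨t, ht, hcov⟩ := hcpt.elim_nhds_subcover U hU
  apply (Set.Finite.biUnion t.finite_toSet (fun q hq => hfin q (ht q hq))).subset
  intro v hv
  have := hcov hv
  rw [Set.mem_iUnion₂] at this ⊢
  exact this

end Pool.Agent.H74.Koebe
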