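import Pool.Agent.H74.Koebe.Potential
import Pool.Agent.H74.Koebe.Flower

/-! Neighbourhoods of faces are covered by stars. -/

namespace Pool.Agent.H74.Koebe

universe u

variable {V : Type u} {K : OComplex V} {P : Circles V} {κ : ℝ}

open OComplex

/-- The consequences of the ring lemma used below. -/
structure Star (κ : ℝ) (K : OComplex V) (P : Circles V) : Prop where
  pos : 0 < κ
  le : κ ≤ 1
  ring : ∀ v, K.Interior v → ∀ w, K.adj v w → κ * P.r v ≤ P.r w
  cover : ∀ v, K.Interior v → ∀ q, (dist q (P.z v)) ^ 2 ≤ (1 + 2 * κ) * (P.r v) ^ 2 →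
    ∃ a b, K.face v a b ∧ q ∈ tri P v a b

/-- The relative width of the collar around an interior disc. -/
noncomputable def eta (κ : ℝ) : ℝ := Real.sqrt (1 + 2 * κ) - 1

lemma eta_pos (h : 0 < κ) : 0 < eta κ := by
  unfold eta
  have : 1 < Real.sqrt (1 + 2 * κ) := by
    rw [Real.lt_sqrt (by norm_num)]
    linarith
  linarith

lemma eta_sq (h : 0 < κ) : (1 + eta κ) ^ 2 = 1 + 2 * κ := by
  unfold eta
  rw [show 1 + (Real.sqrt (1 + 2 * κ) - 1) = Real.sqrt (1 + 2 * κ) by ring,
    Real.sq_sqrt (by linarith)]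

lemma Star.cover' (hS : Star κ K P) {v : V} (hr : 0 < P.r v) (hv : K.Interior v) {q : ℂ}
    (hq : dist q (P.z v) ≤ (1 + eta κ) * P.r v) : ∃ a b, K.face v a b ∧ q ∈ tri P v a b := by
  apply hS.cover v hv q
  have h0 := dist_nonneg (x := q) (y := P.z v)
  calc (dist q (P.z v)) ^ 2 ≤ ((1 + eta κ) * P.r v) ^ 2 := by gcongr
    _ = (1 + 2 * κ) * (P.r v) ^ 2 := by rw [mul_pow, eta_sq hS.pos]

lemma Star.ring' (hS : Star κ K P) {a b : V} (hr : ∀ v, 0 < P.r v) (hb : K.Interior b)
    (hab : a = b ∨ K.adj a b) : κ * P.r b ≤ P.r a := by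
  rcases hab with rfl | hab
  · have := hS.le
    have := hr a
    nlinarith
  · exact hS.ring b hb a (adj_symm hab)

lemma Star.near_edge (hS : Star κ K P) (hG : Good K P) {a b : V} (hab : K.adj a b)
    (ha : K.Interior a) (hb : K.Interior b) {q q' : ℂ} (hq : q ∈ segment ℝ (P.z a) (P.z b))
    (hd : dist q' q ≤ eta κ * κ * P.r a) :
    ∃ x y z, (x = a ∨ x = b) ∧ K.face x y z ∧ q' ∈ tri P x y z := by
  have he := eta_pos hS.pos
  have hκ := hS.pos
  have hκ1 := hS.le
  have hra := hG.pos a
  have hrb := hG.pos b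
  rcases seg_disc hG hab hq with h1 | h1
  · have h2 : dist q' (P.z a) ≤ (1 + eta κ) * P.r a := by
      have := dist_triangle q' q (P.z a)
      have h3 : eta κ * κ * P.r a ≤ eta κ * 1 * P.r a := by gcongr
      linarith
    obtain ⟨y, z, hf, hm⟩ := hS.cover' hra ha h2
    exact ⟨a, y, z, Or.inl rfl, hf, hm⟩
  · have h2 : dist q' (P.z b) ≤ (1 + eta κ) * P.r b := by
      have := dist_triangle q' q (P.z b)
      have h3 : κ * P.r a ≤ P.r b := hS.ring a ha b hab
      have h4 : eta κ * (κ * P.r a) ≤ eta κ * P.r b := by gcongr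
      linarith
    obtain ⟨y, z, hf, hm⟩ := hS.cover' hrb hb h2
    exact ⟨b, y, z, Or.inr rfl, hf, hm⟩

/-- The corners of a face. -/
def isCorner (a b c v : V) : Prop := v = a ∨ v = b ∨ v = c

lemma isCorner_adj {a b c v v' : V} (hf : K.face a b c) (hv : isCorner a b c v)
    (hv' : isCorner a b c v') : v = v' ∨ K.adj v v' := by
  have h1 := adj_of_face hf
  have h2 := adj_of_face (K.rot hf)
  have h3 := adj_of_face (K.rot (K.rot hf))
  rcases hv with rfl | rfl | rfl <;> rcases hv' with rfl | rfl | rfl <;>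
    first
    | exact Or.inl rfl
    | exact Or.inr h1
    | exact Or.inr h2
    | exact Or.inr h3
    | exact Or.inr (adj_symm h1)
    | exact Or.inr (adj_symm h2)
    | exact Or.inr (adj_symm h3)

/-- A closed neighbourhood of a point of a face all of whose corners are interior is covered by
the stars of the corners. -/
lemma Star.near_face (hS : Star κ K P) (hG : Good K P) {a b c v : V} (hf : K.face a b c)
    (ha : K.Interior a) (hb : K.Interior b) (hc : K.Interior c) (hv : isCorner a b c v)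
    {q q' : ℂ} (hq : q ∈ tri P a b c) (hd : dist q' q ≤ eta κ * κ ^ 2 * P.r v) :
    ∃ x y z, isCorner a b c x ∧ K.face x y z ∧ q' ∈ tri P x y z := by
  have he := eta_pos hS.pos
  have hκ := hS.pos
  have hI : ∀ x, isCorner a b c x → K.Interior x := by
    rintro x (rfl | rfl | rfl) <;> assumption
  by_cases hq' : q' ∈ tri P a b c
  · exact ⟨a, b, c, Or.inl rfl, hf, hq'⟩
  obtain ⟨y, hy, -, hy'⟩ := tri_enter (hG.ori hf) hq hq'
  have hyd : dist q' y ≤ dist q' q := by
    have h1 : dist q y + dist y q' = dist q q' := dist_add_dist_of_mem_segment hy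
    rw [dist_comm q' y, dist_comm q' q]
    have := dist_nonneg (x := q) (y := y)
    linarith
  have key : ∀ x1 x2, K.adj x1 x2 → isCorner a b c x1 → isCorner a b c x2 →
      y ∈ segment ℝ (P.z x1) (P.z x2) →
      ∃ x y z, isCorner a b c x ∧ K.face x y z ∧ q' ∈ tri P x y z := by
    intro x1 x2 hadj h1 h2 hseg
    have h3 : κ * P.r v ≤ P.r x1 := hS.ring' hG.pos (hI v hv) (isCorner_adj hf h1 hv)
    have h4 : dist q' y ≤ eta κ * κ * P.r x1 := by
      calc dist q' y ≤ eta κ * κ ^ 2 * P.r v := hyd.trans hd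
        _ = eta κ * κ * (κ * P.r v) := by ring
        _ ≤ eta κ * κ * P.r x1 := by gcongr
    obtain ⟨x, y, z, hx, hf', hm⟩ := hS.near_edge hG hadj (hI _ h1) (hI _ h2) hseg h4
    exact ⟨x, y, z, by rcases hx with rfl | rfl <;> assumption, hf', hm⟩
  rcases hy' with h | h | h
  · exact key a b (adj_of_face hf) (Or.inl rfl) (Or.inr (Or.inl rfl)) h
  · exact key b c (adj_of_face (K.rot hf)) (Or.inr (Or.inl rfl)) (Or.inr (Or.inr rfl)) h
  · exact key c a (adj_of_face (K.rot (K.rot hf))) (Or.inr (Or.inr rfl)) (Or.inl rfl) h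

lemma mem_carr {x y z : V} (hf : K.face x y z) {q : ℂ} (hq : q ∈ tri P x y z) : q ∈ carr K P :=
  ⟨x, y, z, hf, hq⟩

/-- A point of a face triangle is within the diameter of each corner. -/
lemma Good.dist_corner (hG : Good K P) {a b c v : V} (hf : K.face a b c)
    (hv : isCorner a b c v) {q : ℂ} (hq : q ∈ tri P a b c) {C : ℝ}
    (hC : ∀ x, isCorner a b c x → x ≠ v → P.r v + P.r x ≤ C) : dist q (P.z v) ≤ C := by
  have h0 : 0 ≤ C := by
    have h1 := adj_ne (adj_of_face hf)
    by_cases h2 : v = a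
    · have := hC b (Or.inr (Or.inl rfl)) (by rw [h2]; exact h1.symm)
      have := hG.pos v; have := hG.pos b; linarith
    · have := hC a (Or.inl rfl) (Ne.symm h2)
      have := hG.pos v; have := hG.pos a; linarith
  have hsub : tri P a b c ⊆ Metric.closedBall (P.z v) C := by
    apply convexHull_min _ (convex_closedBall _ _)
    have key : ∀ x, isCorner a b c x → P.z x ∈ Metric.closedBall (P.z v) C := by
      intro x hx
      rw [Metric.mem_closedBall]
      by_cases hxv : x = v
      · rw [hxv, dist_self]; exact h0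
      · rcases isCorner_adj hf hx hv with h | h
        · exact absurd h hxv
        · rw [hG.tan h, add_comm]; exact hC x hx hxv
    rintro y (rfl | rfl | rfl)
    · exact key a (Or.inl rfl)
    · exact key b (Or.inr (Or.inl rfl))
    · exact key c (Or.inr (Or.inr rfl))
  exact hsub hq

end Pool.Agent.H74.Koebe
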